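import Pool.Agent.W_448six_h74.SkB

/-!
MP_448cb3_co, G2, case B, window `j`: THE VALUE of a component with two stars: the bounds.  helper74.
-/

namespace Pool.Agent.GaussPoset.Win.Si

set_option linter.unusedSectionVars false

open Finset W4 Pa Pb
open Pool.Agent.GaussPoset.Win.SO (PN vp con on mem_PN vp_PD vp_PU)

universe u

variable {P : Type u} [Fintype P] [PartialOrder P] [DecidableEq P] {r i : ℕ}
variable {psi : P → P} {C K : Finset P} {w v w' v' : P} {m : ℕ} {x : ℕ → P}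

/-- the number `d` of the pendants over the third pair and the bound `b` -/
def Cs (d b : ℤ) : Prop := (d = 0 ∧ b = 8) ∨ (d = 1 ∧ b = -4) ∨ (d = 2 ∧ b = -16)

lemma QS_one (a : ℕ → ℤ) : QS a 2 3 = a 2 ^ 2 + a 2 := by
  rw [QS_bot a (by omega), if_neg (by omega), show QS a (2 + 1) 3 = 0 from QS_self a 3]
  ring

lemma QS_pair (a : ℕ → ℤ) : QS a 2 4 = a 2 ^ 2 + a 2 + 2 * a 2 * a 3 + (a 3 ^ 2 + a 3) := by
  rw [QS_bot a (by omega), if_pos (by omega), show QS a (2 + 1) 4 = QS a 3 4 from rfl,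
    QS_bot a (by omega), if_neg (by omega), show QS a (3 + 1) 4 = 0 from QS_self a 4]
  ring

lemma sum_one (a : ℕ → ℤ) : ∑ k ∈ Ico 2 3, a k = a 2 := by
  rw [show Ico 2 3 = {2} from rfl, sum_singleton]

lemma sum_two (a : ℕ → ℤ) : ∑ k ∈ Ico 2 4, a k = a 2 + a 3 := by
  rw [show Ico 2 4 = {2, 3} from rfl, sum_pair (by norm_num)]

lemma DLt.Eo_cs (h : DLt r i K C w v w' v' m x) (hz : ∀ z ∈ Z4 i C, z ∈ T4 i C) :
    ∃ b, Cs (NE i C x 2) b ∧ b - 2 * NE i C x 3 ≤ Eo i C x w v := by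
  rcases h.Eo_cases hz with ⟨h1, h2⟩ | ⟨h1, h2⟩ | ⟨h1, -, h2⟩
  · exact ⟨8, Or.inl ⟨h1, rfl⟩, h2⟩
  · exact ⟨-4, Or.inr (Or.inl ⟨h1, rfl⟩), h2⟩
  · exact ⟨-16, Or.inr (Or.inr ⟨h1, rfl⟩), h2⟩

namespace Two

variable (B : Two r i K psi C w v w' v' x m)
include B

lemma Eo_cs' : ∃ b, Cs (NE i C x (m - 3)) b ∧
    b - 2 * NE i C x (m - 4) ≤ Eo i C (fun k => x (m - k)) w' v' := by
  have hm := B.Q.hm
  obtain ⟨b, h1, h2⟩ := B.toT'.Eo_cs fun z hz => B.Q.zz z hz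
  rw [NE_mirror (by omega), show m - 1 - 2 = m - 3 by omega] at h1
  rw [NE_mirror (by omega), show m - 1 - 3 = m - 4 by omega] at h2
  exact ⟨b, h1, h2⟩

lemma NE_pos {k : ℕ} (h1 : 1 ≤ k) (h2 : k + 2 ≤ m) : 0 ≤ NE i C x k := by
  rw [B.toT.NE_in h1 h2]
  positivity

/-- the middle of a long row -/
lemma long (hm : 7 ≤ m) : QS (NE i C x) 2 (m - 2) = NE i C x 2 ^ 2 + NE i C x 2 +
      2 * NE i C x 2 * NE i C x 3 + QS (NE i C x) 3 (m - 3) +
      2 * NE i C x (m - 4) * NE i C x (m - 3) + NE i C x (m - 3) ^ 2 + NE i C x (m - 3) ∧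
    ∑ k ∈ Ico 2 (m - 2), NE i C x k = NE i C x 2 + ∑ k ∈ Ico 3 (m - 3), NE i C x k +
      NE i C x (m - 3) := by
  obtain ⟨n, rfl⟩ : ∃ n, m = n + 4 := ⟨m - 4, by omega⟩
  have g1 : n + 4 - 2 = n + 1 + 1 := by omega
  have g2 : n + 4 - 3 = n + 1 := by omega
  have g3 : n + 4 - 4 = n := by omega
  rw [g1, g2, g3]
  constructor
  · rw [QS_bot _ (by omega), QS_top _ (by omega), if_pos (by omega), if_pos (by omega)]
    simp only [Nat.add_sub_cancel, Nat.reduceAdd]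
    ring
  · rw [sum_eq_sum_Ico_succ_bot (by omega), sum_Ico_succ_top (by omega)]
    simp only [Nat.reduceAdd]
    ring

/-- the value without the first edges -/
noncomputable def Vr (i : ℕ) (C : Finset P) (x : ℕ → P) (m : ℕ) : ℤ :=
  V2 i C - E0 (uc (x 0)).card (NE i C x 0) - E0 (uc (x m)).card (NE i C x (m - 1))

/-- six sites -/
theorem five (hm : m = 5) : 28 ≤ Vr i C x m + 2 * ∑ k ∈ Ico 2 (m - 2), NE i C x k ∧
    I2.w3 (st i C).card (ZS i C) ≠ 0 := by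
  obtain ⟨b, h1, h2⟩ := B.toT.Eo_cs fun z hz => B.Q.zz z hz
  obtain ⟨b', h1', h2'⟩ := B.Eo_cs'
  have e := B.V2_eq
  have n2 := B.n5 hm
  have n1 := B.N1
  have n3 := B.Nm2
  have e1 := B.w3v
  rw [dl_NE, dl_NE] at e1
  subst hm
  simp only [show 5 - 2 = 3 from rfl, show 5 - 3 = 2 from rfl, show 5 - 4 = 1 from rfl] at e e1 h1' h2' n3 ⊢
  rw [sum_one, QS_one, n2] at e
  norm_num at e
  rw [n2] at e1
  norm_num at e1
  rw [n2] at h1 h1'
  rw [n3] at h2
  rw [n1] at h2'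
  have hb : b = 8 := by
    rcases h1 with h | h | h
    · exact h.2
    · omega
    · omega
  have hb' : b' = 8 := by
    rcases h1' with h | h | h
    · exact h.2
    · omega
    · omega
  refine ⟨?_, by rw [e1]; norm_num⟩
  unfold Vr
  rw [sum_one, n2, e]
  linarith

/-- seven sites -/
theorem six (hm : m = 6) : -6 ≤ Vr i C x m + 2 * ∑ k ∈ Ico 2 (m - 2), NE i C x k := by
  obtain ⟨b, h1, h2⟩ := B.toT.Eo_cs fun z hz => B.Q.zz z hz
  obtain ⟨b', h1', h2'⟩ := B.Eo_cs'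
  have e := B.V2_eq
  subst hm
  simp only [show 6 - 2 = 4 from rfl, show 6 - 3 = 3 from rfl, show 6 - 4 = 2 from rfl] at e h1' h2' ⊢
  rw [sum_two, QS_pair] at e
  norm_num at e
  unfold Vr
  rw [sum_two, e]
  simp only [show 6 - 1 = 5 from rfl]
  generalize NE i C x 2 = p at *
  generalize NE i C x 3 = q at *
  rcases h1 with ⟨rfl, rfl⟩ | ⟨rfl, rfl⟩ | ⟨rfl, rfl⟩ <;>
    rcases h1' with ⟨rfl, rfl⟩ | ⟨rfl, rfl⟩ | ⟨rfl, rfl⟩ <;> linarith

/-- at least eight sites -/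
theorem seven (hm : 7 ≤ m) : -11 ≤ Vr i C x m + 2 * ∑ k ∈ Ico 2 (m - 2), NE i C x k ∨
    (-12 ≤ Vr i C x m + 2 * ∑ k ∈ Ico 2 (m - 2), NE i C x k ∧
      I2.w3 (st i C).card (ZS i C) ≠ 0) := by
  obtain ⟨b, h1, h2⟩ := B.toT.Eo_cs fun z hz => B.Q.zz z hz
  obtain ⟨b', h1', h2'⟩ := B.Eo_cs'
  have e := B.V2_eq
  have e1 := B.w3v
  rw [dl_NE, dl_NE, if_neg (by omega)] at e1
  obtain ⟨l1, l2⟩ := B.long hm
  obtain ⟨q1, q2, q3, q4⟩ := QS_mid (NE i C x) (s := 3) (t := m - 3) (by omega)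
    fun k hk hk' => B.NE_pos (by omega) (by omega)
  have p3 := B.NE_pos (k := 3) (by omega) (by omega)
  have p4 := B.NE_pos (k := m - 4) (by omega) (by omega)
  rw [show m - 3 - 1 = m - 4 by omega] at q3 q4
  rw [l1, l2, if_neg (by omega), if_neg (by omega), if_neg (by omega), if_pos (by omega),
    if_pos (by omega), if_pos (by omega)] at e
  unfold Vr
  rw [l2, e, e1]
  generalize NE i C x 2 = p at *
  generalize NE i C x (m - 3) = q at *
  generalize NE i C x 3 = n at *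
  generalize NE i C x (m - 4) = n' at *
  generalize QS (NE i C x) 3 (m - 3) = Q at *
  generalize ∑ k ∈ Ico 3 (m - 3), NE i C x k = S at *
  generalize E0 (uc (x 0)).card (NE i C x 0) = A0 at *
  generalize E0 (uc (x m)).card (NE i C x (m - 1)) = A1 at *
  rcases h1 with ⟨rfl, rfl⟩ | ⟨rfl, rfl⟩ | ⟨rfl, rfl⟩ <;>
    rcases h1' with ⟨rfl, rfl⟩ | ⟨rfl, rfl⟩ | ⟨rfl, rfl⟩
  all_goals first
    | (left; linarith)
    | (right; refine ⟨by linarith, by norm_num⟩)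

/-- THE LOWER BOUND -/
theorem Vlow : -11 ≤ Vr i C x m + 2 * ∑ k ∈ Ico 2 (m - 2), NE i C x k ∨
    (-12 ≤ Vr i C x m + 2 * ∑ k ∈ Ico 2 (m - 2), NE i C x k ∧
      I2.w3 (st i C).card (ZS i C) ≠ 0) := by
  have hm := B.Q.hm
  rcases Nat.lt_or_ge m 7 with h | h
  · rcases Nat.lt_or_ge m 6 with h' | h'
    · have := (B.five (by omega)).1
      left
      linarith
    · have := B.six (by omega)
      left
      linarith
  · exact B.seven h

/-- both ends closed -/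
theorem V2_closed (hn : (uc (x 0)).card = 2) (hn' : (uc (x m)).card = 2) {A : ℤ}
    (hA : 4 + 2 * ∑ k ∈ range m, NE i C x k ≤ A) :
    0 < A + V2 i C ∨ (0 ≤ A + V2 i C ∧ I2.w3 (st i C).card (ZS i C) ≠ 0) := by
  have hm := B.Q.hm
  have u0 : 0 ≤ NE i C x 0 := by
    unfold NE
    rw [B.W.ue_zero (by omega) hn, card_empty]
    push_cast
    omega
  have u1 : 0 ≤ NE i C x (m - 1) := by
    unfold NE
    rw [B.W.ue_last (by omega) hn', card_empty]
    push_cast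
    omega
  have h1 := B.Vlow
  have s1 := B.sum_split
  unfold Vr E0 at h1
  rw [hn, hn'] at h1
  push_cast at h1
  rw [s1] at hA
  have q0 := mul_nonneg u0 u0
  have q1 := mul_nonneg u1 u1
  rcases h1 with h1 | ⟨h1, h2⟩
  · left
    linarith
  · right
    exact ⟨by linarith, h2⟩

/-- one end closed, one upper pendant over the first pair of the other end -/
theorem V2_fold (hn : (uc (x 0)).card = 1) (hn' : (uc (x m)).card = 2)
    (hU : (UE i C x 0).card = 1) {A : ℤ}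
    (hA : 2 + 2 * (∑ k ∈ range m, NE i C x k - NE i C x 0) ≤ A) :
    -3 ≤ A + V2 i C ∧ (DE i C x 0 = ∅ →
      0 < A + V2 i C ∨ (0 ≤ A + V2 i C ∧ I2.w3 (st i C).card (ZS i C) ≠ 0)) := by
  have hm := B.Q.hm
  have e0 : NE i C x 0 = ((DE i C x 0).card : ℤ) - 1 := by
    unfold NE
    rw [hU]
    push_cast
    ring
  have u1 : 0 ≤ NE i C x (m - 1) := by
    unfold NE
    rw [B.W.ue_last (by omega) hn', card_empty]
    push_cast
    omega
  have h1 := B.Vlow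
  have s1 := B.sum_split
  unfold Vr E0 at h1
  rw [hn, hn'] at h1
  push_cast at h1
  rw [s1] at hA
  have q0 : 0 ≤ 2 * NE i C x 0 ^ 2 - NE i C x 0 := by
    rcases le_or_gt (NE i C x 0) 0 with h | h
    · nlinarith
    · have : 1 ≤ NE i C x 0 := h
      nlinarith
  have q1 := mul_nonneg u1 u1
  refine ⟨?_, fun hD => ?_⟩
  · rcases h1 with h1 | ⟨h1, -⟩ <;> linarith
  · rw [hD, card_empty] at e0
    push_cast at e0
    rw [e0] at h1 hA
    rcases h1 with h1 | ⟨h1, h2⟩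
    · left
      linarith
    · right
      exact ⟨by linarith, h2⟩

end Two

end Pool.Agent.GaussPoset.Win.Si
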