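import Pool.Agent.W_448p_h97.PbW
import Pool.Agent.W_448kf_h15.KfH
import Pool.Agent.W_448six_h74.SkC

/-!
MP_448cb3_co, G2, case B, window `j`: a row with two stars is a row of `Two`; the value `L + 6 w32 + 2 F6`.
helper74.
-/

namespace Pool.Agent.GaussPoset.Win.Si

set_option linter.unusedSectionVars false

open Finset W4 Pa Pb
open Pool.Agent.GaussPoset.Win.SO (PN vp con on mem_PN vp_PD vp_PU)
open Pool.Agent.GaussPoset.EK (Red RowB Row Pat6)
open Pool.Agent.GaussPoset.St
open Pool.Agent.GaussPoset.Wd (NJ)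

universe u

variable {P : Type u} [Fintype P] [PartialOrder P] [DecidableEq P] {r i j : ℕ}
variable {psi : P → P} {C K : Finset P} {w v w' v' : P} {m : ℕ} {x : ℕ → P}
variable {c : ℕ → ℤ} {β : ℤ} {t : Tops P}

/-- the row of a component with two stars -/
theorem NJ_two (h : NJ P r j) (hj : 2 ≤ j) (R : Red P j K psi) (B : RowB P j t m x c β)
    (hp : Pat6 m c β) :
    ∃ w v w' v', Two r j K psi (cext (j + 1) (topOf : P → Tops P) t) w v w' v' x m := by
  obtain ⟨w, v, w', v', Q⟩ := exists_k9x h B hp hj R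
  exact ⟨w, v, w', v', Q, EK.NJ.prow h hj B (by have := hp.1; omega), pat6_dcv h B hp⟩

/-- the mirror image of the pattern -/
lemma Pat6_rev (hp : Pat6 m c β) : Pat6 m (fun k => c (m - 1 - k)) β := by
  obtain ⟨hm, hb, c0, c1, c2, c3, c4⟩ := hp
  refine ⟨hm, hb, ?_, ?_, ?_, ?_, ?_⟩
  · show c (m - 1 - 0) = 1
    rwa [Nat.sub_zero]
  · show c (m - 1 - 1) = -1
    rwa [show m - 1 - 1 = m - 2 by omega]
  · show c (m - 1 - (m - 2)) = -1
    rwa [show m - 1 - (m - 2) = 1 by omega]
  · show c (m - 1 - (m - 1)) = 1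
    rwa [show m - 1 - (m - 1) = 0 by omega]
  · intro k h1 h2
    exact c4 _ (by omega) (by omega)

/-! ### the value `L + 6 w32 + 2 F6` -/

/-- the window `j` part of the value, weights `1, 1, 6, 2` -/
noncomputable def T2 (i : ℕ) (C : Finset P) : ℤ :=
  Lv i C + 6 * I2.w3 (st i C).card (ZS i C) +
    2 * (I2.w3 (st i C).card (ZS i C) ^ 2 - 2 * I2.w6 (st i C).card (ZS i C))

/-- the terms of a first edge -/
def E1 (u n : ℤ) : ℤ := n ^ 2 + n + 2 * (u - 1) * n + (u ^ 2 - u)

/-- the value without the first edges -/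
noncomputable def Tr (i : ℕ) (C : Finset P) (x : ℕ → P) (m : ℕ) : ℤ :=
  T2 i C - E1 (uc (x 0)).card (NE i C x 0) - E1 (uc (x m)).card (NE i C x (m - 1))

/-- the middle of the row -/
lemma QS_mid' (a : ℕ → ℤ) {s t : ℕ} (h : s < t) (ha : ∀ k, s ≤ k → k < t → 0 ≤ a k) :
    0 ≤ QS a s t ∧ 2 * a s ≤ QS a s t ∧ 2 * a (t - 1) ≤ QS a s t ∧
      2 * a s + 2 * a (t - 1) - 2 ≤ QS a s t := by
  obtain ⟨n, rfl⟩ : ∃ n, t = s + n := ⟨t - s, by omega⟩
  have h1 := QS_sq a n ha
  have g0 : ∀ k ∈ Ico s (s + n), (0 : ℤ) ≤ a k ^ 2 + a k := fun k hk => by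
    have := ha k (mem_Ico.1 hk).1 (mem_Ico.1 hk).2
    positivity
  have ms : s ∈ Ico s (s + n) := mem_Ico.2 ⟨le_rfl, h⟩
  have mt : s + n - 1 ∈ Ico s (s + n) := mem_Ico.2 ⟨by omega, by omega⟩
  have f0 := sum_nonneg g0
  have f1 := single_le_sum g0 ms
  have f2 := single_le_sum g0 mt
  have key : ∀ b : ℤ, 0 ≤ b → 2 * b ≤ b ^ 2 + b := by
    intro b hb
    rcases le_or_gt b 0 with hb' | hb'
    · have : b = 0 := by omega
      subst this
      norm_num
    · have : 1 ≤ b := hb'
      nlinarith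
  have p1 := ha s le_rfl h
  have p2 := ha (s + n - 1) (by omega) (by omega)
  refine ⟨by linarith, ?_, ?_, ?_⟩
  · have := key _ p1
    linarith
  · have := key _ p2
    linarith
  · rcases Nat.eq_or_lt_of_le (show 1 ≤ n by omega) with h2 | h2
    · subst h2
      have g2 : 4 * a s - 2 ≤ a s ^ 2 + a s := by
        have : 0 ≤ (a s - 1) * (a s - 2) := by
          rcases le_or_gt (a s) 1 with hb | hb
          · nlinarith
          · have : 2 ≤ a s := hb
            nlinarith
        linarith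
      rw [Nat.add_sub_cancel]
      linarith
    · have f3 : (a s ^ 2 + a s) + (a (s + n - 1) ^ 2 + a (s + n - 1)) ≤
          ∑ k ∈ Ico s (s + n), (a k ^ 2 + a k) := by
        have hsub : ({s, s + n - 1} : Finset ℕ) ⊆ Ico s (s + n) := by
          intro k hk
          rw [mem_insert, mem_singleton] at hk
          rcases hk with rfl | rfl
          · exact ms
          · exact mt
        have := sum_le_sum_of_subset_of_nonneg hsub fun k hk _ => g0 k hk
        rwa [sum_pair (by omega)] at this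
      have k1 := key _ p1
      have k2 := key _ p2
      linarith

namespace Two

variable (B : Two r i K psi C w v w' v' x m)
include B

/-- THE FORMULA -/
theorem T2_eq : Tr i C x m = QS (NE i C x) 2 (m - 2) + Eo i C x w v +
    Eo i C (fun k => x (m - k)) w' v' + (if m = 5 then 12 else if m = 6 then 2 else 0) +
    6 * (NE i C x 2 + NE i C x (m - 3) - 2 - (if m = 5 then 1 else 0)) +
    2 * ((NE i C x 2 + NE i C x (m - 3) - 2 - (if m = 5 then 1 else 0)) ^ 2 -
      2 * ((if 7 ≤ m then NE i C x 2 * NE i C x (m - 3) else 0) -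
        (if 6 ≤ m then NE i C x (m - 3) else 0) - (if 6 ≤ m then NE i C x 2 else 0) + 1)) := by
  have hm := B.Q.hm
  have e1 := B.w3v
  have e2 := B.Q.w6v
  rw [dl_NE, dl_NE] at e1 e2
  have n0 : NE i C (fun k => x (m - k)) 0 = NE i C x (m - 1) := by
    rw [NE_mirror (by omega)]
    rfl
  unfold Tr T2 E1
  rw [B.L_form, e1, e2, Ew_eq, Ew_eq, B.QS_split, n0]
  simp only [show m - 0 = m from rfl]
  ring

theorem Tr_ge : -4 ≤ Tr i C x m ∧ 0 ≤ Tr i C x m + 2 * ∑ k ∈ Ico 2 (m - 2), NE i C x k := by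
  have hm := B.Q.hm
  obtain ⟨b, h1, h2⟩ := B.toT.Eo_cs fun z hz => B.Q.zz z hz
  obtain ⟨b', h1', h2'⟩ := B.Eo_cs'
  have e := B.T2_eq
  rcases Nat.lt_or_ge m 7 with h | h
  · rcases Nat.lt_or_ge m 6 with h' | h'
    · have n2 := B.n5 (by omega)
      have n1 := B.N1
      have n3 := B.Nm2
      have hm5 : m = 5 := by omega
      subst hm5
      simp only [show 5 - 2 = 3 from rfl, show 5 - 3 = 2 from rfl, show 5 - 4 = 1 from rfl]
        at e h1' h2' n3 ⊢
      rw [QS_one, n2] at e
      norm_num at e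
      rw [n2] at h1 h1'
      rw [n3] at h2
      rw [n1] at h2'
      have hb : b = 8 := by
        rcases h1 with h | h | h
        · exact h.2
        · omega
        · omega
      have hb' : b' = 8 := by
        rcases h1' with h | h | h
        · exact h.2
        · omega
        · omega
      rw [sum_one, n2]
      constructor <;> linarith
    · have hm6 : m = 6 := by omega
      subst hm6
      simp only [show 6 - 2 = 4 from rfl, show 6 - 3 = 3 from rfl, show 6 - 4 = 2 from rfl]
        at e h1' h2' ⊢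
      rw [QS_pair] at e
      norm_num at e
      rw [sum_two, e]
      generalize NE i C x 2 = p at *
      generalize NE i C x 3 = q at *
      rcases h1 with ⟨rfl, rfl⟩ | ⟨rfl, rfl⟩ | ⟨rfl, rfl⟩ <;>
        rcases h1' with ⟨rfl, rfl⟩ | ⟨rfl, rfl⟩ | ⟨rfl, rfl⟩ <;> constructor <;> linarith
  · obtain ⟨l1, l2⟩ := B.long h
    obtain ⟨q1, q2, q3, q4⟩ := QS_mid' (NE i C x) (s := 3) (t := m - 3) (by omega)
      fun k hk hk' => B.NE_pos (by omega) (by omega)
    have p3 := B.NE_pos (k := 3) (by omega) (by omega)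
    have p4 := B.NE_pos (k := m - 4) (by omega) (by omega)
    have p5 : 0 ≤ ∑ k ∈ Ico 3 (m - 3), NE i C x k := sum_nonneg fun k hk => by
      rw [mem_Ico] at hk
      exact B.NE_pos (by omega) (by omega)
    rw [show m - 3 - 1 = m - 4 by omega] at q3 q4
    rw [l1, if_neg (by omega), if_neg (by omega), if_neg (by omega), if_pos (by omega),
      if_pos (by omega), if_pos (by omega)] at e
    rw [l2, e]
    generalize NE i C x 2 = p at *
    generalize NE i C x (m - 3) = q at *
    generalize NE i C x 3 = n at *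
    generalize NE i C x (m - 4) = n' at *
    generalize QS (NE i C x) 3 (m - 3) = Q at *
    generalize ∑ k ∈ Ico 3 (m - 3), NE i C x k = S at *
    rcases h1 with ⟨rfl, rfl⟩ | ⟨rfl, rfl⟩ | ⟨rfl, rfl⟩ <;>
      rcases h1' with ⟨rfl, rfl⟩ | ⟨rfl, rfl⟩ | ⟨rfl, rfl⟩ <;> constructor <;> linarith

/-- both ends closed -/
theorem T2_closed (hn : (uc (x 0)).card = 2) (hn' : (uc (x m)).card = 2) : 0 ≤ T2 i C := by
  have hm := B.Q.hm
  have u0 : 0 ≤ NE i C x 0 := by
    unfold NE
    rw [B.W.ue_zero (by omega) hn, card_empty]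
    push_cast
    omega
  have u1 : 0 ≤ NE i C x (m - 1) := by
    unfold NE
    rw [B.W.ue_last (by omega) hn', card_empty]
    push_cast
    omega
  have h1 := B.Tr_ge.1
  unfold Tr E1 at h1
  rw [hn, hn'] at h1
  push_cast at h1
  have q0 := mul_nonneg u0 u0
  have q1 := mul_nonneg u1 u1
  linarith

end Two

end Pool.Agent.GaussPoset.Win.Si
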