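import Pool.Agent.W_448p_h97.PaO
import Pool.Agent.W_448so_h63.FB
import Pool.Agent.W_448six_h74.SkD

/-!
MP_448cb3_co, G2, case B, window `j`: a row with two stars at a fold end: the twins over the first two
elements and the light join (the arguments of helper53 `FgH`, `FgI`, `FgJ`).  helper74.
-/

namespace Pool.Agent.GaussPoset.EK

set_option linter.unusedSectionVars false

open Finset Win St Polynomial Wd Win.W4
open Pool.Agent.GaussPoset.Win.SO (PN vp mem_PN)
open Pool.Agent.GaussPoset.Win.Si (DLt)

universe u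

variable {P : Type u} [Fintype P] [PartialOrder P] [DecidableEq P] {r i j : ℕ}

variable {m : ℕ} {x : ℕ → P} {c : ℕ → ℤ} {β : ℤ} {t : Tops P} {lo hi : ℕ → ℕ} {e : ℕ → ℕ → P}

variable {K : Finset P} {psi : P → P} {w v w' v' : P}

/-- the signed number of the unmatched doubles which do not meet the first pair -/
theorem six_sa (h : NJ P r j) (R : Red P j K psi)
    (B : Si.Two r j K psi (cext (j + 1) (topOf : P → Tops P) t) w v w' v' x m) :
    sa j (topOf : P → Tops P) K {x 0, x 1} t = 0 := by
  classical
  have hm := B.Q.hm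
  have Q := B.Q
  have lw := Q.lw
  have lv := Q.lv
  have lw' := Q.lw'
  have lv' := Q.lv'
  have wK := Q.toK9.wK
  have vK := Q.toK9.vK
  have wK' := Q.toK9.wK'
  have vK' := Q.toK9.vK'
  have low : ∀ y, y ∈ K → lev y = j + 1 → y ∈ dbL P j := by
    intro y hy hl
    rcases mem_union.1 (R.sub hy) with h1 | h1
    · exact h1
    · have := (mem_dbU.1 h1).1
      omega
  have upp : ∀ y, y ∈ K → lev y + 1 = j → y ∈ dbU P j := by
    intro y hy hl
    rcases mem_union.1 (R.sub hy) with h1 | h1
    · have := (mem_dbL.1 h1).1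
      omega
    · exact h1
  have tp : ∀ y, y ∈ cext (j + 1) (topOf : P → Tops P) t → lev y ≤ j + 1 → topOf y = t :=
    fun y hy hl => mem_cext.1 hy y le_rfl hl
  have ne1 : w' ≠ v' := by
    rintro h1
    rw [h1] at lw'
    omega
  rw [sa_eq]
  have e1 : K.filter (fun k => topOf k = t ∧ Disjoint (ns j k) {x 0, x 1}) =
      ({w', v'} : Finset P) := by
    ext k
    rw [mem_filter, mem_insert, mem_singleton]
    constructor
    · rintro ⟨h1, h2, h3⟩
      have hl : lev k ≤ j + 1 := by
        rcases mem_union.1 (R.sub h1) with h4 | h4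
        · exact (mem_dbL.1 h4).1.le
        · have := (mem_dbU.1 h4).1
          omega
      rcases (Q.hK k (mem_cext_of_le h.split hl h2)).1 h1 with h4 | h4 | h4 | h4
      · exfalso
        subst h4
        rw [ns_L (low _ wK lw), Q.uw] at h3
        exact disjoint_left.1 h3 (mem_insert_self _ _) (mem_insert_self _ _)
      · exfalso
        subst h4
        rw [ns_U (upp _ vK lv), Q.dv] at h3
        exact disjoint_left.1 h3 (mem_insert_self _ _) (mem_insert_of_mem (mem_singleton_self _))
      · exact Or.inl h4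
      · exact Or.inr h4
    · have key : ∀ p q, 2 ≤ p → 2 ≤ q → p ≤ m → q ≤ m →
          Disjoint ({x p, x q} : Finset P) {x 0, x 1} := by
        intro p q hp hq hp' hq'
        rw [disjoint_left]
        intro s hs hs'
        rw [mem_insert, mem_singleton] at hs hs'
        rcases hs with rfl | rfl <;> rcases hs' with h5 | h5 <;>
          (have := B.W.inj _ _ (by omega) (by omega) h5; omega)
      rintro (h1 | h1)
      · subst h1
        refine ⟨wK', tp _ Q.wC' (by omega), ?_⟩
        rw [ns_L (low _ wK' lw'), Q.uw']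
        exact key _ _ (by omega) (by omega) le_rfl (by omega)
      · subst h1
        refine ⟨vK', tp _ Q.vC' (by omega), ?_⟩
        rw [ns_U (upp _ vK' lv'), Q.dv']
        exact key _ _ (by omega) (by omega) (by omega) (by omega)
  rw [e1, sum_pair ne1, sgn_low (low _ wK' lw'), sgn_upp (upp _ vK' lv')]
  norm_num

/-- the twins over the first two elements -/
lemma six_twins (H : Gr P r) (D : DLt r j K (cext (j + 1) (topOf : P → Tops P) t) w v w' v' m x) :
    ∃ a b : P, a ≠ b ∧ uc a = {x 0, x 1} ∧ uc b = {x 0, x 1} ∧ dc (x 0) = {a, b} ∧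
      dc (x 1) = {a, b} := by
  classical
  have hm := D.hm
  have h1 := D.dn 0 1 (by omega) (by omega)
  rw [if_pos rfl] at h1
  have h0 : Win.Pb.dk m 0 = 2 := by
    unfold Win.Pb.dk
    rw [if_pos (Or.inl rfl)]
  rw [h0] at h1
  have h2 := D.deg0
  have h3 := D.deg1
  unfold dcv at h1
  obtain ⟨a, b, hab, he⟩ := card_eq_two.1 h1
  have ma : a ⋖ x 0 ∧ a ⋖ x 1 := by
    have : a ∈ ({a, b} : Finset P) := mem_insert_self _ _
    rw [← he, mem_filter] at this
    exact this.2
  have mb : b ⋖ x 0 ∧ b ⋖ x 1 := by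
    have : b ∈ ({a, b} : Finset P) := mem_insert_of_mem (mem_singleton_self _)
    rw [← he, mem_filter] at this
    exact this.2
  have hne : x 0 ≠ x 1 := D.n01
  have key : ∀ y : P, y ⋖ x 0 → y ⋖ x 1 → uc y = {x 0, x 1} := by
    intro y h4 h5
    refine (eq_of_subset_of_card_le ?_ ?_).symm
    · intro s hs
      rw [mem_insert, mem_singleton] at hs
      rcases hs with rfl | rfl
      · exact mem_uc.2 h4
      · exact mem_uc.2 h5
    · rw [card_pair hne]
      exact uc_card_le H _
  have key2 : ∀ s : P, (dc s).card = 2 → a ⋖ s → b ⋖ s → dc s = {a, b} := by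
    intro s hs h4 h5
    refine (eq_of_subset_of_card_le ?_ ?_).symm
    · intro y hy
      rw [mem_insert, mem_singleton] at hy
      rcases hy with rfl | rfl
      · exact mem_dc.2 h4
      · exact mem_dc.2 h5
    · rw [card_pair hab, hs]
  exact ⟨a, b, hab, key a ma.1 ma.2, key b mb.1 mb.2, key2 _ h2 ma.1 mb.1, key2 _ h3 ma.2 mb.2⟩

/-- an element over a double of the first pair and a single element: excluded -/
lemma six_no_inner (B : Si.Two r j K psi (cext (j + 1) (topOf : P → Tops P) t) w v w' v' x m)
    {q y s : P} (hq : q ∈ cext (j + 1) (topOf : P → Tops P) t) (hl : lev q = j + 2)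
    (huq : uc q = {y, s}) (hy : uc y = {x 0, x 1}) (hs : (uc s).card = 1)
    (hd : Disjoint (uc y) (uc s)) : False := by
  classical
  have H := B.W.H
  have hst : sts j q = uc y ∪ uc s := by
    ext p
    rw [mem_sts_iff H hl, huq, mem_union]
    constructor
    · rintro ⟨b, hb, hp⟩
      rw [mem_insert, mem_singleton] at hb
      rcases hb with rfl | rfl
      · exact Or.inl hp
      · exact Or.inr hp
    · rintro (hp | hp)
      · exact ⟨y, mem_insert_self _ _, hp⟩
      · exact ⟨s, mem_insert_of_mem (mem_singleton_self _), hp⟩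
  have hup : up j q = 3 := by
    rw [← card_sts, hst, card_union_of_disjoint hd, hs, hy, card_pair B.toT.n01]
  have hZ : q ∈ Z4 j (cext (j + 1) (topOf : P → Tops P) t) :=
    mem_Z4.2 (Or.inl (mem_ZL.2 ⟨hq, hl, hup⟩))
  rcases mem_T4.1 (B.Q.zz q hZ) with ⟨-, h2⟩ | ⟨h2, -⟩
  · have := h2 s (by rw [huq]; exact mem_insert_of_mem (mem_singleton_self _))
    omega
  · have := (mem_ZU.1 h2).2.1
    omega

/-- a private child of the twins: a light join below the twins -/
theorem six_light (h : NJ P r (i + 1)) (hi1 : 1 ≤ i) (R : RowB P (i + 1) t m x c β)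
    (B : Si.Two r (i + 1) K psi (cext (i + 1 + 1) (topOf : P → Tops P) t) w v w' v' x m)
    (hDE : (DE (i + 1) (cext (i + 1 + 1) (topOf : P → Tops P) t) x 0).Nonempty) :
    ∃ z y s, K2.SD (i + 1) (topOf : P → Tops P) z y s ∧ topOf y = t ∧ uc y = {x 0, x 1} := by
  classical
  have H := h.g.H
  have hm := B.Q.hm
  obtain ⟨a, b, hab, ua, ub, d0, d1⟩ := six_twins H B.toT
  have hne : x 0 ≠ x 1 := B.toT.n01
  have l0 : lev (x 0) = i + 1 := R.row.lev_x 0 (by omega)
  have la : lev a = i + 2 := by
    have := lev_uc H (show x 0 ∈ uc a by rw [ua]; exact mem_insert_self _ _)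
    omega
  have lb : lev b = i + 2 := by
    have := lev_uc H (show x 0 ∈ uc b by rw [ub]; exact mem_insert_self _ _)
    omega
  -- the private child
  obtain ⟨z, hz⟩ := hDE
  obtain ⟨hzC, hzP, hzs⟩ := mem_DE.1 hz
  obtain ⟨lz, hz1, y, hzy, hy2⟩ := mem_PD.1 hzP
  obtain ⟨y', hy'⟩ := card_eq_one.1 hz1
  have hyy : y = y' := by
    have := mem_uc.2 hzy
    rw [hy', mem_singleton] at this
    exact this
  subst hyy
  have huy : uc y = {x 0, x 1} := by
    rw [← SO.sit_PD H lz hy', hzs]
    rfl
  have hyab : y = a ∨ y = b := by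
    have h1 : y ∈ dc (x 0) := mem_dc.2 (mem_uc.1 (by rw [huy]; exact mem_insert_self _ _))
    rw [d0, mem_insert, mem_singleton] at h1
    exact h1
  -- the twins have at most one common child
  have hdab : dcv a b ≤ 1 := by
    unfold dcv
    have h1 : univ.filter (fun q => q ⋖ a ∧ q ⋖ b) ⊆ (dc y).erase z := by
      intro q hq
      rw [mem_filter] at hq
      rw [mem_erase, mem_dc]
      refine ⟨?_, ?_⟩
      · rintro rfl
        have e1 := mem_uc.2 hq.2.1
        have e2 := mem_uc.2 hq.2.2
        rw [hy', mem_singleton] at e1 e2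
        exact hab (e1.trans e2.symm)
      · rcases hyab with rfl | rfl
        · exact hq.2.1
        · exact hq.2.2
    have h2 := card_le_card h1
    rw [card_erase_of_mem (mem_dc.2 hzy)] at h2
    have h3 := dc_card_le H y
    omega
  have huab : ucv a b = 2 := by
    unfold ucv
    have h1 : univ.filter (fun q => a ⋖ q ∧ b ⋖ q) = {x 0, x 1} := by
      ext q
      rw [mem_filter, ← mem_uc, ← mem_uc, ua, ub]
      simp
    rw [h1, card_pair hne]
  have hDf : Df (i + 2) {a, b} ≠ 0 := by
    rw [Df_pair H la hab, huab]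
    intro h1
    have : (dcv a b : ℤ) ≤ 1 := by exact_mod_cast hdab
    push_cast at h1
    linarith
  -- the twins are not a piece
  have hp : ∃ u ∈ ({a, b} : Finset P), ∃ s, lev s = i + 2 ∧ s ∉ ({a, b} : Finset P) ∧
      dcv u s ≠ 0 := by
    by_contra hcon
    push Not at hcon
    refine hDf (Mp.piece_pair H (by have := h.hr; omega) hab ⟨?_, ?_⟩)
    · intro u hu
      rw [mem_insert, mem_singleton] at hu
      rcases hu with rfl | rfl
      · exact mem_lv.2 la
      · exact mem_lv.2 lb
    · intro u hu s hs hsn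
      have h1 := hcon u hu s hs hsn
      have hlu : lev u = i + 2 ∧ uc u = {x 0, x 1} := by
        rw [mem_insert, mem_singleton] at hu
        rcases hu with rfl | rfl
        · exact ⟨la, ua⟩
        · exact ⟨lb, ub⟩
      have hus : u ≠ s := by
        rintro rfl
        exact hsn hu
      have h2 : ucv u s = 0 := by
        unfold ucv
        rw [card_eq_zero, filter_eq_empty_iff]
        rintro q - ⟨h3, h4⟩
        rw [← mem_uc, hlu.2, mem_insert, mem_singleton] at h3
        rcases h3 with rfl | rfl
        · exact hsn (by rw [← d0]; exact mem_dc.2 h4)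
        · exact hsn (by rw [← d1]; exact mem_dc.2 h4)
      rw [Df_pair H hlu.1 hus, h1, h2]
      simp
  obtain ⟨u, hu, s, ls, hsn, hd⟩ := hp
  have hlu : lev u = i + 2 ∧ uc u = {x 0, x 1} ∧ u ∈ dc (x 0) := by
    refine ⟨?_, ?_, by rw [d0]; exact hu⟩
    · rw [mem_insert, mem_singleton] at hu
      rcases hu with rfl | rfl
      · exact la
      · exact lb
    · rw [mem_insert, mem_singleton] at hu
      rcases hu with rfl | rfl
      · exact ua
      · exact ub
  obtain ⟨lu, uu, du⟩ := hlu
  have hus : u ≠ s := by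
    rintro rfl
    exact hsn hu
  obtain ⟨q, hqu, hqs⟩ := StA_of_dcv (v := u) (v' := s) (by omega)
  have lq := lev_cov H hqu
  have hq : uc q = {u, s} := by
    refine (eq_of_subset_of_card_le ?_ ?_).symm
    · intro p hp
      rw [mem_insert, mem_singleton] at hp
      rcases hp with rfl | rfl
      · exact mem_uc.2 hqu
      · exact mem_uc.2 hqs
    · rw [card_pair hus]
      exact uc_card_le H _
  have hdis : Disjoint (uc u) (uc s) := by
    rw [disjoint_left]
    intro p hp1 hp2
    rw [uu, mem_insert, mem_singleton] at hp1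
    rcases hp1 with rfl | rfl
    · exact hsn (by rw [← d0]; exact mem_dc.2 (mem_uc.1 hp2))
    · exact hsn (by rw [← d1]; exact mem_dc.2 (mem_uc.1 hp2))
  have cu : (uc u).card = 2 := by rw [uu, card_pair hne]
  have cs : (uc s).card = 1 := by
    rcases uc_card_cases H (x := s) (by omega) with h1 | h1
    · exact h1
    · exfalso
      obtain ⟨p, hp1, hp2⟩ := NJ.noQ h (by omega) q (by omega) u
        (mem_uc.2 hqu) s (mem_uc.2 hqs) hus cu h1
      exact disjoint_left.1 hdis hp1 hp2
  have tu : topOf u = t := by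
    have h1 := h.split (x := u) (y := x 0) (mem_dc.1 du) (by omega)
    rw [h1]
    exact R.row.kap 0 (by omega)
  by_cases ts : topOf s = t
  · exfalso
    refine six_no_inner B (q := q) (y := u) (s := s) ?_ (by omega) hq uu cs hdis
    rw [mem_cext]
    intro p hp hlp
    rcases eq_or_lt_of_le hp with h1 | h1
    · rw [← h1] at hlp
      omega
    · obtain ⟨p', hp', hp2⟩ := Hul.exists_cov h1
      rw [← mem_uc, hq, mem_insert, mem_singleton] at hp'
      rcases hp' with rfl | rfl
      · rw [← tu]
        exact (Split.le (l := i + 1 + 1) (κ := (topOf : P → Tops P)) h.split _ hp2 (by omega)).symm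
      · rw [← ts]
        exact (Split.le (l := i + 1 + 1) (κ := (topOf : P → Tops P)) h.split _ hp2 (by omega)).symm
  · exact ⟨q, u, s, ⟨by omega, hq, fun h1 => ts (by rw [← h1]; exact tu), cu, cs⟩, tu, uu⟩

/-- an element over the first pair is not below five elements of the level `i` -/
lemma six_N5s (H : Gr P r) (B : Si.Two r (i + 1) K psi
    (cext (i + 1 + 1) (topOf : P → Tops P) t) w v w' v' x m) (hu0 : (uc (x 0)).card = 1)
    {z y s : P} (S : K2.SD (i + 1) (topOf : P → Tops P) z y s)
    (hy : uc y = {x 0, x 1}) : z ∉ So.N5s i (topOf : P → Tops P) := by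
  classical
  have D := B.toT
  have hm := D.hm
  intro hz
  obtain ⟨-, -, -, h5⟩ := So.mem_N5s.1 hz
  have hD : So.CrV i (topOf : P → Tops P) z y s := ⟨S.lz, S.huc, S.hk⟩
  obtain ⟨q, hq⟩ := card_eq_one.1 S.cv
  rw [So.up_eq] at h5
  have h6 : (lv P i).filter (fun p => z < p) ⊆ uc (x 1) ∪ uc q := by
    intro p hp
    rw [mem_filter, mem_lv] at hp
    obtain ⟨b, hb, hp2⟩ := (hD.mem0 H).1 hp
    rw [hy, hq, mem_union, mem_insert, mem_singleton, mem_singleton] at hb
    rw [mem_union]
    rcases hb with (rfl | rfl) | rfl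
    · left
      -- the upper cover of the fold end
      have h7 := D.W.up 0 1 (by omega) (by omega)
      rw [if_pos rfl] at h7
      unfold ucv at h7
      obtain ⟨u, hu⟩ := card_pos.1 (by rw [h7]; norm_num)
      rw [mem_filter] at hu
      obtain ⟨u', hu'⟩ := card_eq_one.1 hu0
      have h8 := mem_uc.2 hu.2.1
      rw [hu', mem_singleton] at h8 hp2
      rw [hp2, ← h8]
      exact mem_uc.2 hu.2.2
    · exact Or.inl hp2
    · exact Or.inr hp2
  have h7 := card_le_card h6
  have h8 := card_union_le (uc (x 1)) (uc q)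
  have h9 := uc_card_le H (x 1)
  have h10 := uc_card_le H q
  omega

end Pool.Agent.GaussPoset.EK
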