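import Pool.Agent.W_448fw_h5.FwS
import Pool.Agent.W_448kf_h15.KfJ
import Pool.Agent.W_448six_h74.SkF

/-!
MP_448cb3_co, G2, case B, window `j`: a row with two stars at a fold end: the coordinates, one upper
pendant over the first pair (the arguments of helper53 `FgB`, `FgH`).  helper74.
-/

namespace Pool.Agent.GaussPoset.EK

set_option linter.unusedSectionVars false

open Finset Win St Polynomial Wd Win.W4
open Pool.Agent.GaussPoset.Win.SO (PN vp mem_PN)
open Pool.Agent.GaussPoset.Win.Si (DLt)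

universe u

variable {P : Type u} [Fintype P] [PartialOrder P] [DecidableEq P] {r i j : ℕ}

variable {m : ℕ} {x : ℕ → P} {c : ℕ → ℤ} {β : ℤ} {t : Tops P} {lo hi : ℕ → ℕ} {e : ℕ → ℕ → P}

section fold

variable (h : NJ P r (i + 1)) (hi1 : 1 ≤ i) (B : RowB P (i + 1) t m x c β) (hm : 5 ≤ m)
  (C : Cp.Comp (i + 1) (t : P) lo hi e) (S : StairShape (i + 1) lo hi) (ev : (i + 1) % 2 = 0)
  (hx : x 0 = e (i + 1) ((i + 1) / 2))

include h hi1 B hm C S ev hx

/-- coordinates -/
lemma six_coord : hi i + 1 = hi (i + 1) ∧ hi (i + 1) = lo (i + 1) + m ∧ lo i ≤ lo (i + 1) ∧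
    lo (i + 1) ≤ lo i + 1 ∧ ∀ k, k ≤ m → x k = e (i + 1) (hi (i + 1) - k) := by
  have hj : 2 ≤ i + 1 := by omega
  have h1 := S.hi (i + 1) le_rfl
  have h2 := S.hi i (by omega)
  have h3 := C.lo_step i (by omega)
  obtain ⟨h4, h5⟩ := B.orient h hj C
  refine ⟨by omega, h4, by omega, by omega, ?_⟩
  rcases h5 with h5 | h5
  · exfalso
    have h6 := h5 0 (by omega)
    rw [hx, ← h1] at h6
    have := C.inj (i + 1) _ _ le_rfl (by omega) le_rfl (by omega) (by omega) h6
    omega
  · exact h5

/-- the fold end has one upper cover -/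
lemma six_uc0 : (uc (x 0)).card = 1 := by
  obtain ⟨f1, f2, f3, f4, hor⟩ := six_coord h hi1 B hm C S ev hx
  have hl : lev (x 0) = i + 1 := B.row.lev_x 0 (by omega)
  rcases uc_card_cases h.g.H (x := x 0) (by omega) with h1 | h1
  · exact h1
  · exfalso
    have h6 := C.double_up h.g.H h.g.good t.2 (k := i) (s := hi (i + 1)) (by omega)
      (by omega) (by omega)
    have h7 := hor 0 (by omega)
    rw [Nat.sub_zero] at h7
    rw [h7] at h1
    have := h6.1 h1
    omega

/-- one upper pendant over the first pair -/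
lemma six_UE0 : (UE (i + 1) (cext (i + 1 + 1) (topOf : P → Tops P) t) x 0).card = 1 := by
  classical
  obtain ⟨f1, f2, f3, f4, hor⟩ := six_coord h hi1 B hm C S ev hx
  obtain ⟨n, hn⟩ : ∃ n, i = n + 1 := ⟨i - 1, by omega⟩
  subst hn
  have H := h.g.H
  have W := NJ.prow h (by omega) B (by omega)
  have g0 := S.hi n (by omega)
  have g1 := S.hi (n + 1) (by omega)
  have g2 := S.hi (n + 1 + 1) (by omega)
  have l0 := C.lo_le n (by omega)
  have l1 := C.lo_le (n + 1) (by omega)
  have l2 := C.lo_le (n + 1 + 1) (by omega)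
  have hx0 := hor 0 (by omega)
  have hx1 := hor 1 (by omega)
  rw [Nat.sub_zero] at hx0
  have c0 : x 0 ⋖ e (n + 1) (hi (n + 1)) := by
    rw [hx0]
    exact (C.cov (n + 1) _ _ (by omega) (by omega) (by omega) (by omega) (by omega)).2 (by omega)
  have c1 : x 1 ⋖ e (n + 1) (hi (n + 1)) := by
    rw [hx1]
    exact (C.cov (n + 1) _ _ (by omega) (by omega) (by omega) (by omega) (by omega)).2 (by omega)
  have c2 : e (n + 1) (hi (n + 1)) ⋖ e n (hi n) :=
    (C.cov n _ _ (by omega) (by omega) (by omega) (by omega) (by omega)).2 (by omega)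
  have hne : x 0 ≠ x 1 := W.ne (by omega) (by omega) (by omega)
  have hdu : dc (e (n + 1) (hi (n + 1))) = {x 0, x 1} := by
    refine (eq_of_subset_of_card_le ?_ ?_).symm
    · intro y hy
      rw [mem_insert, mem_singleton] at hy
      rcases hy with rfl | rfl
      · exact mem_dc.2 c0
      · exact mem_dc.2 c1
    · rw [card_pair hne]
      exact dc_card_le H _
  have hdz : (dc (e n (hi n))).card = 1 :=
    (C.single_down H (k := n) (by omega) (by omega) le_rfl).2 (by omega)
  obtain ⟨u, hu⟩ := card_eq_one.1 hdz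
  have huu : u = e (n + 1) (hi (n + 1)) := by
    have := mem_dc.2 c2
    rw [hu, mem_singleton] at this
    exact this.symm
  subst huu
  have hlz : lev (e n (hi n)) = n := C.lev_e n _ (by omega) (by omega) le_rfl
  have hzt : e n (hi n) ≤ (t : P) := C.le_t n _ (by omega) (by omega) le_rfl
  have hz : e n (hi n) ∈ UE (n + 1 + 1) (cext (n + 1 + 1 + 1) (topOf : P → Tops P) t) x 0 := by
    refine mem_UE.2 ⟨?_, mem_PU.2 ⟨by omega, hdz, _, c2, ?_⟩, ?_⟩
    · exact mem_cext_of_le h.split (by omega) (Hul.top_unique (h.nj (by omega)) (topOf _).2 t.2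
        (le_topOf _) hzt |> Subtype.ext)
    · rw [hdu, card_pair hne]
    · rw [SO.sit_PU H (by omega) hu, hdu]
      rfl
  have h1 := W.UE_one (i := n + 1 + 1) (C := cext (n + 1 + 1 + 1) (topOf : P → Tops P) t) 0
  have h2 := card_pos.2 ⟨_, hz⟩
  omega

end fold

end Pool.Agent.GaussPoset.EK
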