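import Pool.Agent.W_448six_h76.PqA
import Pool.Agent.W_448six_h74.SkE

/-!
MP_448cb3_co, G2, case B, windows `j - 1` and `j`: THE VALUE OF A ROW WITH TWO STARS, the weights of step 0
and the weights of the level eight.  Here `j = i + 1`.  helper74.
-/

namespace Pool.Agent.GaussPoset.EK

set_option linter.unusedSectionVars false

open Finset Win St Polynomial Wd Win.W4
open Pool.Agent.GaussPoset.Win.SO (PN vp mem_PN chc CQ)
open Pool.Agent.GaussPoset.Win.Si (DLt V2 T2)
open Pool.Agent.GaussPoset.Win.Pn (Wt own shr A3 B5 C6 C8 C10 F2 F3 F4 F6)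

universe u

variable {P : Type u} [Fintype P] [PartialOrder P] [DecidableEq P] {r i j : ℕ}

variable {m : ℕ} {x : ℕ → P} {c : ℕ → ℤ} {β : ℤ} {t : Tops P} {lo hi : ℕ → ℕ} {e : ℕ → ℕ → P}

variable {K : Finset P} {psi : P → P}

/-- the weights of step 0 -/
def w0 : Wt := ⟨-1, 9, 1, 4, 3, -1, 2, 14, 2⟩

/-- the weights of step 0 at the level eight -/
def w8 : Wt := ⟨-1, 7, 1, 2, 1, 1, 1, 6, 2⟩

lemma own2_w0 (j : ℕ) (t : Tops P) :
    own2 w0 j t = V2 j (cext (j + 1) (topOf : P → Tops P) t) := by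
  have e1 : F2 j t = I2.al 2 (st j (cext (j + 1) (topOf : P → Tops P) t)).card
      (ZS j (cext (j + 1) (topOf : P → Tops P) t)) := rfl
  have e2 : F2 j t + F4 j t = Lv j (cext (j + 1) (topOf : P → Tops P) t) := rfl
  have e3 : F3 j t = I2.w3 (st j (cext (j + 1) (topOf : P → Tops P) t)).card
      (ZS j (cext (j + 1) (topOf : P → Tops P) t)) := rfl
  have e4 : F6 j t = I2.w3 (st j (cext (j + 1) (topOf : P → Tops P) t)).card
      (ZS j (cext (j + 1) (topOf : P → Tops P) t)) ^ 2 -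
      2 * I2.w6 (st j (cext (j + 1) (topOf : P → Tops P) t)).card
      (ZS j (cext (j + 1) (topOf : P → Tops P) t)) := rfl
  unfold own2 w0 V2
  rw [← e2, ← e1, ← e4, ← e3]
  ring

lemma own2_w8 (j : ℕ) (t : Tops P) :
    own2 w8 j t = T2 j (cext (j + 1) (topOf : P → Tops P) t) := by
  have e2 : F2 j t + F4 j t = Lv j (cext (j + 1) (topOf : P → Tops P) t) := rfl
  have e3 : F3 j t = I2.w3 (st j (cext (j + 1) (topOf : P → Tops P) t)).card
      (ZS j (cext (j + 1) (topOf : P → Tops P) t)) := rfl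
  have e4 : F6 j t = I2.w3 (st j (cext (j + 1) (topOf : P → Tops P) t)).card
      (ZS j (cext (j + 1) (topOf : P → Tops P) t)) ^ 2 -
      2 * I2.w6 (st j (cext (j + 1) (topOf : P → Tops P) t)).card
      (ZS j (cext (j + 1) (topOf : P → Tops P) t)) := rfl
  unfold own2 w8 T2
  rw [← e2, ← e4, ← e3]
  ring

/-- the value with the shares -/
noncomputable def UU (W : Wt) (i : ℕ) (t : Tops P) : ℤ :=
  2 * own W i (i + 1) t + ∑ p ∈ (PD P i).filter (fun p => (topOf p : Tops P) = t), shr W i p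

section row

variable (h : NJ P r (i + 1)) (hi1 : 1 ≤ i) (B : RowB P (i + 1) t m x c β) (hp : Pat6 m c β)

include h B hp

lemma UU_w0 : UU w0 i t =
    2 * (own1 w0 i t + V2 (i + 1) (cext (i + 1 + 1) (topOf : P → Tops P) t)) := by
  unfold UU
  rw [NJ.shr6 h rfl B hp w0, own_eq, own2_w0]
  ring

lemma UU_w8 : UU w8 i t =
    2 * (own1 w8 i t + T2 (i + 1) (cext (i + 1 + 1) (topOf : P → Tops P) t)) := by
  unfold UU
  rw [NJ.shr6 h rfl B hp w8, own_eq, own2_w8]
  ring

include hi1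

/-- the pendants over the full edges, both ends closed -/
lemma six_sum_two (h0 : (uc (x 0)).card = 2) (h1 : (uc (x m)).card = 2) :
    ∑ k ∈ range m, NE (i + 1) (cext (i + 1 + 1) (topOf : P → Tops P) t) x k ≤
      ∑ k ∈ Ed x m, ((DE (i + 1) (cext (i + 1 + 1) (topOf : P → Tops P) t) x k).card : ℤ) := by
  have hm := hp.1
  have W := NJ.prow h (by omega) B (by omega)
  have hE : Ed x m = range m := by
    ext k
    rw [Wd.mem_Ed, mem_range]
    constructor
    · exact fun h => h.1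
    · intro hk
      refine ⟨hk, ?_, ?_⟩
      · rcases Nat.eq_zero_or_pos k with h2 | h2
        · rw [h2]
          exact h0
        · exact W.uc_inner h2 hk
      · rcases Nat.eq_or_lt_of_le (show k + 1 ≤ m by omega) with h2 | h2
        · rw [h2]
          exact h1
        · exact W.uc_inner (by omega) h2
  rw [hE]
  refine sum_le_sum fun k _ => ?_
  unfold NE
  have : (0 : ℤ) ≤ ((UE (i + 1) (cext (i + 1 + 1) (topOf : P → Tops P) t) x k).card : ℤ) := by
    positivity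
  linarith

/-- the pendants over the full edges, the right end closed -/
lemma six_sum_one (h1 : (uc (x m)).card = 2) :
    ∑ k ∈ range m, NE (i + 1) (cext (i + 1 + 1) (topOf : P → Tops P) t) x k -
      NE (i + 1) (cext (i + 1 + 1) (topOf : P → Tops P) t) x 0 ≤
      ∑ k ∈ Ed x m, ((DE (i + 1) (cext (i + 1 + 1) (topOf : P → Tops P) t) x k).card : ℤ) := by
  have hm := hp.1
  have W := NJ.prow h (by omega) B (by omega)
  have hE : Ico 1 m ⊆ Ed x m := by
    intro k hk
    rw [mem_Ico] at hk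
    rw [Wd.mem_Ed]
    refine ⟨hk.2, W.uc_inner (by omega) hk.2, ?_⟩
    rcases Nat.eq_or_lt_of_le (show k + 1 ≤ m by omega) with h2 | h2
    · rw [h2]
      exact h1
    · exact W.uc_inner (by omega) h2
  have e1 : ∑ k ∈ range m, NE (i + 1) (cext (i + 1 + 1) (topOf : P → Tops P) t) x k -
      NE (i + 1) (cext (i + 1 + 1) (topOf : P → Tops P) t) x 0 =
      ∑ k ∈ Ico 1 m, NE (i + 1) (cext (i + 1 + 1) (topOf : P → Tops P) t) x k := by
    rw [range_eq_Ico, sum_eq_sum_Ico_succ_bot (by omega)]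
    ring
  rw [e1]
  refine le_trans (sum_le_sum (g := fun k =>
    ((DE (i + 1) (cext (i + 1 + 1) (topOf : P → Tops P) t) x k).card : ℤ)) fun k _ => ?_)
    (sum_le_sum_of_subset_of_nonneg hE fun k _ _ => by positivity)
  unfold NE
  have : (0 : ℤ) ≤ ((UE (i + 1) (cext (i + 1 + 1) (topOf : P → Tops P) t) x k).card : ℤ) := by
    positivity
  linarith

/-- STEP 0, both ends closed -/
theorem six_closed (h0 : (uc (x 0)).card = 2) (h1 : (uc (x m)).card = 2) :
    0 < UU w0 i t ∨ (0 ≤ UU w0 i t ∧ F3 (i + 1) t ≠ 0) := by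
  obtain ⟨K, psi, R⟩ := exists_red P (i + 1)
  obtain ⟨w, v, w', v', T⟩ := Si.NJ_two h (by omega) R B hp
  have h2 := NJ.own6_two h rfl hi1 B hp w0 rfl rfl h0 h1
  have h3 := six_sum_two h hi1 B hp h0 h1
  have h4 : (0 : ℤ) ≤ ∑ w ∈ CQ i (SS i t), ((chc i (SS i t) w).card : ℤ) :=
    sum_nonneg fun _ _ => by positivity
  have h5 : (0 : ℤ) ≤ if m = 5 then 2 else 0 := by split_ifs <;> norm_num
  rw [UU_w0 h B hp]
  rcases T.V2_closed h0 h1 (A := own1 w0 i t) (by linarith) with h6 | ⟨h6, h7⟩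
  · left
    linarith
  · right
    exact ⟨by linarith, h7⟩

/-- STEP 0, the left end is a fold end -/
theorem six_fold (R : Red P (i + 1) K psi) (h0 : (uc (x 0)).card = 1) (h1 : (uc (x m)).card = 2)
    (hU : (UE (i + 1) (cext (i + 1 + 1) (topOf : P → Tops P) t) x 0).card = 1) :
    0 < UU w0 i t ∨ (0 ≤ UU w0 i t ∧ F3 (i + 1) t ≠ 0) ∨
      (-8 < UU w0 i t ∧ ∃ z y v : P, K2.SD (i + 1) (topOf : P → Tops P) z y v ∧ topOf y = t ∧
        sa (i + 1) (topOf : P → Tops P) K (uc y) (topOf y) = 0 ∧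
        z ∉ So.N5s i (topOf : P → Tops P)) := by
  classical
  obtain ⟨w, v, w', v', T⟩ := Si.NJ_two h (by omega) R B hp
  have h2 := NJ.own6_one h rfl hi1 B hp w0 rfl rfl rfl (Or.inr ⟨h0, h1⟩)
  have h3 := six_sum_one h hi1 B hp h1
  have h4 : (0 : ℤ) ≤ ∑ w ∈ CQ i (SS i t), ((chc i (SS i t) w).card : ℤ) :=
    sum_nonneg fun _ _ => by positivity
  have h5 : (0 : ℤ) ≤ if m = 5 then 2 else 0 := by split_ifs <;> norm_num
  obtain ⟨g1, g2⟩ := T.V2_fold h0 h1 hU (A := own1 w0 i t) (by linarith)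
  rw [UU_w0 h B hp]
  by_cases hD : DE (i + 1) (cext (i + 1 + 1) (topOf : P → Tops P) t) x 0 = ∅
  · rcases g2 hD with h6 | ⟨h6, h7⟩
    · left
      linarith
    · right; left
      exact ⟨by linarith, h7⟩
  · right; right
    obtain ⟨z, y, s, S, ty, uy⟩ := six_light h hi1 B T (nonempty_iff_ne_empty.2 hD)
    refine ⟨by linarith, z, y, s, S, ty, ?_, six_N5s h.g.H T h0 S uy⟩
    rw [uy, ty]
    exact six_sa h R T

/-- the level eight, both ends closed -/
theorem six_eight (h0 : (uc (x 0)).card = 2) (h1 : (uc (x m)).card = 2) : 8 ≤ UU w8 i t := by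
  obtain ⟨K, psi, R⟩ := exists_red P (i + 1)
  obtain ⟨w, v, w', v', T⟩ := Si.NJ_two h (by omega) R B hp
  have h2 := NJ.own6_two h rfl hi1 B hp w8 rfl rfl h0 h1
  have h4 : (0 : ℤ) ≤ ∑ w ∈ CQ i (SS i t), ((chc i (SS i t) w).card : ℤ) :=
    sum_nonneg fun _ _ => by positivity
  have h5 : (0 : ℤ) ≤ if m = 5 then 2 else 0 := by split_ifs <;> norm_num
  have h6 : (0 : ℤ) ≤ ∑ k ∈ Ed x m,
      ((DE (i + 1) (cext (i + 1 + 1) (topOf : P → Tops P) t) x k).card : ℤ) :=
    sum_nonneg fun _ _ => by positivity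
  have h7 := T.T2_closed h0 h1
  rw [UU_w8 h B hp]
  linarith

end row

end Pool.Agent.GaussPoset.EK
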