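import Pool.Agent.W_448fin_h16.FnS
import Pool.Agent.W_448six_h74.SkG

/-!
MP_448cb3_co, G2, case B: THE ENDS of a row with two stars: closed, or one fold end.  helper74.
-/

namespace Pool.Agent.GaussPoset.EK

set_option linter.unusedSectionVars false

open Finset Win St Polynomial Wd Win.W4

universe u

variable {P : Type u} [Fintype P] [PartialOrder P] [DecidableEq P] {r i j : ℕ}

variable {m : ℕ} {x : ℕ → P} {c : ℕ → ℤ} {β : ℤ} {t : Tops P}

variable {K : Finset P} {psi : P → P}

/-- THE ENDS of a row with two stars -/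
theorem CB.six_ends (hC : HCCu P) (h : CB P r j) (hj : 2 ≤ j)
    {lo hi : Tops P → ℕ → ℕ} {e : Tops P → ℕ → ℕ → P}
    (C : ∀ t : Tops P, Cp.Comp j (t : P) (lo t) (hi t) (e t))
    (hS : ∀ t : Tops P, Shape j (lo t) (hi t)) (B : RowB P j t m x c β) (hp : Pat6 m c β) :
    ((uc (x 0)).card = 2 ∨ (StairShape j (lo t) (hi t) ∧ j % 2 = 0 ∧ x 0 = e t j (j / 2))) ∧
    ((uc (x m)).card = 2 ∨ (StairShape j (lo t) (hi t) ∧ j % 2 = 0 ∧ x m = e t j (j / 2))) := by
  have hn := h.nj
  have h5 := hp.1
  constructor
  · rcases CB.shape2 hC h hj C hS B (by omega) with ⟨g1, -⟩ | ⟨a, L⟩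
    · exact g1 hp.2.2.1
    · have := LateC.len hn hj L (C t) B
      omega
  · have hp' := Si.Pat6_rev hp
    rcases CB.shape2 hC h hj C hS B.rev (by omega) with ⟨g1, -⟩ | ⟨a, L⟩
    · exact g1 hp'.2.2.1
    · have := LateC.len hn hj L (C t) B
      omega

/-- THE ENDS of a row with two stars at a level below ten -/
theorem CB.six_ends8 (h : CB P r j) (hj : 2 ≤ j) (h10 : j < 10)
    (B : RowB P j t m x c β) (hp : Pat6 m c β) :
    (uc (x 0)).card = 2 ∧ (uc (x m)).card = 2 := by
  classical
  have hn := h.nj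
  obtain ⟨lo, hi, e, C, hS⟩ := hsh (P := P) r j hn.g
  have key : ∀ (x : ℕ → P) (c : ℕ → ℤ), RowB P j t m x c β → Pat6 m c β →
      (uc (x 0)).card = 2 := by
    intro x c B hp
    have h5 := hp.1
    have hdd : dcv (x 0) (x 1) = 2 := by
      have e1 := B.dcv_eq hn (a := 0) (b := 1) (by omega) (by omega)
      rw [if_pos rfl, if_neg (by omega), hp.2.2.1] at e1
      have : (dcv (x 0) (x 1) : ℤ) = 2 := by linarith
      exact_mod_cast this
    have hone : (uc (x 0)).card ≠ 2 → (uc (x 0)).card = 1 := by
      intro h2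
      have W := NJ.prow hn hj B (by omega)
      rcases W.uc_le (k := 0) (by omega) with h1 | h1
      · exact h1
      · exact absurd h1 h2
    have hx0t : x 0 ≤ (t : P) := by
      rw [← B.row.kap 0 (by omega)]
      exact le_topOf (x 0)
    have hx0 := B.row.lev_x 0 (by omega)
    obtain ⟨hlen, hor⟩ := B.orient hn hj (C t)
    rcases hS t with g1 | ⟨g1, S'⟩ | ⟨g1, S⟩ | ⟨g1, g2, g3⟩ | ⟨g1, g2⟩ |
      ⟨a, g0, g1, g2, g3, hN, g4⟩
    · exfalso
      have := g1 j le_rfl
      omega
    · by_contra h2
      have h3 := NJ_rect_S_end hn hj C hS (t := t) (x := x 0) (x' := x 1) (by omega) hx0 hx0t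
        (hone h2) (fun q => by
          have := B.row.inj 0 1 (by omega) (by omega) q
          omega)
      rw [hdd] at h3
      omega
    · exfalso
      have := S.hi j le_rfl
      omega
    · exfalso
      subst g1
      omega
    · subst g1
      exact absurd g2 (NJ_no_six hn C hS t)
    · exfalso
      have Ct := C t
      have L : LateC j a (lo t) (hi t) := by
        refine ⟨g0, g1, g2, g3, ?_⟩
        have hstep : ∀ k, k < a + (j - a) → lo t k ≤ lo t (k + 1) ∧
            lo t (k + 1) ≤ lo t k + 1 := by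
          intro k hk
          have := Ct.lo_step k (by omega)
          omega
        have hstep' : ∀ k, k < a + (j - a) → hi t k ≤ hi t (k + 1) ∧
            hi t (k + 1) ≤ hi t k + 1 := by
          intro k hk
          have := Ct.hi_step k (by omega)
          omega
        exact late_wide g3 hstep hstep' g4 (by rw [show a + (j - a) = j by omega]; omega)
      have := LateC.len hn hj L Ct B
      omega
  refine ⟨key x c B hp, ?_⟩
  exact key _ _ B.rev (Si.Pat6_rev hp)

end Pool.Agent.GaussPoset.EK
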