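import Pool.Agent.W_448st0_h96.SzB
import Pool.Agent.W_448six_h74.SkH

/-!
MP_448cb3_co, G2, case B: THE LEAF `HSixQ` OF STEP 0.  helper74.
-/

namespace Pool.Agent.GaussPoset.EK

set_option linter.unusedSectionVars false

open Finset Win St Polynomial Wd Win.W4

universe u

variable {P : Type u} [Fintype P] [PartialOrder P] [DecidableEq P] {r i j : ℕ}

variable {m : ℕ} {x : ℕ → P} {c : ℕ → ℤ} {β : ℤ} {t : Tops P}

variable {K : Finset P} {psi : P → P}

lemma Ut_UU (i : ℕ) (t : Tops P) : Ut i t = UU w0 i t := rfl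

/-- THE LEAF OF THE ROWS WITH TWO STARS -/
theorem hsixq : HSixQ P := by
  intro r i K psi t m x c β lo hi e h5 h8 hC hT h R C hS B hp
  have hn := h.nj
  have hi1 : 1 ≤ i := by omega
  have hm := hp.1
  rw [Ut_UU]
  obtain ⟨g0, g1⟩ := CB.six_ends hC h (by omega) C hS B hp
  rcases g0 with g0 | ⟨S, ev, hx⟩
  · rcases g1 with g1 | ⟨S, ev, hx⟩
    · rcases six_closed hn hi1 B hp g0 g1 with q | q
      · exact Or.inl q
      · exact Or.inr (Or.inl q)
    · have B' := B.rev
      have hp' := Si.Pat6_rev hp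
      have u0 := six_uc0 hn hi1 B' hm (C t) S ev hx
      have uE := six_UE0 hn hi1 B' hm (C t) S ev hx
      exact six_fold hn hi1 B' hp' R u0 (by
        show (uc (x (m - m))).card = 2
        rwa [Nat.sub_self]) uE
  · have u0 := six_uc0 hn hi1 B hm (C t) S ev hx
    have uE := six_UE0 hn hi1 B hm (C t) S ev hx
    rcases g1 with g1 | ⟨-, -, hx'⟩
    · exact six_fold hn hi1 B hp R u0 g1 uE
    · exfalso
      have := B.row.inj 0 m (by omega) le_rfl (hx.trans hx'.symm)
      omega

end Pool.Agent.GaussPoset.EK
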