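import Pool.Agent.W_448j6_h22.KbI
import Pool.Agent.W_448six_h74.SkH

/-!
MP_448cb3_co, G2, case B: the functional of a row with two stars at an odd level.  helper74.
-/

namespace Pool.Agent.GaussPoset.EK

set_option linter.unusedSectionVars false

open Finset Win St Polynomial Wd Win.W4

universe u

variable {P : Type u} [Fintype P] [PartialOrder P] [DecidableEq P] {r i j : ℕ}

variable {m : ℕ} {x : ℕ → P} {c : ℕ → ℤ} {β : ℤ} {t : Tops P}

variable {K : Finset P} {psi : P → P}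

/-- no pendant below a row with two stars -/
theorem NJ.six_pen (h : NJ P r j) (hj : 2 ≤ j) (B : RowB P j t m x c β) (hp : Pat6 m c β) {k : ℕ}
    (hk : k ≤ m) : pen (x k) = ∅ := by
  obtain ⟨K, psi, R⟩ := exists_red P j
  obtain ⟨w, v, w', v', T⟩ := Si.NJ_two h hj R B hp
  exact T.pen_zero hk

/-- both ends closed: `0 ≤ TT` -/
theorem NJ.six_TT (h : NJ P r j) (hj : 2 ≤ j) (B : RowB P j t m x c β) (hp : Pat6 m c β)
    (h0 : (uc (x 0)).card = 2) (h1 : (uc (x m)).card = 2) : 0 ≤ TT j t := by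
  obtain ⟨K, psi, R⟩ := exists_red P j
  obtain ⟨w, v, w', v', T⟩ := Si.NJ_two h hj R B hp
  have h2 := T.T2_closed h0 h1
  have e : TT j t = Si.T2 j (cext (j + 1) (topOf : P → Tops P) t) := by
    have e2 : Lv j (cext (j + 1) (topOf : P → Tops P) t) =
      I2.al 2 (I2.bb j (j + 1) (topOf : P → Tops P) t) (I2.VV j (j + 1) (topOf : P → Tops P) t) +
      I2.Q4 (I2.bb j (j + 1) (topOf : P → Tops P) t) (I2.VV j (j + 1) (topOf : P → Tops P) t) := rfl
    unfold TT Si.T2
    rw [e2]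
    rfl
  rw [e]
  exact h2

/-- odd levels: `0 ≤ TT` -/
theorem CB.six_TT (hC : HCCu P) (h : CB P r j) (hj : 2 ≤ j)
    {lo hi : Tops P → ℕ → ℕ} {e : Tops P → ℕ → ℕ → P}
    (C : ∀ t : Tops P, Cp.Comp j (t : P) (lo t) (hi t) (e t))
    (hS : ∀ t : Tops P, Shape j (lo t) (hi t)) (B : RowB P j t m x c β) (hp : Pat6 m c β)
    (ho : j % 2 = 1) : 0 ≤ TT j t := by
  obtain ⟨g0, g1⟩ := CB.six_ends hC h hj C hS B hp
  have h0 : (uc (x 0)).card = 2 := by
    rcases g0 with g | ⟨-, g, -⟩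
    · exact g
    · omega
  have h1 : (uc (x m)).card = 2 := by
    rcases g1 with g | ⟨-, g, -⟩
    · exact g
    · omega
  exact NJ.six_TT h.nj hj B hp h0 h1

end Pool.Agent.GaussPoset.EK
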