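import Pool.Agent.W_448st0_h96.SzC
import Pool.Agent.W_448six_h74.SkI
import Pool.Agent.W_448six_h74.SkK

/-!
MP_448cb3_co, G2, case B, step 0 at the level 13: a row with two stars, weights `5 W1 + 4 TT`.
helper74.
-/

namespace Pool.Agent.GaussPoset.EK

set_option linter.unusedSectionVars false

open Finset Win St Polynomial Wd Win.W4

universe u

variable {P : Type u} [Fintype P] [PartialOrder P] [DecidableEq P] {r i j : ℕ}

variable {m : ℕ} {x : ℕ → P} {c : ℕ → ℤ} {β : ℤ} {t : Tops P}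

variable {K : Finset P} {psi : P → P} {Y V : P → P}

/-- a part with two stars pays nothing -/
theorem NJ.pay_six (h : NJ P r (i + 1)) (hi1 : 1 ≤ i) (R : Red P (i + 1) K psi)
    (hY : YW (i + 1) Y V) (B : RowB P (i + 1) t m x c β) (hp : Pat6 m c β) :
    PA (i + 1) K Y V t = 0 ∧ PC (i + 1) K Y V t = 0 :=
  NJ.pay_zero h hi1 R hY B (Or.inr hp.2.1) fun q hq hn => by
    rw [NJ.six_pen h (by omega) B hp hq] at hn
    exact absurd hn Finset.not_nonempty_empty

/-- A PART WITH TWO STARS at an odd level, weights `5 W1 + 4 TT` -/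
theorem CB.six13 (hC : HCCu P) (hT : HTail P) (h : CB P r (i + 1)) (h5 : 5 ≤ i + 1)
    (ho : (i + 1) % 2 = 1) (R : Red P (i + 1) K psi) (hY : YW (i + 1) Y V)
    {lo hi : Tops P → ℕ → ℕ} {e : Tops P → ℕ → ℕ → P}
    (C : ∀ t : Tops P, Cp.Comp (i + 1) (t : P) (lo t) (hi t) (e t))
    (hS : ∀ t : Tops P, Shape (i + 1) (lo t) (hi t)) (B : RowB P (i + 1) t m x c β)
    (hp : Pat6 m c β) :
    0 < 5 * Ut i t + 8 * TT (i + 1) t - 16 * (PA (i + 1) K Y V t + PC (i + 1) K Y V t) ∨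
      (0 ≤ 5 * Ut i t + 8 * TT (i + 1) t - 16 * (PA (i + 1) K Y V t + PC (i + 1) K Y V t) ∧
        v3 (i + 1) t ≠ 0) ∨
      (-40 < 5 * Ut i t + 8 * TT (i + 1) t - 16 * (PA (i + 1) K Y V t + PC (i + 1) K Y V t) ∧
        LightJ i K t) := by
  obtain ⟨p1, p2⟩ := NJ.pay_six h.nj (by omega) R hY B hp
  have h1 := CB.six_TT hC h (by omega) C hS B hp ho
  rw [p1, p2]
  rcases hsixq r i K psi t m x c β lo hi e h5 (by omega) hC hT h R C hS B hp with
    h2 | ⟨h2, h3⟩ | ⟨h2, h3⟩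
  · left
    linarith
  · right
    left
    exact ⟨by linarith, h3⟩
  · right
    right
    exact ⟨by linarith, h3⟩

end Pool.Agent.GaussPoset.EK
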