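import Pool.Agent.W_448p_h97.PbQ

/-!
MP_448cb3_co, G2, case B, window `j`, rows with two stars and few sites: evaluation of products of near
elements by lists of monomials.  helper74.
-/

namespace Pool.Agent.GaussPoset.Win.Si

set_option linter.unusedSectionVars false

open Finset W4 Pa Pb
open Pool.Agent.GaussPoset.Win.So (IV IV_chi IV_Fe)

universe u

/-- a monomial: the powers of `dd` and `xi`, the killed sites below and above the window -/
structure Mo where
  p : ℕ
  s : ℕ
  a : Finset ℕ
  b : Finset ℕ
deriving DecidableEq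

/-- product -/
def Mo.mul (t t' : Mo) : Mo := ⟨t.p + t'.p, t.s + t'.s, t.a ∪ t'.a, t.b ∪ t'.b⟩

/-- the coefficient of order two -/
def Mo.val (t : Mo) : ℤ :=
  if Disjoint t.a t.b then
    (if t.a.card + t.b.card = t.p + 3 then (-1) ^ (t.a.card + t.s) * ((t.s : ℤ) - t.a.card)
    else if t.a.card + t.b.card = t.p + 2 then (-1) ^ (t.a.card + t.s) else 0)
  else 0

/-- the monomial lives on the sites `0, ..., m` and has at most three deficits -/
def Mo.ok (m : ℕ) (t : Mo) : Prop :=
  t.a ⊆ range (m + 1) ∧ t.b ⊆ range (m + 1) ∧ (Disjoint t.a t.b → t.a.card + t.b.card ≤ t.p + 3)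

instance (m : ℕ) (t : Mo) : Decidable (t.ok m) := by unfold Mo.ok; infer_instance

/-- products of two lists -/
def mulL (L L' : List Mo) : List Mo := L.flatMap fun t => L'.map fun t' => t.mul t'

/-- products of two entries of a list -/
def prL : List Mo → List Mo
  | [] => []
  | t :: l => l.map (fun t' => t.mul t') ++ prL l

/-- the value of a list -/
def valL (L : List Mo) : ℤ := (L.map Mo.val).sum

variable {P : Type u} [Fintype P] [PartialOrder P] [DecidableEq P] {r i : ℕ}
variable {x : ℕ → P} {m : ℕ}

/-- the function of a monomial -/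
noncomputable def Mo.ev (x : ℕ → P) (t : Mo) (S : Finset P) : A :=
  dd ^ t.p * xi ^ t.s * chi (t.a.image x) (t.b.image x) S

/-- the function of a list -/
noncomputable def evL (x : ℕ → P) (L : List Mo) (S : Finset P) : A :=
  (L.map fun t => t.ev x S).sum

lemma ev_mul (t t' : Mo) (S : Finset P) : (t.mul t').ev x S = t.ev x S * t'.ev x S := by
  unfold Mo.ev Mo.mul
  simp only
  rw [image_union, image_union, ← chi_mul, pow_add, pow_add]
  ring

lemma evL_nil (S : Finset P) : evL x [] S = 0 := rfl

lemma evL_cons (t : Mo) (L : List Mo) (S : Finset P) :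
    evL x (t :: L) S = t.ev x S + evL x L S := by
  unfold evL; simp

lemma evL_append (L L' : List Mo) (S : Finset P) :
    evL x (L ++ L') S = evL x L S + evL x L' S := by
  unfold evL; simp

lemma evL_map_mul (t : Mo) (L : List Mo) (S : Finset P) :
    evL x (L.map fun t' => t.mul t') S = t.ev x S * evL x L S := by
  induction L with
  | nil => simp [evL_nil]
  | cons a l ih => rw [List.map_cons, evL_cons, evL_cons, ih, ev_mul]; ring

lemma evL_mul (L L' : List Mo) (S : Finset P) :
    evL x (mulL L L') S = evL x L S * evL x L' S := by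
  induction L with
  | nil => simp [mulL, evL_nil]
  | cons a l ih =>
    have h : mulL (a :: l) L' = (L'.map fun t' => a.mul t') ++ mulL l L' := rfl
    rw [h, evL_append, evL_map_mul, evL_cons, ih]
    ring

/-! ### coefficients -/

lemma co1_mul (f g : A) : PowerSeries.coeff 1 (f * g) =
    PowerSeries.constantCoeff f * PowerSeries.coeff 1 g +
      PowerSeries.coeff 1 f * PowerSeries.constantCoeff g := by
  rw [PowerSeries.coeff_mul, Finset.Nat.antidiagonal_succ]
  simp

lemma co1_pow (f : A) (hf : PowerSeries.constantCoeff f = -1) (n : ℕ) :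
    PowerSeries.constantCoeff (f ^ n) = (-1) ^ n ∧
      PowerSeries.coeff 1 (f ^ n) = - ((-1) ^ n * (n : ℤ)) * PowerSeries.coeff 1 f := by
  induction n with
  | zero => simp
  | succ n ih =>
    refine ⟨by rw [map_pow, hf], ?_⟩
    rw [pow_succ, co1_mul, ih.1, ih.2, hf, pow_succ]
    push_cast
    ring

lemma co1_xx : PowerSeries.coeff 1 (xx : A) = 1 := by
  unfold xx dd
  rw [map_sub, PowerSeries.coeff_one_X, PowerSeries.coeff_one]
  norm_num

lemma co1_xi : PowerSeries.coeff 1 (xi : A) = -1 := by
  unfold xi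
  rw [map_neg, PowerSeries.coeff_mk]

/-- the coefficient of order two of a monomial -/
lemma lc_mono {b n k p s : ℕ} (hk : k ≤ b) (h3 : k ≤ p + 3) :
    lc b 2 (dd ^ p * xi ^ s * (xx ^ n * dd ^ (b - k))) =
      if k = p + 3 then (-1) ^ (n + s) * ((s : ℤ) - n)
      else if k = p + 2 then (-1) ^ (n + s) else 0 := by
  have h1 : (dd ^ 2 * (dd ^ p * xi ^ s * (xx ^ n * dd ^ (b - k))) : A) =
      PowerSeries.X ^ (2 + p + (b - k)) * (xi ^ s * xx ^ n) := by
    unfold dd
    ring
  unfold lc
  rw [h1, PowerSeries.coeff_X_pow_mul']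
  obtain ⟨a1, a2⟩ := co1_pow (xi : A) cc_xi s
  obtain ⟨b1, b2⟩ := co1_pow (xx : A) cc_xx n
  by_cases h : k = p + 3
  · rw [if_pos (by omega), if_pos h, show b - (2 + p + (b - k)) = 1 by omega, co1_mul, a1, a2, b1, b2,
      co1_xx, co1_xi, pow_add]
    ring
  · rw [if_neg h]
    by_cases h2 : k = p + 2
    · rw [if_pos (by omega), if_pos h2, show b - (2 + p + (b - k)) = 0 by omega,
        PowerSeries.coeff_zero_eq_constantCoeff_apply, map_mul, a1, b1, pow_add]
      ring
    · rw [if_neg (by omega), if_neg h2]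

variable (hx : ∀ k l, k ≤ m → l ≤ m → x k = x l → k = l)
include hx

lemma injOn_of {T : Finset ℕ} (hT : T ⊆ range (m + 1)) : Set.InjOn x T := by
  intro k hk l hl h
  have h1 := mem_range.1 (hT hk)
  have h2 := mem_range.1 (hT hl)
  exact hx k l (by omega) (by omega) h

lemma disj_image {S T : Finset ℕ} (hS : S ⊆ range (m + 1)) (hT : T ⊆ range (m + 1)) :
    Disjoint (S.image x) (T.image x) ↔ Disjoint S T := by
  rw [disjoint_left, disjoint_left]
  constructor
  · intro h k hk hk'
    exact h (mem_image_of_mem x hk) (mem_image_of_mem x hk')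
  · intro h y hy hy'
    rw [mem_image] at hy hy'
    obtain ⟨k, hk, rfl⟩ := hy
    obtain ⟨l, hl, h'⟩ := hy'
    have h1 := mem_range.1 (hS hk)
    have h2 := mem_range.1 (hT hl)
    have := hx l k (by omega) (by omega) h'
    subst this
    exact h hk hl

/-- THE VALUE of a monomial -/
lemma ev_val {V : Finset P} (hV : V = (range (m + 1)).image x) {t : Mo} (ht : t.ok m) :
    lc V.card 2 (IV V (t.ev x)) = t.val := by
  obtain ⟨h1, h2, h3⟩ := ht
  have hVc : V.card = m + 1 := by
    rw [hV, card_image_of_injOn (injOn_of hx Subset.rfl), card_range]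
  have hB : t.a.image x ⊆ V := by rw [hV]; exact image_subset_image h1
  have hD : t.b.image x ⊆ V := by rw [hV]; exact image_subset_image h2
  have e1 : IV V (t.ev x) = dd ^ t.p * xi ^ t.s * IV V (chi (t.a.image x) (t.b.image x)) :=
    IV_cmul _ _
  rw [e1, IV_chi hB hD]
  unfold Mo.val
  by_cases hd : Disjoint t.a t.b
  · rw [if_pos ((disj_image hx h1 h2).2 hd), if_pos hd]
    rw [card_image_of_injOn (injOn_of hx h1), card_image_of_injOn (injOn_of hx h2)]
    have hc : t.a.card + t.b.card ≤ V.card := by
      rw [← card_union_of_disjoint hd, hVc, ← card_range (m + 1)]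
      exact card_le_card (union_subset h1 h2)
    rw [Nat.sub_sub]
    exact lc_mono hc (h3 hd)
  · rw [if_neg (fun h => hd ((disj_image hx h1 h2).1 h)), if_neg hd, mul_zero, lc_zero]

/-- THE VALUE of a list -/
lemma evL_val {V : Finset P} (hV : V = (range (m + 1)).image x) {L : List Mo}
    (hL : ∀ t ∈ L, t.ok m) : lc V.card 2 (IV V (evL x L)) = valL L := by
  induction L with
  | nil =>
    have : IV V (evL x []) = 0 := by
      unfold IV
      refine sum_eq_zero fun S _ => ?_
      rw [evL_nil, mul_zero]
    rw [this, lc_zero]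
    rfl
  | cons a l ih =>
    have h1 : IV V (evL x (a :: l)) = IV V (a.ev x) + IV V (evL x l) := by
      rw [← IV_add2]
      rfl
    rw [h1, lc_add, ih fun t ht => hL t (List.mem_cons_of_mem _ ht),
      ev_val hx hV (hL a List.mem_cons_self)]
    unfold valL
    simp

end Pool.Agent.GaussPoset.Win.Si
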