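import Pool.Agent.W_448six_h74.SiA

/-!
MP_448cb3_co, G2, case B, window `j`, rows with two stars and few sites: the near elements of a component
and their labellings as lists of monomials.  helper74.
-/

namespace Pool.Agent.GaussPoset.Win.Si

set_option linter.unusedSectionVars false

open Finset W4 Pa Pb
open Pool.Agent.GaussPoset.Win.So (IV IV_chi IV_Fe)

universe u

/-- the monomial of a near element with label one: `b` for an element below the window, `I` its sites,
`Y` the sites with label one -/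
def wm (b : Bool) (I Y : Finset ℕ) : Mo :=
  if b then ⟨if Disjoint I Y then 1 else 0, 0, I \ Y, ∅⟩
  else ⟨if Disjoint I Y then 1 else 0, if Disjoint I Y then 1 else 0, ∅, I \ Y⟩

lemma wm_t (I Y : Finset ℕ) : wm true I Y = ⟨if Disjoint I Y then 1 else 0, 0, I \ Y, ∅⟩ := rfl

lemma wm_f (I Y : Finset ℕ) : wm false I Y =
    ⟨if Disjoint I Y then 1 else 0, if Disjoint I Y then 1 else 0, ∅, I \ Y⟩ := rfl

/-- sums of products of two entries -/
def prs {M : Type*} [Semiring M] : List M → M
  | [] => 0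
  | a :: l => a * l.sum + prs l

/-- coefficients of a product -/
lemma co_list {M : Type*} [CommRing M] (L : List (ℕ → M)) (h0 : ∀ f ∈ L, f 0 = 1) :
    PowerSeries.coeff 0 (L.map PowerSeries.mk).prod = 1 ∧
      PowerSeries.coeff 1 (L.map PowerSeries.mk).prod = (L.map fun f => f 1).sum ∧
      PowerSeries.coeff 2 (L.map PowerSeries.mk).prod =
        (L.map fun f => f 2).sum + prs (L.map fun f => f 1) := by
  induction L with
  | nil =>
    refine ⟨by simp, ?_, ?_⟩
    · simp [PowerSeries.coeff_one]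
    · simp [PowerSeries.coeff_one, prs]
  | cons f l ih =>
    obtain ⟨i0, i1, i2⟩ := ih fun g hg => h0 g (List.mem_cons_of_mem _ hg)
    have hf := h0 f List.mem_cons_self
    simp only [List.map_cons, List.prod_cons, List.sum_cons, PowerSeries.coeff_mul]
    refine ⟨?_, ?_, ?_⟩
    · rw [an0 (fun p : ℕ × ℕ => PowerSeries.coeff p.1 (PowerSeries.mk f) *
        PowerSeries.coeff p.2 (l.map PowerSeries.mk).prod)]
      simp only [PowerSeries.coeff_mk]
      rw [i0, hf, one_mul]
    · rw [an1 (fun p : ℕ × ℕ => PowerSeries.coeff p.1 (PowerSeries.mk f) *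
        PowerSeries.coeff p.2 (l.map PowerSeries.mk).prod)]
      simp only [PowerSeries.coeff_mk]
      rw [i0, i1, hf]
      ring
    · rw [an2 (fun p : ℕ × ℕ => PowerSeries.coeff p.1 (PowerSeries.mk f) *
        PowerSeries.coeff p.2 (l.map PowerSeries.mk).prod)]
      simp only [PowerSeries.coeff_mk]
      rw [i0, i1, i2, hf]
      simp only [prs]
      ring

variable {P : Type u} [Fintype P] [PartialOrder P] [DecidableEq P] {r i : ℕ}
variable {e f : P → ℕ} {psi : P → P} {C K : Finset P} {w v w' v' : P}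
variable {x : ℕ → P} {m : ℕ}

lemma prs_ev (L : List Mo) (S : Finset P) :
    prs (L.map fun t => t.ev x S) = evL x (prL L) S := by
  induction L with
  | nil => rfl
  | cons a l ih =>
    show a.ev x S * (l.map fun t => t.ev x S).sum + prs (l.map fun t => t.ev x S) =
      evL x ((l.map fun t' => a.mul t') ++ prL l) S
    rw [ih, evL_append, evL_map_mul]
    rfl

lemma kz_wm {y : P} {I Y : Finset ℕ} (hI : nz i y = I.image x) (hm : ∀ k ∈ I, k ≤ m)
    (he : ∀ k, k ≤ m → e (x k) = if k ∈ Y then 1 else 0) : kz i e y 1 = (I \ Y).image x := by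
  ext v
  rw [mem_kz, hI, mem_image, mem_image]
  constructor
  · rintro ⟨⟨k, hk, rfl⟩, h⟩
    refine ⟨k, mem_sdiff.2 ⟨hk, fun hY => ?_⟩, rfl⟩
    rw [he k (hm k hk), if_pos hY] at h
    omega
  · rintro ⟨k, hk, rfl⟩
    rw [mem_sdiff] at hk
    refine ⟨⟨k, hk.1, rfl⟩, ?_⟩
    rw [he k (hm k hk.1), if_neg hk.2]
    omega

lemma fz_wm {y : P} {I Y : Finset ℕ} (hI : nz i y = I.image x) (hm : ∀ k ∈ I, k ≤ m)
    (he : ∀ k, k ≤ m → e (x k) = if k ∈ Y then 1 else 0) :
    fz i e y 1 = if Disjoint I Y then (if lev y = i + 1 then dd else xi * dd) else 1 := by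
  unfold fz
  by_cases hd : Disjoint I Y
  · rw [if_pos hd, if_pos]
    rw [kz_eq_iff, hI]
    intro v hv
    obtain ⟨k, hk, rfl⟩ := mem_image.1 hv
    rw [he k (hm k hk), if_neg (disjoint_left.1 hd hk)]
    omega
  · rw [if_neg hd, if_neg]
    intro h
    rw [kz_eq_iff, hI] at h
    apply hd
    rw [disjoint_left]
    intro k hk hY
    have := h _ (mem_image_of_mem x hk)
    rw [he k (hm k hk), if_pos hY] at this
    omega

/-- THE MONOMIAL of a near element with label one -/
lemma wt_wm {y : P} (hy : y ∈ near P i) {I Y : Finset ℕ} (hI : nz i y = I.image x)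
    (hm : ∀ k ∈ I, k ≤ m) (he : ∀ k, k ≤ m → e (x k) = if k ∈ Y then 1 else 0) (S : Finset P) :
    wt i e y 1 S = (wm (decide (lev y = i + 1)) I Y).ev x S := by
  rcases mem_near.1 hy with h | h
  · rw [wt_low h, kz_wm hI hm he, fz_wm hI hm he, if_pos h, decide_eq_true h, wm_t]
    unfold Mo.ev
    simp only [image_empty, pow_zero, mul_one]
    split_ifs
    · rw [pow_one]
    · rw [pow_zero]
  · have h' : ¬ lev y = i + 1 := by omega
    rw [wt_upp h, kz_wm hI hm he, fz_wm hI hm he, if_neg h', decide_eq_false h', wm_f]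
    unfold Mo.ev
    simp only [image_empty]
    split_ifs
    · rw [pow_one, pow_one, mul_comm (xi : A) dd]
    · rw [pow_zero, pow_zero, one_mul, one_mul, one_mul]

/-- all labels of a near element without labelled sites are alike -/
lemma wt_pos {y : P} (hy : y ∈ near P i) (h0 : ∀ v ∈ nz i y, e v = 0) {a : ℕ} (ha : a ≠ 0)
    (S : Finset P) : wt i e y a S = wt i e y 1 S := by
  have hk : ∀ n, 1 ≤ n → kz i e y n = nz i y := by
    intro n hn
    rw [kz_eq_iff]
    intro v hv
    rw [h0 v hv]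
    omega
  have hf : ∀ n, 1 ≤ n → fz i e y n = if lev y = i + 1 then dd else xi * dd := by
    intro n hn
    unfold fz
    rw [if_pos (hk n hn)]
  have ha' : 1 ≤ a := by omega
  rcases mem_near.1 hy with h | h
  · rw [wt_low h, wt_low h, hk a ha', hk 1 le_rfl, hf a ha', hf 1 le_rfl]
  · rw [wt_upp h, wt_upp h, hk a ha', hk 1 le_rfl, hf a ha', hf 1 le_rfl]

/-- the type of a near element: its side and the indices of its sites -/
noncomputable def ty (i : ℕ) (x : ℕ → P) (m : ℕ) (y : P) : Bool × Finset ℕ :=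
  (decide (lev y = i + 1), (range (m + 1)).filter fun k => x k ∈ nz i y)

lemma ty_le {y : P} : ∀ k ∈ (ty i x m y).2, k ≤ m := by
  intro k hk
  have := mem_range.1 (mem_filter.1 hk).1
  omega

/-- `x 0, ..., x m` are the sites of the component -/
structure Row (i : ℕ) (C : Finset P) (x : ℕ → P) (m : ℕ) : Prop where
  inj : ∀ k l, k ≤ m → l ≤ m → x k = x l → k = l
  st : st i C = (range (m + 1)).image x

lemma Row.nz (R : Row i C x m) (H : Gr P r) (hC : Part (i + 1) C) {y : P} (hy : y ∈ near P i)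
    (hyC : y ∈ C) : W4.nz i y = (ty i x m y).2.image x := by
  ext v
  rw [mem_image]
  constructor
  · intro hv
    have h1 := nz_st H hC hy hyC hv
    rw [R.st, mem_image] at h1
    obtain ⟨k, hk, rfl⟩ := h1
    exact ⟨k, mem_filter.2 ⟨hk, hv⟩, rfl⟩
  · rintro ⟨k, hk, rfl⟩
    exact (mem_filter.1 hk).2

/-- the free near elements of a configuration on the sites -/
lemma RK_N0 (hT : Tch i e = ∅) : RK i K psi C e = N0 i K C := by
  ext y
  rw [mem_RK, mem_Rst, mem_N0, hT]
  constructor
  · rintro ⟨⟨h1, h2, -, -⟩, h3⟩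
    exact ⟨h1, h3, h2⟩
  · rintro ⟨h1, h2, h3⟩
    exact ⟨⟨h1, h3, notMem_empty _, fun h => notMem_empty _ h.2⟩, h2⟩

variable (H : Gr P r) (hir : i ≤ r) (hC : Part (i + 1) C) (R : Row i C x m)
  {T : List (Bool × Finset ℕ)} (hT : (N0 i K C).val.map (ty i x m) = (T : Multiset (Bool × Finset ℕ)))
include H hir hC R hT

/-- one label on the free elements -/
lemma GK1 (hS : Sc i e) {Y : Finset ℕ} (he : ∀ k, k ≤ m → e (x k) = if k ∈ Y then 1 else 0)
    (S : Finset P) : GK i K psi C e 1 S = evL x (T.map fun t => wm t.1 t.2 Y) S := by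
  have h1 : GK i K psi C e 1 S =
      PowerSeries.coeff 1 (GF (fun y a => wt i e y a S) (N0 i K C)) := by
    unfold GK GF
    rw [RK_N0 (hS.tch H), PowerSeries.coeff_mk]
  have h2 : ∀ s : Finset P, (∀ y ∈ s, y ∈ near P i) →
      PowerSeries.constantCoeff (∏ y ∈ s, PowerSeries.mk fun a => wt i e y a S) = 1 ∧
      PowerSeries.coeff 1 (∏ y ∈ s, PowerSeries.mk fun a => wt i e y a S) =
        ∑ y ∈ s, wt i e y 1 S := by
    intro s hs
    classical
    induction s using Finset.induction_on with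
    | empty => simp [PowerSeries.coeff_one]
    | insert y s hy ih =>
      obtain ⟨a1, a2⟩ := ih fun z hz => hs z (mem_insert_of_mem hz)
      rw [prod_insert hy, sum_insert hy]
      have h0 : PowerSeries.constantCoeff (PowerSeries.mk fun a => wt i e y a S) = (1 : A) := by
        rw [← PowerSeries.coeff_zero_eq_constantCoeff_apply, PowerSeries.coeff_mk]
        exact wt_zero H hir (hs y (mem_insert_self _ _)) e S
      refine ⟨by rw [map_mul, h0, a1, one_mul], ?_⟩
      rw [PowerSeries.coeff_mul, an1 (fun p : ℕ × ℕ => PowerSeries.coeff p.1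
        (PowerSeries.mk fun a => wt i e y a S) * PowerSeries.coeff p.2
        (∏ y ∈ s, PowerSeries.mk fun a => wt i e y a S))]
      simp only
      rw [a2, PowerSeries.coeff_zero_eq_constantCoeff_apply,
        PowerSeries.coeff_zero_eq_constantCoeff_apply, a1, h0, PowerSeries.coeff_mk]
      ring
  rw [h1, GF_prod, (h2 _ fun y hy => (mem_N0.1 hy).1).2]
  have h3 : ∀ y ∈ N0 i K C, wt i e y 1 S = (wm (ty i x m y).1 (ty i x m y).2 Y).ev x S := by
    intro y hy
    obtain ⟨a1, a2, -⟩ := mem_N0.1 hy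
    exact wt_wm a1 (R.nz H hC a1 a2) ty_le he S
  rw [sum_congr rfl h3]
  have h4 : ∑ y ∈ N0 i K C, (wm (ty i x m y).1 (ty i x m y).2 Y).ev x S =
      (((N0 i K C).val.map (ty i x m)).map fun t => (wm t.1 t.2 Y).ev x S).sum := by
    rw [Multiset.map_map]
    rfl
  rw [h4, hT, Multiset.map_coe, Multiset.sum_coe]
  unfold evL
  rw [List.map_map]
  rfl

/-- two labels on the free elements -/
lemma GK2 (S : Finset P) : GK i K psi C (0 : P → ℕ) 2 S =
    evL x ((T.map fun t => wm t.1 t.2 ∅) ++ prL (T.map fun t => wm t.1 t.2 ∅)) S := by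
  have hS : Sc i (0 : P → ℕ) := fun _ _ => rfl
  have h1 : GK i K psi C (0 : P → ℕ) 2 S =
      PowerSeries.coeff 2 (GF (fun y a => wt i (0 : P → ℕ) y a S) (N0 i K C)) := by
    unfold GK GF
    rw [RK_N0 (hS.tch H), PowerSeries.coeff_mk]
  have h3 : ∀ y ∈ N0 i K C, (PowerSeries.mk fun a => wt i (0 : P → ℕ) y a S) =
      PowerSeries.mk ((fun t : Bool × Finset ℕ => fun a : ℕ =>
        if a = 0 then (1 : A) else (wm t.1 t.2 ∅).ev x S) (ty i x m y)) := by
    intro y hy
    obtain ⟨a1, a2, -⟩ := mem_N0.1 hy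
    congr 1
    funext a
    by_cases ha : a = 0
    · subst ha
      rw [wt_zero H hir a1]
      simp
    · rw [wt_pos (e := (0 : P → ℕ)) a1 (fun _ _ => rfl) ha]
      simp only [ha, if_false]
      exact wt_wm a1 (R.nz H hC a1 a2) ty_le (fun k _ => by simp) S
  have h4 : ∏ y ∈ N0 i K C, PowerSeries.mk ((fun t : Bool × Finset ℕ => fun a : ℕ =>
        if a = 0 then (1 : A) else (wm t.1 t.2 ∅).ev x S) (ty i x m y)) =
      (((N0 i K C).val.map (ty i x m)).map fun t => PowerSeries.mk
        (fun a : ℕ => if a = 0 then (1 : A) else (wm t.1 t.2 ∅).ev x S)).prod := by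
    rw [Multiset.map_map]
    rfl
  have h5 := co_list (T.map fun t => fun a : ℕ => if a = 0 then (1 : A) else (wm t.1 t.2 ∅).ev x S)
    (by
      intro g hg
      obtain ⟨t, -, rfl⟩ := List.mem_map.1 hg
      simp)
  rw [h1, GF_prod, prod_congr rfl h3, h4, hT, Multiset.map_coe, Multiset.prod_coe]
  have h6 := h5.2.2
  rw [List.map_map, List.map_map, List.map_map] at h6
  rw [evL_append, ← prs_ev]
  unfold evL
  rw [List.map_map]
  exact h6

end Pool.Agent.GaussPoset.Win.Si
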