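import Pool.Agent.W_448six_h74.SiB

/-!
MP_448cb3_co, G2, case B, window `j`, rows with two stars and six or seven sites: the mixed terms with one
or two labels on the free near elements.  helper74.
-/

namespace Pool.Agent.GaussPoset.Win.Si

set_option linter.unusedSectionVars false

open Finset W4 Pa Pb
open Pool.Agent.GaussPoset.Win.So (IV IV_chi IV_Fe)

universe u

/-- the types of the matched near elements: both elements of the matched pairs over the edges in `E`, and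
the single upper elements at the ends -/
def TL (m : ℕ) (E : List ℕ) (a b : ℕ) : List (Bool × Finset ℕ) :=
  (E.flatMap fun k => [(true, {k, k + 1}), (false, {k, k + 1})]) ++
    (List.replicate a (false, {0}) ++ List.replicate b (false, {m}))

/-- the product of the two stars -/
def SL (m : ℕ) (Y : Finset ℕ) (L : List Mo) : List Mo :=
  mulL [wm false {1, 2} Y, wm true {0, 1} Y]
    (mulL [wm false {m - 1, m - 2} Y, wm true {m, m - 1} Y] L)

/-- energy zero on the core, one on each star, two on the free elements -/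
def L112 (m : ℕ) (E : List ℕ) (a b : ℕ) : List Mo :=
  SL m ∅ (((TL m E a b).map fun t => wm t.1 t.2 ∅) ++ prL ((TL m E a b).map fun t => wm t.1 t.2 ∅))

/-- a label on the site `y`, one label on each star, one on the free elements -/
def L111 (m : ℕ) (E : List ℕ) (a b y : ℕ) : List Mo :=
  SL m {y} ((TL m E a b).map fun t => wm t.1 t.2 {y})

/-! ### the numbers -/

lemma v5_11 : valL (L112 5 [0, 2, 4] 1 1) = -1 ∧ ∀ t ∈ L112 5 [0, 2, 4] 1 1, t.ok 5 := by
  decide +kernel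
lemma v5_10 : valL (L112 5 [0, 2, 4] 1 0) = -2 ∧ ∀ t ∈ L112 5 [0, 2, 4] 1 0, t.ok 5 := by
  decide +kernel
lemma v5_01 : valL (L112 5 [0, 2, 4] 0 1) = -2 ∧ ∀ t ∈ L112 5 [0, 2, 4] 0 1, t.ok 5 := by
  decide +kernel
lemma v5_00 : valL (L112 5 [0, 2, 4] 0 0) = -2 ∧ ∀ t ∈ L112 5 [0, 2, 4] 0 0, t.ok 5 := by
  decide +kernel
lemma v6_11 : valL (L112 6 [0, 2, 3, 5] 1 1) = -1 ∧ ∀ t ∈ L112 6 [0, 2, 3, 5] 1 1, t.ok 6 := by
  decide +kernel
lemma v6_10 : valL (L112 6 [0, 2, 3, 5] 1 0) = -1 ∧ ∀ t ∈ L112 6 [0, 2, 3, 5] 1 0, t.ok 6 := by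
  decide +kernel
lemma v6_01 : valL (L112 6 [0, 2, 3, 5] 0 1) = -1 ∧ ∀ t ∈ L112 6 [0, 2, 3, 5] 0 1, t.ok 6 := by
  decide +kernel
lemma v6_00 : valL (L112 6 [0, 2, 3, 5] 0 0) = 0 ∧ ∀ t ∈ L112 6 [0, 2, 3, 5] 0 0, t.ok 6 := by
  decide +kernel

lemma s5 : ∀ a ∈ range 2, ∀ b ∈ range 2,
    ∑ y ∈ range 6, valL (L111 5 [0, 2, 4] a b y) = 8 ∧
      ∀ y ∈ range 6, ∀ t ∈ L111 5 [0, 2, 4] a b y, t.ok 5 := by
  decide +kernel

lemma s6 : ∀ a ∈ range 2, ∀ b ∈ range 2,
    ∑ y ∈ range 7, valL (L111 6 [0, 2, 3, 5] a b y) = 0 ∧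
      ∀ y ∈ range 7, ∀ t ∈ L111 6 [0, 2, 3, 5] a b y, t.ok 6 := by
  decide +kernel

/-- one label on each star and one on the free elements -/
def L011 (m : ℕ) (E : List ℕ) (a b : ℕ) : List Mo :=
  SL m ∅ ((TL m E a b).map fun t => wm t.1 t.2 ∅)

lemma z5 : ∀ a ∈ range 2, ∀ b ∈ range 2, valL (L011 5 [0, 2, 4] a b) = -1 ∧
    ∀ t ∈ L011 5 [0, 2, 4] a b, t.ok 5 := by
  decide +kernel

lemma z6 : ∀ a ∈ range 2, ∀ b ∈ range 2, valL (L011 6 [0, 2, 3, 5] a b) = 0 ∧
    ∀ t ∈ L011 6 [0, 2, 3, 5] a b, t.ok 6 := by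
  decide +kernel

variable {P : Type u} [Fintype P] [PartialOrder P] [DecidableEq P] {r i : ℕ}
variable {e f : P → ℕ} {psi : P → P} {C K : Finset P} {w v w' v' : P}
variable {x : ℕ → P} {m : ℕ}

lemma WW1 (H : Gr P r) (hir : i ≤ r) {y z : P} (hy : y ∈ near P i) (hz : z ∈ near P i)
    (hT : Tch i e = ∅) (S : Finset P) :
    WW i e y z 1 S = wt i e z 1 S + wt i e y 1 S := by
  have h1 : ∀ q, q ∉ Tch i e := fun q => by rw [hT]; exact notMem_empty q
  unfold WW
  rw [an1 (fun p : ℕ × ℕ => tx i e y p.1 S * tx i e z p.2 S)]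
  simp only
  rw [tx_free (h1 y), tx_free (h1 y), tx_free (h1 z), tx_free (h1 z), wt_zero H hir hy,
    wt_zero H hir hz]
  ring

section

variable (Q : K9x r i K psi C w v w' v' x m)
include Q

lemma rowR (hs : ∀ y ∈ C, lev y = i → ∃ k, k ≤ m ∧ x k = y) (hmem : ∀ k, k ≤ m → x k ∈ C)
    (hl : ∀ k, k ≤ m → lev (x k) = i) : Row i C x m where
  inj := Q.inj
  st := by
    ext y
    rw [mem_st, mem_image]
    constructor
    · rintro ⟨h1, h2⟩
      obtain ⟨k, hk, rfl⟩ := hs y h1 h2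
      exact ⟨k, mem_range.2 (by omega), rfl⟩
    · rintro ⟨k, hk, rfl⟩
      have := mem_range.1 hk
      exact ⟨hmem k (by omega), hl k (by omega)⟩

/-- the two stars -/
lemma stars (hS : Sc i e) {Y : Finset ℕ} (he : ∀ k, k ≤ m → e (x k) = if k ∈ Y then 1 else 0)
    (L : List Mo) (S : Finset P) :
    WW i e w v 1 S * (WW i e w' v' 1 S * evL x L S) = evL x (SL m Y L) S := by
  have hm := Q.hm
  have hT := hS.tch Q.H
  have lw : lev w = i + 1 := Q.lw
  have lw' : lev w' = i + 1 := Q.lw'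
  have lv : ¬ lev v = i + 1 := by have := Q.lv; omega
  have lv' : ¬ lev v' = i + 1 := by have := Q.lv'; omega
  have a1 := wt_wm (x := x) (m := m) Q.nw (I := {0, 1}) (Y := Y)
    (by rw [Q.nzw]; simp [image_insert]) (by
      intro k hk; simp only [mem_insert, mem_singleton] at hk; omega) he S
  have a2 := wt_wm (x := x) (m := m) Q.nv (I := {1, 2}) (Y := Y)
    (by rw [Q.nzv]; simp [image_insert]) (by
      intro k hk; simp only [mem_insert, mem_singleton] at hk; omega) he S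
  have a3 := wt_wm (x := x) (m := m) Q.nw' (I := {m, m - 1}) (Y := Y)
    (by rw [Q.nzw']; simp [image_insert]) (by
      intro k hk; simp only [mem_insert, mem_singleton] at hk; omega) he S
  have a4 := wt_wm (x := x) (m := m) Q.nv' (I := {m - 1, m - 2}) (Y := Y)
    (by rw [Q.nzv']; simp [image_insert]) (by
      intro k hk; simp only [mem_insert, mem_singleton] at hk; omega) he S
  rw [WW1 Q.H Q.hir Q.nw Q.nv hT, WW1 Q.H Q.hir Q.nw' Q.nv' hT, a1, a2, a3, a4]
  unfold SL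
  rw [evL_mul, evL_mul]
  simp only [evL_cons, evL_nil, add_zero, lw, lw', lv, lv', decide_true, decide_false]

variable {T : List (Bool × Finset ℕ)} (R : Row i C x m)
  (hT : (N0 i K C).val.map (ty i x m) = (T : Multiset (Bool × Finset ℕ)))
include R hT

/-- energy zero on the core -/
lemma J112 : J9 i K psi C w v w' v' (0 : P → ℕ) 1 1 2 = IV (st i C) (evL x (SL m ∅
    ((T.map fun t => wm t.1 t.2 ∅) ++ prL (T.map fun t => wm t.1 t.2 ∅)))) := by
  have hS : Sc i (0 : P → ℕ) := fun _ _ => rfl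
  unfold J9
  congr 1
  funext S
  rw [GK2 Q.H Q.hir Q.hC R hT, stars Q hS (Y := ∅) (fun k _ => by simp), Sc_Fe Q.H Q.hi Q.hi2 hS, one_mul]

/-- energy zero on the core, one label on the free elements -/
lemma J011 : J9 i K psi C w v w' v' (0 : P → ℕ) 1 1 1 = IV (st i C) (evL x (SL m ∅
    (T.map fun t => wm t.1 t.2 ∅))) := by
  have hS : Sc i (0 : P → ℕ) := fun _ _ => rfl
  unfold J9
  congr 1
  funext S
  rw [GK1 Q.H Q.hir Q.hC R hT hS (Y := ∅) (fun k _ => by simp),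
    stars Q hS (Y := ∅) (fun k _ => by simp), Sc_Fe Q.H Q.hi Q.hi2 hS, one_mul]

/-- a label on a site -/
lemma J111 {y : ℕ} (hy : y ≤ m) : J9 i K psi C w v w' v' (Pi.single (x y) 1 : P → ℕ) 1 1 1 =
    IV (st i C) (evL x (SL m {y} (T.map fun t => wm t.1 t.2 {y}))) := by
  have hl : lev (x y) = i := by
    have : x y ∈ st i C := by
      rw [R.st]; exact mem_image_of_mem x (mem_range.2 (by omega))
    exact (mem_st.1 this).2
  have hS : Sc i (Pi.single (x y) 1 : P → ℕ) := Sc_single hl 1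
  have he : ∀ k, k ≤ m → (Pi.single (x y) 1 : P → ℕ) (x k) =
      if k ∈ ({y} : Finset ℕ) then 1 else 0 := by
    intro k hk
    rw [Pi.single_apply]
    by_cases h : k = y
    · rw [if_pos (by rw [h]), if_pos (mem_singleton.2 h)]
    · rw [if_neg (fun h' => h (R.inj k y hk hy h')), if_neg (fun h' => h (mem_singleton.1 h'))]
  unfold J9
  congr 1
  funext S
  rw [GK1 Q.H Q.hir Q.hC R hT hS he, stars Q hS he, Sc_Fe Q.H Q.hi Q.hi2 hS, one_mul]

/-- the sum over the cores of energy one -/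
lemma sum111 (hL : ∀ y ∈ range (m + 1), ∀ t ∈ SL m {y} (T.map fun t => wm t.1 t.2 {y}), t.ok m) :
    ∑ e ∈ Co i K psi C 1, lc (st i C).card 2 (J9 i K psi C w v w' v' e 1 1 1) =
      ∑ y ∈ range (m + 1), valL (SL m {y} (T.map fun t => wm t.1 t.2 {y})) := by
  rw [Co1_st Q.toK9c (fun e => lc (st i C).card 2 (J9 i K psi C w v w' v' e 1 1 1))
    (fun e h => by
      show lc (st i C).card 2 (J9 i K psi C w v w' v' e 1 1 1) = 0
      rw [Q.bad h, lc_zero])]
  rw [R.st, sum_image (fun k hk l hl h => injOn_of R.inj Subset.rfl hk hl h), ← R.st]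
  refine sum_congr rfl fun y hy => ?_
  rw [J111 Q R hT (by have := mem_range.1 hy; omega)]
  exact evL_val R.inj R.st (hL y hy)

end

/-- SIX SITES: energy two on the free elements, and the labelled sites -/
theorem num5 (Q : K9x r i K psi C w v w' v' x 5) (R : Row i C x 5) {a b : ℕ} (ha : a < 2)
    (hb : b < 2) (hT : (N0 i K C).val.map (ty i x 5) =
      (TL 5 [0, 2, 4] a b : Multiset (Bool × Finset ℕ))) :
    lc (st i C).card 2 (J9 i K psi C w v w' v' (0 : P → ℕ) 1 1 2) = (a : ℤ) * b - 2 ∧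
    lc (st i C).card 2 (J9 i K psi C w v w' v' (0 : P → ℕ) 1 1 1) = -1 ∧
    ∑ e ∈ Co i K psi C 1, lc (st i C).card 2 (J9 i K psi C w v w' v' e 1 1 1) = 8 := by
  obtain ⟨h1, h2⟩ := s5 a (mem_range.2 ha) b (mem_range.2 hb)
  obtain ⟨h3, h4⟩ := z5 a (mem_range.2 ha) b (mem_range.2 hb)
  refine ⟨?_, (congrArg _ (J011 Q R hT)).trans ((evL_val R.inj R.st h4).trans h3), ?_⟩
  · rw [J112 Q R hT]
    have key : ∀ {n : ℤ}, (valL (L112 5 [0, 2, 4] a b) = n ∧ ∀ t ∈ L112 5 [0, 2, 4] a b, t.ok 5) →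
        lc (st i C).card 2 (IV (st i C) (evL x (L112 5 [0, 2, 4] a b))) = n := fun h => by
      rw [evL_val R.inj R.st h.2, h.1]
    obtain rfl | rfl : a = 0 ∨ a = 1 := by omega
    · obtain rfl | rfl : b = 0 ∨ b = 1 := by omega
      · exact (key v5_00).trans (by norm_num)
      · exact (key v5_01).trans (by norm_num)
    · obtain rfl | rfl : b = 0 ∨ b = 1 := by omega
      · exact (key v5_10).trans (by norm_num)
      · exact (key v5_11).trans (by norm_num)
  · rw [sum111 Q R hT h2]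
    exact h1

/-- SEVEN SITES -/
theorem num6 (Q : K9x r i K psi C w v w' v' x 6) (R : Row i C x 6) {a b : ℕ} (ha : a < 2)
    (hb : b < 2) (hT : (N0 i K C).val.map (ty i x 6) =
      (TL 6 [0, 2, 3, 5] a b : Multiset (Bool × Finset ℕ))) :
    lc (st i C).card 2 (J9 i K psi C w v w' v' (0 : P → ℕ) 1 1 2) = ((a : ℤ) - 1) * (b - 1) - 1 ∧
    lc (st i C).card 2 (J9 i K psi C w v w' v' (0 : P → ℕ) 1 1 1) = 0 ∧
    ∑ e ∈ Co i K psi C 1, lc (st i C).card 2 (J9 i K psi C w v w' v' e 1 1 1) = 0 := by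
  obtain ⟨h1, h2⟩ := s6 a (mem_range.2 ha) b (mem_range.2 hb)
  obtain ⟨h3, h4⟩ := z6 a (mem_range.2 ha) b (mem_range.2 hb)
  refine ⟨?_, (congrArg _ (J011 Q R hT)).trans ((evL_val R.inj R.st h4).trans h3), ?_⟩
  · rw [J112 Q R hT]
    have key : ∀ {n : ℤ}, (valL (L112 6 [0, 2, 3, 5] a b) = n ∧
        ∀ t ∈ L112 6 [0, 2, 3, 5] a b, t.ok 6) →
        lc (st i C).card 2 (IV (st i C) (evL x (L112 6 [0, 2, 3, 5] a b))) = n := fun h => by
      rw [evL_val R.inj R.st h.2, h.1]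
    obtain rfl | rfl : a = 0 ∨ a = 1 := by omega
    · obtain rfl | rfl : b = 0 ∨ b = 1 := by omega
      · exact (key v6_00).trans (by norm_num)
      · exact (key v6_01).trans (by norm_num)
    · obtain rfl | rfl : b = 0 ∨ b = 1 := by omega
      · exact (key v6_10).trans (by norm_num)
      · exact (key v6_11).trans (by norm_num)
  · rw [sum111 Q R hT h2]
    exact h1

end Pool.Agent.GaussPoset.Win.Si
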