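import Pool.Agent.W_448p_h97.PbU
import Pool.Agent.W_448six_h74.SiC

/-!
MP_448cb3_co, G2, case B, window `j`, rows with two stars: the matched near elements of the row.
helper74.
-/

namespace Pool.Agent.GaussPoset.Win.Si

set_option linter.unusedSectionVars false

open Finset W4 Pa Pb
open Pool.Agent.GaussPoset.Win.So (IV IV_chi IV_Fe)

universe u

variable {P : Type u} [Fintype P] [PartialOrder P] [DecidableEq P] {r i : ℕ}
variable {e f : P → ℕ} {psi : P → P} {C K : Finset P} {w v w' v' : P}
variable {x : ℕ → P} {m : ℕ}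

/-- a row with two stars -/
structure Two (r i : ℕ) (K : Finset P) (psi : P → P) (C : Finset P) (w v w' v' : P) (x : ℕ → P)
    (m : ℕ) : Prop where
  Q : K9x r i K psi C w v w' v' x m
  W : PRow r i C m x
  hd : ∀ k l, k < l → l ≤ m → dcv (x k) (x l) = if l = k + 1 then dk m k else 0

lemma dk_pos {k : ℕ} (h : 1 ≤ dk m k) (hm : 5 ≤ m) (hk : k < m) : k ≠ 1 ∧ k + 2 ≠ m := by
  unfold dk at h
  split_ifs at h with h1 h2
  · omega
  · omega
  · omega

lemma ty_of (R : Row i C x m) {y : P} {I : Finset ℕ} (h : nz i y = I.image x)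
    (hI : I ⊆ range (m + 1)) : (ty i x m y).2 = I := by
  ext k
  show k ∈ (range (m + 1)).filter (fun k => x k ∈ nz i y) ↔ k ∈ I
  rw [mem_filter, h, mem_image]
  constructor
  · rintro ⟨hk, l, hl, hx⟩
    have h1 := mem_range.1 hk
    have h2 := mem_range.1 (hI hl)
    rw [← R.inj l k (by omega) (by omega) hx]
    exact hl
  · intro hk
    exact ⟨hI hk, k, hk, rfl⟩

namespace Two

variable (B : Two r i K psi C w v w' v' x m)
include B

lemma row : Row i C x m := rowR B.Q (fun y h1 h2 => B.W.surj y h1 h2) B.W.mem B.W.lev_x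

lemma dns {k l : ℕ} (hk : k ≤ m) (hl : l ≤ m) (hkl : k ≠ l) : dcv (x k) (x l) =
    if l = k + 1 then dk m k else if k = l + 1 then dk m l else 0 := by
  rcases Nat.lt_or_gt_of_ne hkl with h1 | h1
  · rw [B.hd k l h1 hl]
    split_ifs <;> omega
  · rw [kf_dcv_comm, B.hd l k h1 hk]
    split_ifs <;> omega

lemma dc2 {k l : ℕ} (hk : k ≤ m) (hl : l ≤ m) (hkl : k ≠ l) (h2 : dcv (x k) (x l) = 2) :
    (dc (x k)).card = 2 ∧ (pen (x k)).card = 0 := by
  have h1 := B.W.deg hk
  have h4 := B.W.dc_le hk
  have h3 : dcv (x k) (x l) ≤ ∑ l ∈ (range (m + 1)).erase k, dcv (x k) (x l) :=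
    single_le_sum (f := fun l => dcv (x k) (x l)) (fun _ _ => Nat.zero_le _)
      (mem_erase.2 ⟨Ne.symm hkl, mem_range.2 (by omega)⟩)
  omega

lemma dc_end {k : ℕ} (hk : k ≤ m) (h : k ≤ 1 ∨ m ≤ k + 1) :
    (dc (x k)).card = 2 ∧ (pen (x k)).card = 0 := by
  have hm := B.Q.hm
  have e0 : dk m 0 = 2 := by unfold dk; rw [if_pos (Or.inl rfl)]
  have e1 : dk m (m - 1) = 2 := by unfold dk; rw [if_pos (Or.inr (by omega))]
  by_cases h0 : k = 0
  · exact B.dc2 (l := 1) hk (by omega) (by omega) (by
      rw [B.dns hk (by omega) (by omega), if_pos (by omega), h0, e0])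
  by_cases h1 : k = 1
  · exact B.dc2 (l := 0) hk (by omega) (by omega) (by
      rw [B.dns hk (by omega) (by omega), if_neg (by omega), if_pos (by omega), e0])
  by_cases h2 : k = m
  · exact B.dc2 (l := m - 1) hk (by omega) (by omega) (by
      rw [B.dns hk (by omega) (by omega), if_neg (by omega), if_pos (by omega), e1])
  · have h3 : k = m - 1 := by omega
    exact B.dc2 (l := m) hk (by omega) (by omega) (by
      rw [B.dns hk (by omega) (by omega), if_pos (by omega), h3, e1])

lemma pen_zero {k : ℕ} (hk : k ≤ m) : pen (x k) = ∅ := by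
  by_cases h : 2 ≤ k ∧ k + 2 ≤ m
  · exact B.W.pen0 k h.1 h.2
  · exact card_eq_zero.1 (B.dc_end hk (by omega)).2

/-- the lower near elements are doubles over the edges with a matched pair, or stars -/
lemma low {y : P} (hy : y ∈ C) (hl : lev y = i + 1) :
    ∃ k, k < m ∧ k ≠ 1 ∧ k + 2 ≠ m ∧ uc y = ed x k := by
  classical
  have hm := B.Q.hm
  have hs : ∀ s ∈ uc y, ∃ k, k ≤ m ∧ x k = s := by
    intro s hs
    have h1 := mem_st.1 (nz_st B.W.H B.W.hC (mem_near.2 (Or.inl hl)) hy
      (by rw [nz_low hl]; exact hs))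
    exact B.W.surj s h1.1 h1.2
  rcases uc_card_cases B.W.H (x := y) (by have := B.W.hi; omega) with h | h
  · obtain ⟨s, hs1⟩ := card_eq_one.1 h
    obtain ⟨k, hk, rfl⟩ := hs s (by rw [hs1]; exact mem_singleton_self s)
    have : y ∈ pen (x k) := mem_pen.2 ⟨mem_uc.1 (by rw [hs1]; exact mem_singleton_self _), h⟩
    rw [B.pen_zero hk] at this
    exact absurd this (notMem_empty _)
  · obtain ⟨s, t, hst, he⟩ := card_eq_two.1 h
    obtain ⟨a, ha, rfl⟩ := hs s (by rw [he]; exact mem_insert_self _ _)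
    obtain ⟨b, hb, rfl⟩ := hs t (by rw [he]; exact mem_insert_of_mem (mem_singleton_self _))
    have key : ∀ a b, a < b → b ≤ m → uc y = {x a, x b} →
        ∃ k, k < m ∧ k ≠ 1 ∧ k + 2 ≠ m ∧ uc y = ed x k := by
      intro a b hab hb he
      have h1 : 1 ≤ dcv (x a) (x b) := by
        unfold dcv
        rw [Nat.one_le_iff_ne_zero, ← Nat.pos_iff_ne_zero, card_pos]
        refine ⟨y, mem_filter.2 ⟨mem_univ _, ?_, ?_⟩⟩
        · exact mem_uc.1 (by rw [he]; exact mem_insert_self _ _)
        · exact mem_uc.1 (by rw [he]; exact mem_insert_of_mem (mem_singleton_self _))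
      rw [B.hd a b hab hb] at h1
      by_cases hb1 : b = a + 1
      · rw [if_pos hb1] at h1
        obtain ⟨h2, h3⟩ := dk_pos h1 hm (by omega)
        exact ⟨a, by omega, h2, h3, by rw [he, hb1]; rfl⟩
      · rw [if_neg hb1] at h1
        omega
    have hab : a ≠ b := fun h => hst (by rw [h])
    rcases Nat.lt_or_gt_of_ne hab with h1 | h1
    · exact key a b h1 hb he
    · exact key b a h1 ha (by rw [he]; exact pair_comm _ _)

/-- the upper double over an edge is unique -/
lemma upU {k : ℕ} (hk : k < m) {y z : P} (hy : x k ⋖ y ∧ x (k + 1) ⋖ y)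
    (hz : x k ⋖ z ∧ x (k + 1) ⋖ z) : y = z := by
  classical
  have h1 : ucv (x k) (x (k + 1)) = 1 := by rw [B.W.up k (k + 1) (by omega) (by omega), if_pos rfl]
  unfold ucv at h1
  obtain ⟨a, ha⟩ := card_eq_one.1 h1
  have e1 : y ∈ ({a} : Finset P) := by rw [← ha]; exact mem_filter.2 ⟨mem_univ _, hy⟩
  have e2 : z ∈ ({a} : Finset P) := by rw [← ha]; exact mem_filter.2 ⟨mem_univ _, hz⟩
  rw [mem_singleton.1 e1, mem_singleton.1 e2]

/-- the upper double over an edge -/
lemma upE {k : ℕ} (hk : k < m) : ∃ u, dc u = ed x k ∧ lev u + 1 = i := by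
  classical
  have h1 : ucv (x k) (x (k + 1)) = 1 := by rw [B.W.up k (k + 1) (by omega) (by omega), if_pos rfl]
  unfold ucv at h1
  obtain ⟨u, hu⟩ := card_eq_one.1 h1
  have e1 : u ∈ univ.filter (fun y : P => x k ⋖ y ∧ x (k + 1) ⋖ y) := by
    rw [hu]; exact mem_singleton_self u
  obtain ⟨-, e2, e3⟩ := mem_filter.1 e1
  have hlev := lev_cov B.W.H e2
  have hlx := B.W.lev_x k (by omega)
  refine ⟨u, ?_, by omega⟩
  symm
  refine eq_of_subset_of_card_le ?_ ?_
  · intro z hz
    unfold ed at hz
    rw [mem_insert, mem_singleton] at hz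
    rcases hz with rfl | rfl
    · exact mem_dc.2 e2
    · exact mem_dc.2 e3
  · rw [B.W.card_ed hk]
    exact dc_card_le B.W.H u

/-- the upper near elements -/
lemma upp {y : P} (hy : y ∈ C) (hl : lev y + 1 = i) :
    (∃ k, k < m ∧ dc y = ed x k) ∨ dc y = {x 0} ∨ dc y = {x m} := by
  classical
  have hm := B.Q.hm
  have hn : y ∈ near P i := mem_near.2 (Or.inr hl)
  have hs : ∀ s ∈ dc y, ∃ k, k ≤ m ∧ x k = s := by
    intro s hs
    have h1 := mem_st.1 (nz_st B.W.H B.W.hC hn hy (by rw [nz_upp hl]; exact hs))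
    exact B.W.surj s h1.1 h1.2
  have hne : (dc y).Nonempty := dc_nonempty B.W.H (by have := B.W.hi2; omega)
  have hc := dc_card_le B.W.H y
  have hp := card_pos.2 hne
  rcases (by omega : (dc y).card = 1 ∨ (dc y).card = 2) with h | h
  · right
    obtain ⟨s, hs1⟩ := card_eq_one.1 h
    obtain ⟨k, hk, rfl⟩ := hs s (by rw [hs1]; exact mem_singleton_self s)
    by_cases h0 : k = 0
    · left; rw [hs1, h0]
    by_cases h1 : k = m
    · right; rw [hs1, h1]
    · exfalso
      obtain ⟨u, hu, -⟩ := B.upE (k := k) (by omega)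
      obtain ⟨u', hu', -⟩ := B.upE (k := k - 1) (by omega)
      have hux : x k ∈ dc u := by rw [hu]; unfold ed; exact mem_insert_self _ _
      have hux' : x k ∈ dc u' := by
        rw [hu']; unfold ed; rw [show k - 1 + 1 = k by omega]
        exact mem_insert_of_mem (mem_singleton_self _)
      have n1 : u ≠ u' := by
        intro h2
        rw [h2, hu'] at hu
        have := B.W.ed_inj (by omega) (by omega) hu
        omega
      have c2 : ∀ k, k < m → (ed x k).card = 2 := fun k hk => B.W.card_ed hk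
      have n2 : y ≠ u := by
        rintro rfl
        rw [hu, c2 k (by omega)] at h
        omega
      have n3 : y ≠ u' := by
        rintro rfl
        rw [hu', c2 (k - 1) (by omega)] at h
        omega
      have h3 : ({y, u, u'} : Finset P) ⊆ uc (x k) := by
        intro z hz
        rw [mem_insert, mem_insert, mem_singleton] at hz
        rw [mem_uc]
        rcases hz with rfl | rfl | rfl
        · exact mem_dc.1 (by rw [hs1]; exact mem_singleton_self _)
        · exact mem_dc.1 hux
        · exact mem_dc.1 hux'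
      have h4 := card_le_card h3
      rw [card_insert_of_notMem (by rw [mem_insert, mem_singleton]; tauto),
        card_pair n1] at h4
      have := uc_card_le B.W.H (x k)
      omega
  · left
    obtain ⟨s, t, hst, he⟩ := card_eq_two.1 h
    obtain ⟨a, ha, rfl⟩ := hs s (by rw [he]; exact mem_insert_self _ _)
    obtain ⟨b, hb, rfl⟩ := hs t (by rw [he]; exact mem_insert_of_mem (mem_singleton_self _))
    have key : ∀ a b, a < b → b ≤ m → dc y = {x a, x b} → ∃ k, k < m ∧ dc y = ed x k := by
      intro a b hab hb he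
      have h1 : 1 ≤ ucv (x a) (x b) := by
        unfold ucv
        rw [Nat.one_le_iff_ne_zero, ← Nat.pos_iff_ne_zero, card_pos]
        refine ⟨y, mem_filter.2 ⟨mem_univ _, ?_, ?_⟩⟩
        · exact mem_dc.1 (by rw [he]; exact mem_insert_self _ _)
        · exact mem_dc.1 (by rw [he]; exact mem_insert_of_mem (mem_singleton_self _))
      rw [B.W.up a b hab hb] at h1
      by_cases hb1 : b = a + 1
      · exact ⟨a, by omega, by rw [he, hb1]; rfl⟩
      · rw [if_neg hb1] at h1
        omega
    have hab : a ≠ b := fun h => hst (by rw [h])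
    rcases Nat.lt_or_gt_of_ne hab with h1 | h1
    · exact key a b h1 hb he
    · exact key b a h1 ha (by rw [he]; exact pair_comm _ _)

end Two

end Pool.Agent.GaussPoset.Win.Si
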