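import Pool.Agent.W_448six_h74.SiD

/-!
MP_448cb3_co, G2, case B, window `j`, rows with two stars: the types of the matched near elements.
helper74.
-/

namespace Pool.Agent.GaussPoset.Win.Si

set_option linter.unusedSectionVars false

open Finset W4 Pa Pb
open Pool.Agent.GaussPoset.Win.So (IV IV_chi IV_Fe)

universe u

variable {P : Type u} [Fintype P] [PartialOrder P] [DecidableEq P] {r i : ℕ}
variable {e f : P → ℕ} {psi : P → P} {C K : Finset P} {w v w' v' : P}
variable {x : ℕ → P} {m : ℕ}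

/-- the matched near elements of a type -/
noncomputable def FT (i : ℕ) (K C : Finset P) (x : ℕ → P) (m : ℕ) (t : Bool × Finset ℕ) :
    Finset P := (N0 i K C).filter fun y => t = ty i x m y

lemma mem_FT {t : Bool × Finset ℕ} {y : P} :
    y ∈ FT i K C x m t ↔ y ∈ N0 i K C ∧ t = ty i x m y := by
  unfold FT
  rw [mem_filter]

lemma ed_image (k : ℕ) : ed x k = ({k, k + 1} : Finset ℕ).image x := by
  unfold ed
  rw [image_insert, image_singleton]

lemma card_idx (k : ℕ) : ({k, k + 1} : Finset ℕ).card = 2 := card_pair (by omega)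

namespace Two

variable (B : Two r i K psi C w v w' v' x m)
include B

lemma nzI {y : P} (hy : y ∈ N0 i K C) : nz i y = (ty i x m y).2.image x := by
  obtain ⟨h1, h2, -⟩ := mem_N0.1 hy
  exact B.row.nz B.W.H B.W.hC h1 h2

/-- lower types -/
lemma FT_low {k : ℕ} {y : P} (hk : k < m) : y ∈ FT i K C x m (true, {k, k + 1}) ↔
    y ∈ N0 i K C ∧ lev y = i + 1 ∧ nz i y = ed x k := by
  rw [mem_FT]
  constructor
  · rintro ⟨h1, h2⟩
    have h3 := B.nzI h1
    rw [← h2] at h3
    refine ⟨h1, ?_, by rw [h3, ed_image]⟩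
    have h4 : true = decide (lev y = i + 1) := congrArg Prod.fst h2
    exact of_decide_eq_true h4.symm
  · rintro ⟨h1, h2, h3⟩
    refine ⟨h1, Prod.ext ?_ ?_⟩
    · exact (decide_eq_true h2).symm
    · refine (ty_of B.row (I := {k, k + 1}) (by rw [h3, ed_image]) ?_).symm
      intro l hl
      rw [mem_insert, mem_singleton] at hl
      rw [mem_range]
      omega

/-- upper types -/
lemma FT_upp {I : Finset ℕ} (hI : I ⊆ range (m + 1)) {y : P} : y ∈ FT i K C x m (false, I) ↔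
    y ∈ N0 i K C ∧ lev y + 1 = i ∧ nz i y = I.image x := by
  rw [mem_FT]
  constructor
  · rintro ⟨h1, h2⟩
    have h3 := B.nzI h1
    rw [← h2] at h3
    refine ⟨h1, ?_, h3⟩
    have h4 : false = decide (lev y = i + 1) := congrArg Prod.fst h2
    have h5 := of_decide_eq_false h4.symm
    rcases mem_near.1 (mem_N0.1 h1).1 with h | h
    · exact absurd h h5
    · exact h
  · rintro ⟨h1, h2, h3⟩
    refine ⟨h1, Prod.ext ?_ ?_⟩
    · exact (decide_eq_false (by omega)).symm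
    · exact (ty_of B.row h3 hI).symm

lemma idx_sub {k : ℕ} (hk : k < m) : ({k, k + 1} : Finset ℕ) ⊆ range (m + 1) := by
  intro l hl
  rw [mem_insert, mem_singleton] at hl
  rw [mem_range]
  omega

lemma sing_sub {k : ℕ} (hk : k ≤ m) : ({k} : Finset ℕ) ⊆ range (m + 1) := by
  intro l hl
  rw [mem_singleton] at hl
  rw [mem_range]
  omega

lemma ed_ne {a b : ℕ} (ha : a < m) (hb : b < m) (h : a ≠ b) : ed x a ≠ ed x b := fun h1 =>
  h (B.W.ed_inj ha hb h1)

/-- one matched lower double over an edge -/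
lemma cardL {k : ℕ} (hk : k < m) (h1 : k ≠ 1) (h2 : k + 2 ≠ m) :
    (FT i K C x m (true, {k, k + 1})).card = 1 := by
  classical
  have hm := B.Q.hm
  have e1 : FT i K C x m (true, {k, k + 1}) =
      (N0 i K C).filter (fun z => z ∈ dbL P i ∧ nz i z ⊆ {x k, x (k + 1)}) := by
    ext y
    rw [B.FT_low hk, mem_filter, mem_dbL]
    constructor
    · rintro ⟨a1, a2, a3⟩
      refine ⟨a1, ⟨a2, ?_⟩, by rw [a3]; exact Subset.rfl⟩
      rw [← nz_low a2, a3, B.W.card_ed hk]
    · rintro ⟨a1, ⟨a2, a3⟩, a4⟩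
      refine ⟨a1, a2, eq_of_subset_of_card_le a4 ?_⟩
      rw [nz_low a2, a3]
      exact (B.W.card_ed hk).le
  have e2 := K9_mm B.Q.toK9 (B.W.mem k (by omega)) (B.W.lev_x k (by omega))
    (B.W.ne (a := k) (b := k + 1) (by omega) (by omega) (by omega))
  have e3 : (uc w = {x k, x (k + 1)}) ↔ k = 0 := by
    rw [B.Q.uw]
    constructor
    · intro h
      exact (B.W.ed_inj (k := 0) (l := k) (by omega) hk h).symm
    · rintro rfl
      rfl
  have e4 : (uc w' = {x k, x (k + 1)}) ↔ k + 1 = m := by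
    rw [B.Q.uw', pair_comm]
    constructor
    · intro h
      have h3 : ed x (m - 1) = ed x k := by
        unfold ed
        rw [show m - 1 + 1 = m by omega]
        exact h
      have := B.W.ed_inj (by omega) hk h3
      omega
    · intro h
      rw [show m - 1 = k by omega, ← h]
  have e5 : (FT i K C x m (true, {k, k + 1})).card = W4.mm i K C {x k, x (k + 1)} := by
    rw [e1]
    rfl
  rw [e2, B.hd k (k + 1) (by omega) (by omega), if_pos rfl] at e5
  simp only [e3, e4] at e5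
  unfold dk at e5
  by_cases h3 : k = 0
  · rw [if_pos (Or.inl h3), if_pos h3, if_neg (by omega)] at e5
    push_cast at e5
    omega
  · by_cases h4 : k + 1 = m
    · rw [if_pos (Or.inr h4), if_neg h3, if_pos h4] at e5
      push_cast at e5
      omega
    · rw [if_neg (by omega), if_neg (by omega), if_neg h3, if_neg h4] at e5
      push_cast at e5
      omega

/-- a matched upper double over an edge -/
lemma cardU {k : ℕ} (hk : k < m) (h1 : k ≠ 1) (h2 : k + 2 ≠ m) :
    (FT i K C x m (false, {k, k + 1})).card = 1 := by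
  classical
  have hM := B.Q.hM
  refine Eq.trans (card_nbij' psi psi ?_ ?_ ?_ ?_) (B.cardL hk h1 h2)
  · intro y hy
    obtain ⟨a1, a2, a3⟩ := (B.FT_upp (B.idx_sub hk)).1 hy
    obtain ⟨b1, b2, b3⟩ := mem_N0.1 a1
    have hd : y ∈ dbU P i := mem_dbU.2 ⟨a2, by
      rw [← nz_upp a2, a3, ← ed_image, B.W.card_ed hk]⟩
    obtain ⟨c1, c2⟩ := hM.upp y hd b3
    obtain ⟨d1, d2⟩ := hM.invol y (mem_union_right _ hd) b3
    have c3 := (mem_dbL.1 c1).1
    refine (B.FT_low hk).2 ⟨mem_N0.2 ⟨mem_near.2 (Or.inl c3), ?_, d2⟩, c3, ?_⟩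
    · exact psi_memK B.W.H hM B.W.hC (mem_union_right _ hd) b3 b2
    · rw [nz_low c3, c2, ← nz_upp a2, a3, ed_image]
  · intro y hy
    obtain ⟨a1, a2, a3⟩ := (B.FT_low hk).1 hy
    obtain ⟨b1, b2, b3⟩ := mem_N0.1 a1
    have hd : y ∈ dbL P i := mem_dbL.2 ⟨a2, by
      rw [← nz_low a2, a3, B.W.card_ed hk]⟩
    obtain ⟨c1, c2⟩ := hM.low y hd b3
    obtain ⟨d1, d2⟩ := hM.invol y (mem_union_left _ hd) b3
    have c3 := (mem_dbU.1 c1).1
    refine (B.FT_upp (B.idx_sub hk)).2 ⟨mem_N0.2 ⟨mem_near.2 (Or.inr c3), ?_, d2⟩, c3, ?_⟩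
    · exact psi_memK B.W.H hM B.W.hC (mem_union_left _ hd) b3 b2
    · rw [nz_upp c3, c2, ← nz_low a2, a3, ed_image]
  · intro y hy
    obtain ⟨a1, a2, a3⟩ := (B.FT_upp (B.idx_sub hk)).1 hy
    obtain ⟨b1, b2, b3⟩ := mem_N0.1 a1
    have hd : y ∈ dbU P i := mem_dbU.2 ⟨a2, by
      rw [← nz_upp a2, a3, ← ed_image, B.W.card_ed hk]⟩
    exact (hM.invol y (mem_union_right _ hd) b3).1
  · intro y hy
    obtain ⟨a1, a2, a3⟩ := (B.FT_low hk).1 hy
    obtain ⟨b1, b2, b3⟩ := mem_N0.1 a1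
    have hd : y ∈ dbL P i := mem_dbL.2 ⟨a2, by
      rw [← nz_low a2, a3, B.W.card_ed hk]⟩
    exact (hM.invol y (mem_union_left _ hd) b3).1

/-- the possible types -/
lemma types {y : P} (hy : y ∈ N0 i K C) :
    (∃ k, k < m ∧ k ≠ 1 ∧ k + 2 ≠ m ∧ (ty i x m y = (true, {k, k + 1}) ∨
      ty i x m y = (false, {k, k + 1}))) ∨
      ty i x m y = (false, {0}) ∨ ty i x m y = (false, {m}) := by
  obtain ⟨a1, a2, a3⟩ := mem_N0.1 hy
  rcases mem_near.1 a1 with h | h
  · obtain ⟨k, h1, h2, h3, h4⟩ := B.low a2 h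
    have h5 := (B.FT_low (y := y) h1).2 ⟨hy, h, by rw [nz_low h, h4]⟩
    exact Or.inl ⟨k, h1, h2, h3, Or.inl (mem_FT.1 h5).2.symm⟩
  · rcases B.upp a2 h with ⟨k, h1, h2⟩ | h1 | h1
    · have hd : y ∈ dbU P i := mem_dbU.2 ⟨h, by rw [h2, B.W.card_ed h1]⟩
      obtain ⟨c1, c2⟩ := B.Q.hM.upp y hd a3
      have c3 := (mem_dbL.1 c1).1
      obtain ⟨l, l1, l2, l3, l4⟩ := B.low
        (psi_memK B.W.H B.Q.hM B.W.hC (mem_union_right _ hd) a3 a2) c3
      have hkl : k = l := B.W.ed_inj h1 l1 (by rw [← h2, ← c2, l4])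
      subst hkl
      have h5 := (B.FT_upp (y := y) (B.idx_sub h1)).2
        ⟨hy, h, by rw [nz_upp h, h2, ed_image]⟩
      exact Or.inl ⟨k, h1, l2, l3, Or.inr (mem_FT.1 h5).2.symm⟩
    · have h5 := (B.FT_upp (y := y) (I := {0}) (B.sing_sub (by omega))).2
        ⟨hy, h, by rw [nz_upp h, h1, image_singleton]⟩
      exact Or.inr (Or.inl (mem_FT.1 h5).2.symm)
    · have h5 := (B.FT_upp (y := y) (I := {m}) (B.sing_sub (by omega))).2
        ⟨hy, h, by rw [nz_upp h, h1, image_singleton]⟩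
      exact Or.inr (Or.inr (mem_FT.1 h5).2.symm)

end Two

end Pool.Agent.GaussPoset.Win.Si
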