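import Pool.Agent.W_448six_h74.SiE

/-!
MP_448cb3_co, G2, case B, window `j`, rows with two stars and six or seven sites: the list of the types of
the matched near elements and the values of the mixed terms.  helper74.
-/

namespace Pool.Agent.GaussPoset.Win.Si

set_option linter.unusedSectionVars false

open Finset W4 Pa Pb
open Pool.Agent.GaussPoset.Win.So (IV IV_chi IV_Fe)

universe u

variable {P : Type u} [Fintype P] [PartialOrder P] [DecidableEq P] {r i : ℕ}
variable {e f : P → ℕ} {psi : P → P} {C K : Finset P} {w v w' v' : P}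
variable {x : ℕ → P} {m : ℕ}

lemma FT_disj {t t' : Bool × Finset ℕ} (h : t ≠ t') :
    Disjoint (FT i K C x m t) (FT i K C x m t') := by
  rw [disjoint_left]
  intro y hy hy'
  exact h ((mem_FT.1 hy).2.trans (mem_FT.1 hy').2.symm)

namespace Two

variable (B : Two r i K psi C w v w' v' x m)
include B

/-- the single upper elements at an end `p` with the edge `q` -/
lemma cardS {p q : ℕ} (hp : p ≤ m) (hq : q < m) (hpq : p = q ∨ p = q + 1) (h1 : q ≠ 1)
    (h2 : q + 2 ≠ m) (hs : p = 0 ∨ p = m)
    (hd : dg i K C (x p) = (uc (x p)).card + 1) :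
    (FT i K C x m (false, {p})).card + 1 = (uc (x p)).card := by
  classical
  have hm := B.Q.hm
  have e1 : (N0 i K C).filter (fun y => x p ∈ nz i y) =
      FT i K C x m (true, {q, q + 1}) ∪ (FT i K C x m (false, {q, q + 1}) ∪
        FT i K C x m (false, {p})) := by
    ext y
    rw [mem_filter, mem_union, mem_union]
    constructor
    · rintro ⟨a1, a2⟩
      have mk : ∀ t, ty i x m y = t → y ∈ FT i K C x m t := fun t ht => mem_FT.2 ⟨a1, ht.symm⟩
      rcases B.types a1 with ⟨k, k1, k2, k3, h | h⟩ | h | h
      · have h3 := (B.FT_low k1).1 (mk _ h)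
        rw [h3.2.2, B.W.mem_ed hp k1] at a2
        have : k = q := by omega
        subst this
        exact Or.inl (mk _ h)
      · have h3 := (B.FT_upp (B.idx_sub k1)).1 (mk _ h)
        rw [h3.2.2, ← ed_image, B.W.mem_ed hp k1] at a2
        have : k = q := by omega
        subst this
        exact Or.inr (Or.inl (mk _ h))
      · have h3 := (B.FT_upp (B.sing_sub (by omega))).1 (mk _ h)
        rw [h3.2.2, image_singleton, mem_singleton] at a2
        have := B.W.inj p 0 hp (by omega) a2
        subst this
        exact Or.inr (Or.inr (mk _ h))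
      · have h3 := (B.FT_upp (B.sing_sub (by omega))).1 (mk _ h)
        rw [h3.2.2, image_singleton, mem_singleton] at a2
        have := B.W.inj p m hp (by omega) a2
        subst this
        exact Or.inr (Or.inr (mk _ h))
    · rintro (h | h | h)
      · have h3 := (B.FT_low hq).1 h
        exact ⟨h3.1, by rw [h3.2.2]; exact (B.W.mem_ed hp hq).2 (by omega)⟩
      · have h3 := (B.FT_upp (B.idx_sub hq)).1 h
        exact ⟨h3.1, by rw [h3.2.2, ← ed_image]; exact (B.W.mem_ed hp hq).2 (by omega)⟩
      · have h3 := (B.FT_upp (B.sing_sub hp)).1 h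
        exact ⟨h3.1, by rw [h3.2.2, image_singleton]; exact mem_singleton_self _⟩
  have n1 : ((true, {q, q + 1}) : Bool × Finset ℕ) ≠ (false, {q, q + 1}) := fun h =>
    Bool.noConfusion (congrArg Prod.fst h)
  have n2 : ((true, {q, q + 1}) : Bool × Finset ℕ) ≠ (false, {p}) := fun h =>
    Bool.noConfusion (congrArg Prod.fst h)
  have n3 : ((false, {q, q + 1}) : Bool × Finset ℕ) ≠ (false, {p}) := fun h => by
    have h3 := congrArg (fun t : Bool × Finset ℕ => t.2.card) h
    simp only [card_idx, card_singleton] at h3
    omega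
  have e2 : (dg i K C (x p) : ℤ) = ((N0 i K C).filter (fun y => x p ∈ nz i y)).card := rfl
  rw [e1, card_union_of_disjoint (disjoint_union_right.2 ⟨FT_disj n1, FT_disj n2⟩),
    card_union_of_disjoint (FT_disj n3), B.cardL hq h1 h2, B.cardU hq h1 h2, hd] at e2
  push_cast at e2
  omega

lemma cardS0 : (FT i K C x m (false, {0})).card + 1 = (uc (x 0)).card := by
  have hm := B.Q.hm
  refine B.cardS (q := 0) (by omega) (by omega) (by omega) (by omega) (by omega) (by omega) ?_
  rw [K9_dg B.Q.toK9 (B.W.mem 0 (by omega)) (B.W.lev_x 0 (by omega)),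
    (B.dc_end (k := 0) (by omega) (by omega)).1, B.Q.uw, B.Q.dv, B.Q.uw', B.Q.dv',
    if_pos (mem_insert_self _ _), if_neg, if_neg, if_neg]
  · push_cast
    ring
  all_goals
    rw [mem_insert, mem_singleton]
    rintro (h | h) <;> exact B.W.ne (by omega) (by omega) (by omega) h

lemma cardSm : (FT i K C x m (false, {m})).card + 1 = (uc (x m)).card := by
  have hm := B.Q.hm
  refine B.cardS (q := m - 1) (by omega) (by omega) (by omega) (by omega) (by omega) (by omega) ?_
  rw [K9_dg B.Q.toK9 (B.W.mem m (by omega)) (B.W.lev_x m (by omega)),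
    (B.dc_end (k := m) (by omega) (by omega)).1, B.Q.uw, B.Q.dv, B.Q.uw', B.Q.dv',
    if_neg, if_neg, if_pos (mem_insert_self _ _), if_neg]
  · push_cast
    ring
  all_goals
    rw [mem_insert, mem_singleton]
    rintro (h | h) <;> exact B.W.ne (by omega) (by omega) (by omega) h

/-- counting a type -/
lemma cnt (t : Bool × Finset ℕ) : ((N0 i K C).val.map (ty i x m)).count t =
    (FT i K C x m t).card := by
  rw [Multiset.count_map]
  unfold FT
  rfl

/-- no elements of other types -/
lemma cnt0 {t : Bool × Finset ℕ} (h1 : ∀ k, k < m → k ≠ 1 → k + 2 ≠ m →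
    t ≠ (true, {k, k + 1}) ∧ t ≠ (false, {k, k + 1})) (h2 : t ≠ (false, {0}))
    (h3 : t ≠ (false, {m})) : ((N0 i K C).val.map (ty i x m)).count t = 0 := by
  rw [Multiset.count_eq_zero]
  intro h
  obtain ⟨y, hy, rfl⟩ := Multiset.mem_map.1 h
  rcases B.types hy with ⟨k, k1, k2, k3, h | h⟩ | h | h
  · exact (h1 k k1 k2 k3).1 h
  · exact (h1 k k1 k2 k3).2 h
  · exact h2 h
  · exact h3 h

end Two

/-- the types of the pairs over the edges in `E` -/
def EL (E : List ℕ) : Multiset (Bool × Finset ℕ) :=
  ((E.flatMap fun k => [((true, {k, k + 1}) : Bool × Finset ℕ), (false, {k, k + 1})]) :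
    List (Bool × Finset ℕ))

lemma count_TL (m : ℕ) (E : List ℕ) (a b : ℕ) (t : Bool × Finset ℕ) :
    Multiset.count t (TL m E a b : Multiset (Bool × Finset ℕ)) =
      Multiset.count t (EL E) + ((if ((false, {0}) : Bool × Finset ℕ) = t then a else 0) +
          (if ((false, {m}) : Bool × Finset ℕ) = t then b else 0)) := by
  have h : (TL m E a b : Multiset (Bool × Finset ℕ)) =
      EL E + (Multiset.replicate a (false, {0}) + Multiset.replicate b (false, {m})) := by
    unfold TL EL
    rw [← Multiset.coe_add, ← Multiset.coe_add, Multiset.coe_replicate, Multiset.coe_replicate]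
  rw [h, Multiset.count_add, Multiset.count_add, Multiset.count_replicate,
    Multiset.count_replicate]

/-- SIX SITES -/
theorem Two.list5 (B : Two r i K psi C w v w' v' x 5) : (N0 i K C).val.map (ty i x 5) =
    (TL 5 [0, 2, 4] ((uc (x 0)).card - 1) ((uc (x 5)).card - 1) :
      Multiset (Bool × Finset ℕ)) := by
  have s0 := B.cardS0
  have sm := B.cardSm
  rw [Multiset.ext]
  intro t
  rw [count_TL]
  by_cases h : t ∈ [((true, {0, 1}) : Bool × Finset ℕ), (false, {0, 1}), (true, {2, 3}),
    (false, {2, 3}), (true, {4, 5}), (false, {4, 5}), (false, {0}), (false, {5})]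
  · simp only [List.mem_cons, List.not_mem_nil, or_false] at h
    rcases h with rfl | rfl | rfl | rfl | rfl | rfl | rfl | rfl
    · rw [B.cnt, B.cardL (k := 0) (by omega) (by omega) (by omega), if_neg (by decide),
        if_neg (by decide)]
      decide
    · rw [B.cnt, B.cardU (k := 0) (by omega) (by omega) (by omega), if_neg (by decide),
        if_neg (by decide)]
      decide
    · rw [B.cnt, B.cardL (k := 2) (by omega) (by omega) (by omega), if_neg (by decide),
        if_neg (by decide)]
      decide
    · rw [B.cnt, B.cardU (k := 2) (by omega) (by omega) (by omega), if_neg (by decide),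
        if_neg (by decide)]
      decide
    · rw [B.cnt, B.cardL (k := 4) (by omega) (by omega) (by omega), if_neg (by decide),
        if_neg (by decide)]
      decide
    · rw [B.cnt, B.cardU (k := 4) (by omega) (by omega) (by omega), if_neg (by decide),
        if_neg (by decide)]
      decide
    · rw [B.cnt, if_pos rfl, if_neg (by decide), add_zero]
      have : Multiset.count ((false, {0}) : Bool × Finset ℕ) (EL [0, 2, 4]) = 0 := by decide
      omega
    · rw [B.cnt, if_neg (by decide), if_pos rfl, zero_add]
      have : Multiset.count ((false, {5}) : Bool × Finset ℕ) (EL [0, 2, 4]) = 0 := by decide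
      omega
  · simp only [List.mem_cons, List.not_mem_nil, or_false, not_or] at h
    obtain ⟨g1, g2, g3, g4, g5, g6, g7, g8⟩ := h
    rw [B.cnt0 ?_ g7 g8, if_neg (Ne.symm g7), if_neg (Ne.symm g8), add_zero, add_zero,
      Multiset.count_eq_zero.2]
    · unfold EL
      rw [Multiset.mem_coe]
      simp only [List.flatMap_cons, List.flatMap_nil, List.mem_append, List.mem_cons,
        List.not_mem_nil, or_false, not_or]
      exact ⟨⟨g1, g2⟩, ⟨g3, g4⟩, g5, g6⟩
    · intro k k1 k2 k3
      obtain rfl | rfl | rfl : k = 0 ∨ k = 2 ∨ k = 4 := by omega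
      · exact ⟨g1, g2⟩
      · exact ⟨g3, g4⟩
      · exact ⟨g5, g6⟩

/-- SEVEN SITES -/
theorem Two.list6 (B : Two r i K psi C w v w' v' x 6) : (N0 i K C).val.map (ty i x 6) =
    (TL 6 [0, 2, 3, 5] ((uc (x 0)).card - 1) ((uc (x 6)).card - 1) :
      Multiset (Bool × Finset ℕ)) := by
  have s0 := B.cardS0
  have sm := B.cardSm
  rw [Multiset.ext]
  intro t
  rw [count_TL]
  by_cases h : t ∈ [((true, {0, 1}) : Bool × Finset ℕ), (false, {0, 1}), (true, {2, 3}),
    (false, {2, 3}), (true, {3, 4}), (false, {3, 4}), (true, {5, 6}), (false, {5, 6}),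
    (false, {0}), (false, {6})]
  · simp only [List.mem_cons, List.not_mem_nil, or_false] at h
    rcases h with rfl | rfl | rfl | rfl | rfl | rfl | rfl | rfl | rfl | rfl
    · rw [B.cnt, B.cardL (k := 0) (by omega) (by omega) (by omega), if_neg (by decide),
        if_neg (by decide)]
      decide
    · rw [B.cnt, B.cardU (k := 0) (by omega) (by omega) (by omega), if_neg (by decide),
        if_neg (by decide)]
      decide
    · rw [B.cnt, B.cardL (k := 2) (by omega) (by omega) (by omega), if_neg (by decide),
        if_neg (by decide)]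
      decide
    · rw [B.cnt, B.cardU (k := 2) (by omega) (by omega) (by omega), if_neg (by decide),
        if_neg (by decide)]
      decide
    · rw [B.cnt, B.cardL (k := 3) (by omega) (by omega) (by omega), if_neg (by decide),
        if_neg (by decide)]
      decide
    · rw [B.cnt, B.cardU (k := 3) (by omega) (by omega) (by omega), if_neg (by decide),
        if_neg (by decide)]
      decide
    · rw [B.cnt, B.cardL (k := 5) (by omega) (by omega) (by omega), if_neg (by decide),
        if_neg (by decide)]
      decide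
    · rw [B.cnt, B.cardU (k := 5) (by omega) (by omega) (by omega), if_neg (by decide),
        if_neg (by decide)]
      decide
    · rw [B.cnt, if_pos rfl, if_neg (by decide), add_zero]
      have : Multiset.count ((false, {0}) : Bool × Finset ℕ) (EL [0, 2, 3, 5]) = 0 := by decide
      omega
    · rw [B.cnt, if_neg (by decide), if_pos rfl, zero_add]
      have : Multiset.count ((false, {6}) : Bool × Finset ℕ) (EL [0, 2, 3, 5]) = 0 := by decide
      omega
  · simp only [List.mem_cons, List.not_mem_nil, or_false, not_or] at h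
    obtain ⟨g1, g2, g3, g4, g5, g6, g7, g8, g9, g10⟩ := h
    rw [B.cnt0 ?_ g9 g10, if_neg (Ne.symm g9), if_neg (Ne.symm g10), add_zero, add_zero,
      Multiset.count_eq_zero.2]
    · unfold EL
      rw [Multiset.mem_coe]
      simp only [List.flatMap_cons, List.flatMap_nil, List.mem_append, List.mem_cons,
        List.not_mem_nil, or_false, not_or]
      exact ⟨⟨g1, g2⟩, ⟨g3, g4⟩, ⟨g5, g6⟩, g7, g8⟩
    · intro k k1 k2 k3
      obtain rfl | rfl | rfl | rfl : k = 0 ∨ k = 2 ∨ k = 3 ∨ k = 5 := by omega
      · exact ⟨g1, g2⟩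
      · exact ⟨g3, g4⟩
      · exact ⟨g5, g6⟩
      · exact ⟨g7, g8⟩

end Pool.Agent.GaussPoset.Win.Si
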