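import Pool.Agent.W_448p_h97.PbQ

/-!
MP_448cb3_co, G2, case B, window `j`: the sum over the natural cores of energy two with one label on each
star, when every pendant is disjoint from one of the stars (the proofs of helper97's `PbO`, `PbP`).
helper74.
-/

namespace Pool.Agent.GaussPoset.Win.Si

set_option linter.unusedSectionVars false

open Finset W4 Pa Pb
open Pool.Agent.GaussPoset.Win.So (IV IV_chi IV_Fe)
open Pool.Agent.GaussPoset.Win.SO (PN vp con on con_sub mem_PN)

universe u

variable {P : Type u} [Fintype P] [PartialOrder P] [DecidableEq P] {r i : ℕ}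
variable {e f : P → ℕ} {psi : P → P} {C K : Finset P} {w v w' v' : P}

/-- every pendant is disjoint from one of the two stars -/
def Wk (i : ℕ) (C : Finset P) (w v w' v' : P) : Prop := ∀ p ∈ PN i C,
  Disjoint (sit i p) (nz i w ∪ nz i v) ∨ Disjoint (sit i p) (nz i w' ∪ nz i v')

/-- a labelled far element below the window, next to a labelled near element -/
lemma far_low (H : Gr P r) (hs : Spt C e) (hA : AdmL i e) {f g : P}
    (hf : f ∈ near P i) (h2 : (nz i f).card = 2)
    (he : e = Pi.single f 1 + Pi.single g 1) (hg : lev g = i + 2) :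
    g ∈ PN i C ∧ sit i g = nz i f := by
  have hgf : g ≠ f := by
    rintro rfl
    have := mem_near.1 hf
    omega
  have eg : e g = 1 := by
    rw [he, Pi.add_apply, Pi.single_eq_same, Pi.single_eq_of_ne hgf]
  have hgC : g ∈ C := by
    by_contra h
    have := hs g h
    omega
  have hne : (uc g).Nonempty := uc_nonempty H (by omega)
  have key : ∀ y ∈ uc g, y = f := by
    intro y hy
    by_contra hyf
    have hl := lev_cov H (mem_uc.1 hy)
    have hyg : y ≠ g := by
      rintro rfl
      omega
    have e0 : e y = 0 := by
      rw [he, Pi.add_apply, Pi.single_eq_of_ne hyf, Pi.single_eq_of_ne hyg, add_zero]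
    obtain ⟨z, hz⟩ := uc_nonempty (x := y) H (by omega)
    exact hA y (by omega) ⟨⟨g, mem_uc.1 hy, by omega⟩, z, mem_uc.1 hz, by omega⟩
  have hu : uc g = {f} := by
    obtain ⟨y, hy⟩ := hne
    have := key y hy
    subst this
    ext z
    rw [mem_singleton]
    exact ⟨key z, fun h => by rw [h]; exact hy⟩
  have hlf : lev f = i + 1 := by
    have := lev_cov H (mem_uc.1 (by rw [hu]; exact mem_singleton_self f : f ∈ uc g))
    omega
  have hp : g ∈ PN i C := by
    refine mem_PN.2 ⟨hgC, Or.inl (mem_PD.2 ⟨hg, by rw [hu, card_singleton], f, ?_, ?_⟩)⟩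
    · exact mem_uc.1 (by rw [hu]; exact mem_singleton_self f)
    · rw [← nz_low hlf, h2]
  refine ⟨hp, ?_⟩
  obtain ⟨-, y, -, -, hnz, -, -, h⟩ := PN_dat H hp
  rcases h with ⟨-, -, -, h3, -⟩ | ⟨-, h3, -⟩
  · rw [hu, singleton_inj] at h3
    rw [← hnz, h3]
  · omega

/-- a labelled far element above the window, next to a labelled near element -/
lemma far_upp (H : Gr P r) (hir : i ≤ r) (hs : Spt C e) (hA : AdmU i e)
    {f g : P} (hf : f ∈ near P i) (h2 : (nz i f).card = 2)
    (he : e = Pi.single f 1 + Pi.single g 1) (hg : lev g + 2 = i) :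
    g ∈ PN i C ∧ sit i g = nz i f := by
  have hgf : g ≠ f := by
    rintro rfl
    have := mem_near.1 hf
    omega
  have eg : e g = 1 := by
    rw [he, Pi.add_apply, Pi.single_eq_same, Pi.single_eq_of_ne hgf]
  have hgC : g ∈ C := by
    by_contra h
    have := hs g h
    omega
  have hne : (dc g).Nonempty := dc_nonempty H (by omega)
  have key : ∀ y ∈ dc g, y = f := by
    intro y hy
    by_contra hyf
    have hl := lev_cov H (mem_dc.1 hy)
    have hyg : y ≠ g := by
      rintro rfl
      omega
    have e0 : e y = 0 := by
      rw [he, Pi.add_apply, Pi.single_eq_of_ne hyf, Pi.single_eq_of_ne hyg, add_zero]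
    obtain ⟨z, hz⟩ := dc_nonempty (x := y) H (by omega)
    exact hA y (by omega) ⟨⟨g, mem_dc.1 hy, by omega⟩, z, mem_dc.1 hz, by omega⟩
  have hu : dc g = {f} := by
    obtain ⟨y, hy⟩ := hne
    have := key y hy
    subst this
    ext z
    rw [mem_singleton]
    exact ⟨key z, fun h => by rw [h]; exact hy⟩
  have hlf : lev f + 1 = i := by
    have := lev_cov H (mem_dc.1 (by rw [hu]; exact mem_singleton_self f : f ∈ dc g))
    omega
  have hp : g ∈ PN i C := by
    refine mem_PN.2 ⟨hgC, Or.inr (mem_PU.2 ⟨hg, by rw [hu, card_singleton], f, ?_, ?_⟩)⟩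
    · exact mem_dc.1 (by rw [hu]; exact mem_singleton_self f)
    · rw [← nz_upp hlf, h2]
  refine ⟨hp, ?_⟩
  obtain ⟨-, y, -, -, hnz, -, -, h⟩ := PN_dat H hp
  rcases h with ⟨-, h3, -⟩ | ⟨-, -, -, h3, -⟩
  · omega
  · rw [hu, singleton_inj] at h3
    rw [← hnz, h3]

section

variable {a b c a' b' c' : P} (Q : K9c r i K psi C w v w' v' a b c a' b' c')
include Q

/-- a label at the left star and one at the right star: two sites -/
lemma two_sites (D : Wk i C w v w' v') (he : e ∈ Co i K psi C 2) (hA : AdmL i e) (hB : AdmU i e)
    (hL : DD i e w v ≠ 0) (hR : DD i e w' v' ≠ 0) : ∃ y ∈ nz i w ∪ nz i v,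
      ∃ y' ∈ nz i w' ∪ nz i v', e = Pi.single y 1 + Pi.single y' 1 := by
  classical
  obtain ⟨hE, hs, hc⟩ := mem_Co.1 he
  have hdd := dLR' Q
  obtain ⟨f, hf, hef⟩ : ∃ f, NL i (nz i w ∪ nz i v) f ∧ e f ≠ 0 := by
    by_contra hcon
    push Not at hcon
    exact hL (DD_L Q rfl hcon)
  obtain ⟨f', hf', hef'⟩ : ∃ f, NL i (nz i w' ∪ nz i v') f ∧ e f ≠ 0 := by
    by_contra hcon
    push Not at hcon
    exact hR (DD_L Q.sym rfl hcon)
  have lf : lev f = i ∨ f ∈ near P i := by
    rcases hf with h | h
    · exact Or.inl (lvL Q h)
    · exact Or.inr h.1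
  have lf' : lev f' = i ∨ f' ∈ near P i := by
    rcases hf' with h | h
    · exact Or.inl (lvL Q.sym h)
    · exact Or.inr h.1
  -- if all labels are on sites and near elements, then no near element has a label
  have hall : (∀ z, 0 < e z → lev z = i ∨ z ∈ near P i) → ∀ x ∈ near P i, e x = 0 := by
    intro key
    have hT : ∀ x, x ∉ Tch i e := by
      intro x hx
      rw [mem_Tch] at hx
      rcases hx with ⟨h1, z, hz, hz'⟩ | ⟨h1, z, hz, hz'⟩
      · have hl := lev_cov Q.H hz
        rcases key z hz' with h | h
        · omega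
        · have := mem_near.1 h
          omega
      · have hl := lev_cov Q.H hz
        rcases key z hz' with h | h
        · omega
        · have := mem_near.1 h
          omega
    exact fun x hx => hc x (mem_Rst.2 ⟨hx, notMem_empty x, hT x, fun h => hT _ h.2⟩)
  have hne : f ≠ f' := by
    rintro rfl
    -- `f` is a near element at both stars
    have hfn : f ∈ near P i ∧ ¬ Disjoint (nz i f) (nz i w ∪ nz i v) ∧
        ¬ Disjoint (nz i f) (nz i w' ∪ nz i v') := by
      rcases hf with h | h
      · rcases hf' with h' | h'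
        · exact absurd h' (disjoint_left.1 hdd h)
        · have := lvL Q h
          have := mem_near.1 h'.1
          omega
      · rcases hf' with h' | h'
        · have := lvL Q.sym h'
          have := mem_near.1 h.1
          omega
        · exact ⟨h.1, h.2, h'.2⟩
    obtain ⟨n1, n2, n3⟩ := hfn
    have hcard : (nz i f).card = 2 := by
      obtain ⟨y, hy, hy'⟩ := not_disjoint_iff.1 n2
      obtain ⟨z, hz, hz'⟩ := not_disjoint_iff.1 n3
      have hyz : y ≠ z := by
        rintro rfl
        exact disjoint_left.1 hdd hy' hz'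
      have h1 : 2 ≤ (nz i f).card := by
        rw [← card_pair hyz]
        refine card_le_card ?_
        intro t ht
        rw [mem_insert, mem_singleton] at ht
        rcases ht with rfl | rfl
        · exact hy
        · exact hz
      have h2 : (nz i f).card ≤ 2 := by
        rcases mem_near.1 n1 with h | h
        · rw [nz_low h]; exact uc_card_le Q.H f
        · rw [nz_upp h]; exact dc_card_le Q.H f
      omega
    -- a far element has a label
    obtain ⟨g, hg, hgl, hgn⟩ : ∃ g, 0 < e g ∧ lev g ≠ i ∧ g ∉ near P i := by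
      by_contra hcon
      push Not at hcon
      refine hef (hall (fun z hz => ?_) f n1)
      by_cases h : lev z = i
      · exact Or.inl h
      · exact Or.inr (hcon z hz h)
    have hfg : f ≠ g := by
      rintro rfl
      exact hgn n1
    have heq := two_eq hfg (by omega) (by omega) hE
    -- `f` is touched or its partner is
    have hg2 : lev g = i + 2 ∨ lev g + 2 = i := by
      by_contra hcon
      have hT : ∀ x, x ∉ Tch i e := by
        intro x hx
        rw [mem_Tch] at hx
        have key : ∀ z, 0 < e z → z = f ∨ z = g := by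
          intro z hz
          rw [heq, Pi.add_apply] at hz
          by_cases h1 : z = f
          · exact Or.inl h1
          · by_cases h2 : z = g
            · exact Or.inr h2
            · rw [Pi.single_eq_of_ne h1, Pi.single_eq_of_ne h2] at hz
              omega
        have hnf := mem_near.1 n1
        rcases hx with ⟨h1, z, hz, hz'⟩ | ⟨h1, z, hz, hz'⟩
        · have hl := lev_cov Q.H hz
          rcases key z hz' with rfl | rfl
          · omega
          · omega
        · have hl := lev_cov Q.H hz
          rcases key z hz' with rfl | rfl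
          · omega
          · omega
      exact hef (hc f (mem_Rst.2 ⟨n1, notMem_empty f, hT f, fun h => hT _ h.2⟩))
    have hend : g ∈ PN i C ∧ sit i g = nz i f := by
      rcases hg2 with h | h
      · exact far_low Q.H hs hA n1 hcard heq h
      · exact far_upp Q.H Q.hir hs hB n1 hcard heq h
    rcases D g hend.1 with h | h
    · exact n2 (by rw [← hend.2]; exact h)
    · exact n3 (by rw [← hend.2]; exact h)
  have heq := two_eq hne (by omega) (by omega) hE
  have hcore : ∀ x ∈ near P i, e x = 0 := by
    refine hall fun z hz => ?_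
    rw [heq, Pi.add_apply] at hz
    by_cases h1 : z = f
    · rw [h1]; exact lf
    · by_cases h2 : z = f'
      · rw [h2]; exact lf'
      · rw [Pi.single_eq_of_ne h1, Pi.single_eq_of_ne h2] at hz
        omega
  refine ⟨f, ?_, f', ?_, heq⟩
  · rcases hf with h | h
    · exact h
    · exact absurd (hcore f h.1) hef
  · rcases hf' with h | h
    · exact h
    · exact absurd (hcore f' h.1) hef'

variable (D : Wk i C w v w' v')
include D

/-- the value of a pendant -/
lemma pend {p : P} (hp : p ∈ PN i C) :
    lc (st i C).card 2 (J9 i K psi C w v w' v' (on (con i p)) 1 1 0) =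
      vp i p * NN i w v p * oo i C w' v' + vp i p * NN i w' v' p * oo i C w v := by
  by_cases hd : Disjoint (sit i p) (nz i w' ∪ nz i v')
  · rw [pend_R Q hp hd, NN_zero Q hd]
    ring
  · have hd2 : Disjoint (sit i p) (nz i w ∪ nz i v) := by
      rcases D p hp with h | h
      · exact h
      · exact absurd h hd
    rw [J9_sym, pend_R Q.sym hp hd2, NN_zero Q.sym hd2]
    ring

end

end Pool.Agent.GaussPoset.Win.Si
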