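import Pool.Agent.W_448six_h74.SiG

/-!
MP_448cb3_co, G2, case B, window `j`: the mixed terms at (4,2) of a component with two stars, when every
pendant is disjoint from one of the stars (the proofs of helper97's `PbP`, `PbQ`).  helper74.
-/

namespace Pool.Agent.GaussPoset.Win.Si

set_option linter.unusedSectionVars false

open Finset W4 Pa Pb
open Pool.Agent.GaussPoset.Win.So (IV IV_chi IV_Fe)
open Pool.Agent.GaussPoset.Win.SO (PN vp con on con_sub mem_PN)

universe u

variable {P : Type u} [Fintype P] [PartialOrder P] [DecidableEq P] {r i : ℕ}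
variable {e f : P → ℕ} {psi : P → P} {C K : Finset P} {w v w' v' : P}

section

variable {a b c a' b' c' : P} (Q : K9c r i K psi C w v w' v' a b c a' b' c')
include Q

/-- the empty core, nothing on the free elements -/
lemma L0m {n1 n2 : ℕ} (hn2 : n2 ≠ 0) :
    lc (st i C).card 2 (J9 i K psi C w v w' v' (0 : P → ℕ) n1 n2 0) = 0 := by
  have hS0 : Sc i (0 : P → ℕ) := fun _ _ => rfl
  have h := (J_iso_R Q hS0 (fun _ _ => rfl) n1 hn2).1
  rw [bt_zero Q rfl] at h
  exact lc_lt (by have := rk_le_one Q n1; omega) h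

variable (D : Wk i C w v w' v')
include D

/-- ENERGY TWO -/
theorem S2_110 : ∑ e ∈ Co i K psi C 2, lc (st i C).card 2 (J9 i K psi C w v w' v' e 1 1 0) =
    oo i C w' v' * ∑ p ∈ PN i C, vp i p * NN i w v p +
      oo i C w v * ∑ p ∈ PN i C, vp i p * NN i w' v' p := by
  classical
  obtain ⟨T, hT⟩ : ∃ T : Finset (P → ℕ), T = ((nz i w ∪ nz i v) ×ˢ (nz i w' ∪ nz i v')).image
      (fun q => (Pi.single q.1 1 + Pi.single q.2 1 : P → ℕ)) := ⟨_, rfl⟩
  have memT : ∀ e, e ∈ T ↔ ∃ y ∈ nz i w ∪ nz i v, ∃ y' ∈ nz i w' ∪ nz i v',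
      e = Pi.single y 1 + Pi.single y' 1 := by
    intro e
    rw [hT, mem_image]
    constructor
    · rintro ⟨⟨y, y'⟩, hq, rfl⟩
      rw [mem_product] at hq
      exact ⟨y, hq.1, y', hq.2, rfl⟩
    · rintro ⟨y, hy, y', hy', rfl⟩
      exact ⟨(y, y'), mem_product.2 ⟨hy, hy'⟩, rfl⟩
  have hst := stR Q.sym
  have hst' := stR Q
  have inC : ∀ y ∈ nz i w ∪ nz i v, y ∈ C := by
    intro y hy
    rcases mem_union.1 hy with h | h
    · exact (mem_st.1 (hst.1 h)).1
    · exact (mem_st.1 (hst.2 h)).1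
  have inC' : ∀ y ∈ nz i w' ∪ nz i v', y ∈ C := by
    intro y hy
    rcases mem_union.1 hy with h | h
    · exact (mem_st.1 (hst'.1 h)).1
    · exact (mem_st.1 (hst'.2 h)).1
  have TSc : ∀ e ∈ T, Sc i e ∧ Spt C e ∧ ∑ x, e x = 2 := by
    intro e he
    obtain ⟨y, hy, y', hy', rfl⟩ := (memT e).1 he
    have a1 := Q.sing y (lvL Q hy) (inC y hy)
    have a2 := Q.sing y' (lvL Q.sym hy') (inC' y' hy')
    refine ⟨Sc_add a1.1 a2.1, ?_, ?_⟩
    · intro x hx
      rw [Pi.add_apply, a1.2.1 x hx, a2.2.1 x hx]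
    · simp only [Pi.add_apply]
      rw [sum_add_distrib, sum_pi_single' y 1 univ, sum_pi_single' y' 1 univ]
      simp
  have Tsub : T ⊆ Co i K psi C 2 := by
    intro e he
    obtain ⟨h1, h2, h3⟩ := TSc e he
    exact mem_Co.2 ⟨h3, h2, h1.core Q.H⟩
  -- the sum over the pairs of sites
  have sT : ∑ e ∈ T, DD i e w v * DD i e w' v' = 0 := by
    rw [hT, sum_image, sum_product]
    · have key : ∀ y ∈ nz i w ∪ nz i v, ∑ y' ∈ nz i w' ∪ nz i v',
          DD i (Pi.single y 1 + Pi.single y' 1 : P → ℕ) w v *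
            DD i (Pi.single y 1 + Pi.single y' 1 : P → ℕ) w' v' =
          DD i (Pi.single y 1 : P → ℕ) w v *
            ∑ y' ∈ nz i w' ∪ nz i v', DD i (Pi.single y' 1 : P → ℕ) w' v' := by
        intro y hy
        rw [mul_sum]
        refine sum_congr rfl fun y' hy' => ?_
        rw [DD_two Q (lvL Q hy) hy', add_comm (Pi.single y 1 : P → ℕ) (Pi.single y' 1),
          DD_two Q.sym (lvL Q.sym hy') hy]
      refine (sum_congr rfl key).trans ?_
      rw [← sum_mul, DD_sum3 Q, zero_mul]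
    · rintro ⟨y, y'⟩ hq ⟨z, z'⟩ hq' h
      rw [mem_coe, mem_product] at hq hq'
      simp only at h hq hq'
      have hd := dLR' Q
      have n1 : y ≠ z' := fun h' => disjoint_left.1 hd hq.1 (by rw [h']; exact hq'.2)
      have n2 : z ≠ y' := fun h' => disjoint_left.1 hd hq'.1 (by rw [h']; exact hq.2)
      have e1 := congrFun h y
      have e2 := congrFun h y'
      rw [Pi.add_apply, Pi.add_apply, Pi.single_eq_same, Pi.single_eq_of_ne n1] at e1
      rw [Pi.add_apply, Pi.add_apply, Pi.single_eq_same,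
        Pi.single_eq_of_ne (M := fun _ => ℕ) (i := z) (i' := y') n2.symm] at e2
      have f1 : y = z := by
        by_contra hne
        rw [Pi.single_eq_of_ne hne] at e1
        omega
      have f2 : y' = z' := by
        by_contra hne
        rw [Pi.single_eq_of_ne hne] at e2
        omega
      rw [f1, f2]
  have h1 := Q.sum2 (fun e => lc (st i C).card 2 (J9 i K psi C w v w' v' e 1 1 0) -
    if e ∈ T then DD i e w v * DD i e w' v' else 0) (by
      intro e hs hch hc hE
      show lc (st i C).card 2 (J9 i K psi C w v w' v' e 1 1 0) -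
        (if e ∈ T then DD i e w v * DD i e w' v' else 0) = 0
      have ho : od (st i C).card 0 (tC i C e) := SO.dvd_up (SO.cheap_dvd Q.H Q.hC hs hch)
      have h2 := Q.J110 hc hs ho
      rw [zero_add] at h2
      by_cases hT : e ∈ T
      · rw [h2, if_pos hT, ((TSc e hT).1.val (C := C) Q.H Q.hi Q.hi2).2.2.2.2.2]
        ring
      · rw [if_neg hT]
        by_cases hadm : AdmL i e ∧ AdmU i e ∧ Disjoint (AL i e) (AU i e)
        · rw [h2]
          by_cases hL : DD i e w v = 0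
          · rw [hL]; ring
          by_cases hR : DD i e w' v' = 0
          · rw [hR]; ring
          exact absurd ((memT e).2 (two_sites Q D (mem_Co.2 ⟨hE, hs, hc⟩) hadm.1 hadm.2.1 hL hR)) hT
        · rw [Q.bad hadm, lc_zero, sub_zero])
  rw [sum_sub_distrib] at h1
  have h2 : ∑ e ∈ Co i K psi C 2, (if e ∈ T then DD i e w v * DD i e w' v' else 0) = 0 := by
    rw [← sum_filter, (filter_mem_eq_inter : (Co i K psi C 2).filter (fun e => e ∈ T) = _),
      inter_eq_right.2 Tsub, sT]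
  rw [h2, sub_zero] at h1
  rw [h1]
  have h3 : ∀ p ∈ PN i C, (fun e => lc (st i C).card 2 (J9 i K psi C w v w' v' e 1 1 0) -
      if e ∈ T then DD i e w v * DD i e w' v' else 0) (on (con i p)) =
      vp i p * NN i w v p * oo i C w' v' + vp i p * NN i w' v' p * oo i C w v := by
    intro p hp
    have hnT : on (con i p) ∉ T := by
      intro h
      obtain ⟨y, hy, y', hy', h'⟩ := (memT _).1 h
      have h4 := congrFun h' y
      rw [pd_site Q.H hp (lvL Q hy), Pi.add_apply, Pi.single_eq_same] at h4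
      omega
    show lc (st i C).card 2 (J9 i K psi C w v w' v' (on (con i p)) 1 1 0) -
      (if on (con i p) ∈ T then _ else 0) = _
    rw [if_neg hnT, sub_zero, pend Q D hp]
  rw [sum_congr rfl h3, sum_add_distrib, ← sum_mul, ← sum_mul]
  ring

/-- THE MIXED TERMS at (4,2), in terms of the three numbers with labels on the free elements -/
theorem ZLR_gen : lc (st i C).card 2 (ZLR i K psi C w v w' v' 4) =
    lc (st i C).card 2 (J9 i K psi C w v w' v' (0 : P → ℕ) 1 1 2) +
      2 * lc (st i C).card 2 (J9 i K psi C w v w' v' (0 : P → ℕ) 1 1 1) +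
      ∑ e ∈ Co i K psi C 1, lc (st i C).card 2 (J9 i K psi C w v w' v' e 1 1 1) +
      oo i C w' v' * (∑ p ∈ PN i C, vp i p * NN i w v p - 1) +
      oo i C w v * (∑ p ∈ PN i C, vp i p * NN i w' v' p - 1) := by
  rw [lc_ZLR Q, sum_range_succ, sum_range_succ, sum_range_succ, sum_range_succ, sum_range_one]
  have h0 : ∑ e ∈ Co i K psi C 0, ∑ p ∈ antidiagonal (4 - 0), ∑ t ∈ antidiagonal p.2,
      (if p.1 ≠ 0 ∧ t.1 ≠ 0 then
        lc (st i C).card 2 (J9 i K psi C w v w' v' e p.1 t.1 t.2) else 0) =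
      lc (st i C).card 2 (J9 i K psi C w v w' v' (0 : P → ℕ) 1 1 2) +
      2 * lc (st i C).card 2 (J9 i K psi C w v w' v' (0 : P → ℕ) 1 1 1) := by
    rw [Co_zero Q.H, sum_singleton, Nat.sub_zero,
      tri4 (fun x y z => lc (st i C).card 2 (J9 i K psi C w v w' v' (0 : P → ℕ) x y z)),
      Q.J0_120, Q.J0_210, L0m Q (by norm_num), L0m Q two_ne_zero, L0m Q one_ne_zero]
    ring
  have h1 : ∑ e ∈ Co i K psi C 1, ∑ p ∈ antidiagonal (4 - 1), ∑ t ∈ antidiagonal p.2,
      (if p.1 ≠ 0 ∧ t.1 ≠ 0 then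
        lc (st i C).card 2 (J9 i K psi C w v w' v' e p.1 t.1 t.2) else 0) =
      ∑ e ∈ Co i K psi C 1, lc (st i C).card 2 (J9 i K psi C w v w' v' e 1 1 1)
        - oo i C w v - oo i C w' v' := by
    rw [sum_congr rfl fun e _ => tri3
      (fun x y z => lc (st i C).card 2 (J9 i K psi C w v w' v' e x y z)), sum_add_distrib,
      sum_add_distrib, S1_210 Q]
    have h2 : ∑ e ∈ Co i K psi C 1, lc (st i C).card 2 (J9 i K psi C w v w' v' e 1 2 0) =
        - oo i C w v := by
      rw [← S1_210 Q.sym]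
      exact sum_congr rfl fun e _ => by rw [J9_sym]
    rw [h2]
    ring
  have h2 : ∑ e ∈ Co i K psi C 2, ∑ p ∈ antidiagonal (4 - 2), ∑ t ∈ antidiagonal p.2,
      (if p.1 ≠ 0 ∧ t.1 ≠ 0 then
        lc (st i C).card 2 (J9 i K psi C w v w' v' e p.1 t.1 t.2) else 0) =
      oo i C w' v' * ∑ p ∈ PN i C, vp i p * NN i w v p +
      oo i C w v * ∑ p ∈ PN i C, vp i p * NN i w' v' p := by
    rw [sum_congr rfl fun e _ => tri2
      (fun x y z => lc (st i C).card 2 (J9 i K psi C w v w' v' e x y z)), S2_110 Q D]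
  have h3 : ∑ e ∈ Co i K psi C 3, ∑ p ∈ antidiagonal (4 - 3), ∑ t ∈ antidiagonal p.2,
      (if p.1 ≠ 0 ∧ t.1 ≠ 0 then
        lc (st i C).card 2 (J9 i K psi C w v w' v' e p.1 t.1 t.2) else 0) = 0 :=
    sum_eq_zero fun e _ => tri1 (fun x y z => lc (st i C).card 2 (J9 i K psi C w v w' v' e x y z))
  have h4 : ∑ e ∈ Co i K psi C 4, ∑ p ∈ antidiagonal (4 - 4), ∑ t ∈ antidiagonal p.2,
      (if p.1 ≠ 0 ∧ t.1 ≠ 0 then
        lc (st i C).card 2 (J9 i K psi C w v w' v' e p.1 t.1 t.2) else 0) = 0 :=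
    sum_eq_zero fun e _ => tri0 (fun x y z => lc (st i C).card 2 (J9 i K psi C w v w' v' e x y z))
  rw [h0, h1, h2, h3, h4]
  ring

end

end Pool.Agent.GaussPoset.Win.Si
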