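import Pool.Agent.W_448six_h74.SiF
import Pool.Agent.W_448six_h74.SiH

/-!
MP_448cb3_co, G2, case B, window `j`: THE MIXED TERMS at (4,2) of a row with two stars, for every number of
sites.  helper74.
-/

namespace Pool.Agent.GaussPoset.Win.Si

set_option linter.unusedSectionVars false

open Finset W4 Pa Pb
open Pool.Agent.GaussPoset.Win.So (IV IV_chi IV_Fe)
open Pool.Agent.GaussPoset.Win.SO (PN vp)

universe u

variable {P : Type u} [Fintype P] [PartialOrder P] [DecidableEq P] {r i : ℕ}
variable {e f : P → ℕ} {psi : P → P} {C K : Finset P} {w v w' v' : P}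
variable {x : ℕ → P} {m : ℕ}

namespace Two

variable (B : Two r i K psi C w v w' v' x m)
include B

/-- every pendant is disjoint from one of the stars -/
lemma wk : Wk i C w v w' v' := by
  have hm := B.Q.hm
  intro p hp
  obtain ⟨t, ht, hs⟩ := B.Q.pn hp
  have hs' : sit i p = ed x t := hs
  have eL : nz i w ∪ nz i v = ed x 0 ∪ ed x 1 := by
    rw [B.Q.nzw, B.Q.nzv]; rfl
  have eR : nz i w' ∪ nz i v' = ed x (m - 1) ∪ ed x (m - 2) := by
    rw [B.Q.nzw', B.Q.nzv']
    unfold ed
    rw [show m - 1 + 1 = m by omega, show m - 2 + 1 = m - 1 by omega, pair_comm (x m),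
      pair_comm (x (m - 1)) (x (m - 2))]
  rw [eL, eR, hs', disjoint_union_right, disjoint_union_right, B.W.disj_ed ht (by omega),
    B.W.disj_ed ht (by omega), B.W.disj_ed ht (by omega), B.W.disj_ed ht (by omega)]
  by_cases h : m = 5 ∧ t = 2
  · exact absurd (by rw [hs, h.2]) (B.Q.mid h.1 p hp)
  · omega

lemma dc_two : (dc (x 2)).card = 1 := by
  have hm := B.Q.hm
  have h1 := B.W.deg (k := 2) (by omega)
  rw [sum_eq_single 3] at h1
  · have e : dk m 2 = 1 := by unfold dk; rw [if_neg (by omega), if_neg (by omega)]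
    rw [B.dns (by omega) (by omega) (by omega), if_pos (by omega), e,
      B.pen_zero (by omega), card_empty] at h1
    omega
  · intro l hl hne
    rw [mem_erase, mem_range] at hl
    rw [B.dns (by omega) (by omega) (Ne.symm hl.1)]
    unfold dk
    split_ifs <;> omega
  · intro h2
    exact absurd (mem_erase.2 ⟨by omega, mem_range.2 (by omega)⟩) h2

lemma dc_two' : (dc (x (m - 2))).card = 1 := by
  have hm := B.Q.hm
  have h1 := B.W.deg (k := m - 2) (by omega)
  rw [sum_eq_single (m - 3)] at h1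
  · have e : dk m (m - 3) = 1 := by unfold dk; rw [if_neg (by omega), if_neg (by omega)]
    rw [B.dns (by omega) (by omega) (by omega), if_neg (by omega), if_pos (by omega), e,
      B.pen_zero (by omega), card_empty] at h1
    omega
  · intro l hl hne
    rw [mem_erase, mem_range] at hl
    rw [B.dns (by omega) (by omega) (Ne.symm hl.1)]
    unfold dk
    split_ifs <;> omega
  · intro h2
    exact absurd (mem_erase.2 ⟨by omega, mem_range.2 (by omega)⟩) h2

lemma mem4 {k : ℕ} (hk : k ≤ m) :
    (x k ∈ uc w ↔ k = 0 ∨ k = 1) ∧ (x k ∈ dc v ↔ k = 1 ∨ k = 2) ∧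
      (x k ∈ uc w' ↔ k = m ∨ k = m - 1) ∧ (x k ∈ dc v' ↔ k = m - 1 ∨ k = m - 2) := by
  have hm := B.Q.hm
  have key : ∀ a b, a ≤ m → b ≤ m → (x k ∈ ({x a, x b} : Finset P) ↔ k = a ∨ k = b) := by
    intro a b ha hb
    rw [mem_insert, mem_singleton]
    constructor
    · rintro (h | h)
      · exact Or.inl (B.W.inj k a hk ha h)
      · exact Or.inr (B.W.inj k b hk hb h)
    · rintro (h | h)
      · exact Or.inl (by rw [h])
      · exact Or.inr (by rw [h])
  rw [B.Q.uw, B.Q.dv, B.Q.uw', B.Q.dv']
  exact ⟨key 0 1 (by omega) (by omega), key 1 2 (by omega) (by omega),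
    key m (m - 1) (by omega) (by omega), key (m - 1) (m - 2) (by omega) (by omega)⟩

lemma dgx {k : ℕ} (hk : k ≤ m) : dg i K C (x k) = ((dc (x k)).card : ℤ) + (uc (x k)).card
      - (if k = 0 ∨ k = 1 then 1 else 0) - (if k = 1 ∨ k = 2 then 1 else 0)
      - (if k = m ∨ k = m - 1 then 1 else 0) - (if k = m - 1 ∨ k = m - 2 then 1 else 0) := by
  obtain ⟨h1, h2, h3, h4⟩ := B.mem4 hk
  rw [K9_dg B.Q.toK9 (B.W.mem k hk) (B.W.lev_x k hk)]
  simp only [h1, h2, h3, h4]

lemma mme {k : ℕ} (hk : k < m) : W4.mm i K C {x k, x (k + 1)} =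
    if k = 1 ∨ k + 2 = m then 0 else 1 := by
  have hm := B.Q.hm
  rw [K9_mm B.Q.toK9 (B.W.mem k (by omega)) (B.W.lev_x k (by omega))
    (B.W.ne (a := k) (b := k + 1) (by omega) (by omega) (by omega))]
  have e3 : (uc w = {x k, x (k + 1)}) ↔ k = 0 := by
    rw [B.Q.uw]
    constructor
    · intro h
      exact (B.W.ed_inj (k := 0) (l := k) (by omega) hk h).symm
    · rintro rfl
      rfl
  have e4 : (uc w' = {x k, x (k + 1)}) ↔ k + 1 = m := by
    rw [B.Q.uw', pair_comm]
    constructor
    · intro h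
      have h3 : ed x (m - 1) = ed x k := by
        unfold ed
        rw [show m - 1 + 1 = m by omega]
        exact h
      have := B.W.ed_inj (by omega) hk h3
      omega
    · intro h
      rw [show m - 1 = k by omega, ← h]
  rw [B.hd k (k + 1) (by omega) (by omega), if_pos rfl]
  simp only [e3, e4]
  unfold dk
  split_ifs <;> omega

/-- the value of the left star -/
lemma qqL : qq i K psi C w v = (uc (x 0)).card - 2 := by
  have hm := B.Q.hm
  rw [qq_val B.Q.toK9c, B.dgx (k := 0) (by omega), B.dgx (k := 2) (by omega), B.dc_two,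
    (B.dc_end (k := 0) (by omega) (by omega)).1, B.W.uc_inner (k := 2) (by omega) (by omega),
    B.mme (k := 0) (by omega), B.mme (k := 1) (by omega)]
  rw [if_pos (by omega), if_neg (by omega), if_neg (by omega), if_neg (by omega),
    if_neg (by omega), if_pos (by omega), if_neg (by omega), if_neg (by omega),
    if_neg (by omega), if_pos (by omega)]
  push_cast
  ring

/-- the value of the right star -/
lemma qqR : qq i K psi C w' v' = (uc (x m)).card - 2 := by
  have hm := B.Q.hm
  have e1 := B.mme (k := m - 1) (by omega)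
  have e2 := B.mme (k := m - 2) (by omega)
  rw [show m - 1 + 1 = m by omega, pair_comm] at e1
  rw [show m - 2 + 1 = m - 1 by omega, pair_comm] at e2
  rw [qq_val B.Q.toK9c.sym, B.dgx (k := m) (by omega), B.dgx (k := m - 2) (by omega), B.dc_two',
    (B.dc_end (k := m) (by omega) (by omega)).1,
    B.W.uc_inner (k := m - 2) (by omega) (by omega), e1, e2]
  rw [if_neg (by omega), if_neg (by omega), if_pos (by omega), if_neg (by omega),
    if_neg (by omega), if_neg (by omega), if_neg (by omega), if_pos (by omega),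
    if_neg (by omega), if_pos (by omega)]
  push_cast
  ring

/-- the pendants -/
lemma sumN : ∑ p ∈ PN i C, vp i p * NN i w v p = Pa.dl i C x 2 ∧
    ∑ p ∈ PN i C, vp i p * NN i w' v' p = Pa.dl i C x (m - 3) := by
  unfold Pa.dl
  constructor
  · exact sum_congr rfl fun p hp => by rw [B.Q.NL hp, mul_comm]
  · exact sum_congr rfl fun p hp => by rw [B.Q.NR hp, mul_comm]

end Two

/-- THE MIXED TERMS -/
theorem Two.hZ (B : Two r i K psi C w v w' v' x m) :
    lc (st i C).card 2 (ZLR i K psi C w v w' v' 4) =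
      qq i K psi C w v * qq i K psi C w' v' +
        oo i C w' v' * (Pa.dl i C x 2 - 1) + oo i C w v * (Pa.dl i C x (m - 3) - 1) +
      (if m = 5 then ((uc (x 0)).card : ℤ) + (uc (x m)).card + 1 else
        if m = 6 then -1 else 0) := by
  have hm := B.Q.hm
  obtain ⟨n1, n2⟩ := B.sumN
  have u0 := B.W.uc_le (k := 0) (by omega)
  have um := B.W.uc_le (k := m) (by omega)
  have c1 : (((uc (x 0)).card - 1 : ℕ) : ℤ) = (uc (x 0)).card - 1 := by omega
  have c2 : (((uc (x m)).card - 1 : ℕ) : ℤ) = (uc (x m)).card - 1 := by omega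
  by_cases h5 : m = 5
  · subst h5
    obtain ⟨a1, a2, a3⟩ := num5 B.Q B.row (by omega) (by omega) B.list5
    rw [ZLR_gen B.Q.toK9c B.wk, a1, a2, a3, n1, n2, B.qqL, B.qqR, if_pos rfl, c1, c2]
    ring
  · by_cases h6 : m = 6
    · subst h6
      obtain ⟨a1, a2, a3⟩ := num6 B.Q B.row (by omega) (by omega) B.list6
      rw [ZLR_gen B.Q.toK9c B.wk, a1, a2, a3, n1, n2, B.qqL, B.qqR, if_neg h5, if_pos rfl, c1, c2]
      ring
    · rw [if_neg h5, if_neg h6, ZLR_four B.Q.toK9c (sep B.Q (by omega)), n1, n2]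
      ring

end Pool.Agent.GaussPoset.Win.Si
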