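import Pool.Agent.W_448six_h74.SiI
import Pool.Agent.W_448p_h97.PcA

/-!
MP_448cb3_co, G2, case B, window `j`: the form of a component with two stars, `w32` free.  helper74.
-/

namespace Pool.Agent.GaussPoset.Win.Si

set_option linter.unusedSectionVars false

open Finset W4 Pa Pb
open Pool.Agent.GaussPoset.Win.So (IV IV_chi IV_Fe)
open Pool.Agent.GaussPoset.Win.SO (PN vp con on)

universe u

variable {P : Type u} [Fintype P] [PartialOrder P] [DecidableEq P] {r i : ℕ}
variable {e f : P → ℕ} {psi : P → P} {C K : Finset P} {w v w' v' : P}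
variable {x : ℕ → P} {m : ℕ}

section

variable (Q : K5w r i K psi C w v) {p q s : P} (hw : uc w = {p, q}) (hv : dc v = {q, s})
  (hpq : p ≠ q) (hqs : q ≠ s) (hps : p ≠ s)
include Q hw hv hpq hqs hps

/-- THE FORM of one star, `w32` free -/
theorem form_s :
    lc (st i C).card 1 (ZW i K psi C w v 2) ^ 2 - 2 * lc (st i C).card 2 (ZW i K psi C w v 4) =
      fW i K C w v p q s + 2 * (∑ z ∈ PN i C, vp i z * (Nx i w z - Nx i v z) - 1) *
        (7 - dg i K C q - (st i C).card - Vc i K C) := by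
  unfold fW
  obtain ⟨hw2, hv2, hq, hq'⟩ := Q.cards hw hv hpq hqs hps
  have nw := Q.nzw hw hv hpq hqs hps
  have nv := Q.nzv hw hv hpq hqs hps
  have hb : 1 ≤ (st i C).card := by
    obtain ⟨l1, l2, l3⟩ := Q.lpq hw hv hpq hqs hps
    obtain ⟨m1, m2, m3⟩ := Q.memC hw hv hpq hqs hps
    exact card_pos.2 ⟨p, mem_st.2 ⟨m1, l1⟩⟩
  rw [Q.be4_raw hw hv hpq hqs hps hb, Q.al2_raw hw hv hpq hqs hps]
  have e1 : ∑ z ∈ PN i C, vp i z * (Nx i w z * (1 + Dg i K C (sit i z ∪ nz i w)) -
      Nx i v z * (1 + Dg i K C (sit i z ∪ nz i v))) =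
      (1 + Vc i K C + dg i K C q) * ∑ z ∈ PN i C, vp i z * (Nx i w z - Nx i v z) +
      ∑ z ∈ PN i C, vp i z * (Nx i w z * (dg i K C p + Ds i K C (sit i z) {p, q}) -
        Nx i v z * (dg i K C s + Ds i K C (sit i z) {q, s})) := by
    rw [mul_sum, ← sum_add_distrib]
    refine sum_congr rfl fun z _ => ?_
    have a1 : Nx i w z * (1 + Dg i K C (sit i z ∪ nz i w)) =
        Nx i w z * (1 + (Vc i K C + (dg i K C p + dg i K C q) + Ds i K C (sit i z) {p, q})) := by
      unfold Nx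
      by_cases h : Disjoint (nz i w) (sit i z)
      · rw [Pb.Dg_split h, nw, sum_pair hpq]
      · rw [if_neg h, zero_mul, zero_mul]
    have a2 : Nx i v z * (1 + Dg i K C (sit i z ∪ nz i v)) =
        Nx i v z * (1 + (Vc i K C + (dg i K C q + dg i K C s) + Ds i K C (sit i z) {q, s})) := by
      unfold Nx
      by_cases h : Disjoint (nz i v) (sit i z)
      · rw [Pb.Dg_split h, nv, sum_pair hqs]
      · rw [if_neg h, zero_mul, zero_mul]
    rw [a1, a2]
    ring
  have e2 : ∑ z ∈ PN i C, vp i z * ((2 * ((st i C).card - 8) + ch i C z) *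
      (Nx i w z - Nx i v z) + 2 * (Mx i w z - Mx i v z)) =
      2 * ((st i C).card - 8) * ∑ z ∈ PN i C, vp i z * (Nx i w z - Nx i v z) +
      ∑ z ∈ PN i C, vp i z * (ch i C z * (Nx i w z - Nx i v z) + 2 * (Mx i w z - Mx i v z)) := by
    rw [mul_sum, ← sum_add_distrib]
    exact sum_congr rfl fun z _ => by ring
  have e3 := pairs_split i C
  rw [e1, e2]
  linear_combination e3

end

section

variable {a b c a' b' c' : P} (Q : K9c r i K psi C w v w' v' a b c a' b' c')
include Q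

/-- THE FORM of a component with two stars, from the mixed terms -/
theorem two_gen {cr : ℤ} (hZ : lc (st i C).card 2 (ZLR i K psi C w v w' v' 4) =
      qq i K psi C w v * qq i K psi C w' v' +
        oo i C w' v' * (∑ p ∈ PN i C, vp i p * NN i w v p - 1) +
        oo i C w v * (∑ p ∈ PN i C, vp i p * NN i w' v' p - 1) + cr) :
    lc (st i C).card 1 (ZC i C 2) ^ 2 - 2 * lc (st i C).card 2 (ZC i C 4) =
      fW i K C w v a b c + fW i K C w' v' a' b' c' -
      (∑ q ∈ M4 i C, vp i q.1 * vp i q.2 + 2 * ((Z4 i C).card - (T4 i C).card : ℤ)) +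
      2 * (∑ p ∈ PN i C, vp i p * NN i w v p - 1) *
        (7 - dg i K C b - (st i C).card - Vc i K C - oo i C w' v') +
      2 * (∑ p ∈ PN i C, vp i p * NN i w' v' p - 1) *
        (7 - dg i K C b' - (st i C).card - Vc i K C - oo i C w v) - 2 * cr := by
  have QL := k5L Q.toK9
  have QR := k5R Q.toK9
  have fL := form_s QL Q.uw Q.dv Q.nab Q.nbc Q.nac
  have fR := form_s QR Q.uw' Q.dv' Q.nab' Q.nbc' Q.nac'
  have n1 : ∑ z ∈ PN i C, vp i z * (Nx i w z - Nx i v z) =
      ∑ p ∈ PN i C, vp i p * NN i w v p := rfl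
  have n2 : ∑ z ∈ PN i C, vp i z * (Nx i w' z - Nx i v' z) =
      ∑ p ∈ PN i C, vp i p * NN i w' v' p := rfl
  rw [n1] at fL
  rw [n2] at fR
  have h4 := Z00_four Q (two_pos Q)
  have h5 := pairs_split i C
  have h6 := ZC_two Q.toK9 4
  have h7 : lc (st i C).card 2 (ZC i C 4) = lc (st i C).card 2 (ZW i K psi C w v 4) +
      lc (st i C).card 2 (ZW i K psi C w' v' 4) -
      lc (st i C).card 2 (Z00 i K psi C w v w' v' 4) +
      lc (st i C).card 2 (ZLR i K psi C w v w' v' 4) := by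
    rw [h6, lc_add, lc_sub, lc_add]
  rw [h7, hZ, two_al Q, qq_val Q, qq_val Q.sym]
  rw [QL.al2_raw Q.uw Q.dv Q.nab Q.nbc Q.nac] at fL
  rw [QR.al2_raw Q.uw' Q.dv' Q.nab' Q.nbc' Q.nac'] at fR
  linear_combination fL + fR + h4 - h5

end

end Pool.Agent.GaussPoset.Win.Si
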