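import Pool.Agent.W_448six_h74.SjA

/-!
MP_448cb3_co, G2, case B, window `j`: the coefficient (1,0), `w32` and THE LOGARITHMIC FORM of a component
with two stars.  helper74.
-/

namespace Pool.Agent.GaussPoset.Win.Si

set_option linter.unusedSectionVars false

open Finset W4 Pa Pb
open Pool.Agent.GaussPoset.Win.So (IV IV_chi IV_Fe)
open Pool.Agent.GaussPoset.Win.SO (PN vp con on)

universe u

variable {P : Type u} [Fintype P] [PartialOrder P] [DecidableEq P] {r i : ℕ}
variable {e f : P → ℕ} {psi : P → P} {C K : Finset P} {w v w' v' : P}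
variable {x : ℕ → P} {m : ℕ}

section

variable {a b c a' b' c' : P} (Q : K9c r i K psi C w v w' v' a b c a' b' c')
include Q

/-- the order zero coefficient of the isolated star -/
theorem oo_val : oo i C w v = -3 := by
  have h2 := stR Q.sym
  have h1 := IV_chi (V := st i C) (B := nz i w) (C := ∅) h2.1 (empty_subset _)
  have h3 := IV_chi (V := st i C) (B := ∅) (C := nz i v) (empty_subset _) h2.2
  rw [if_pos (disjoint_empty_right _), Q.w2, card_empty, Nat.sub_zero] at h1
  rw [if_pos (disjoint_empty_left _), Q.v2, card_empty, Nat.sub_zero, pow_zero, one_mul] at h3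
  have hb : 2 ≤ (st i C).card := by rw [← Q.w2]; exact card_le_card h2.1
  have h4 : IV (st i C) (IW i w v) = PowerSeries.X ^ ((st i C).card - 1) * (xx ^ 2 + xi) := by
    have e1 : IV (st i C) (IW i w v) = dd * IV (st i C) (chi (nz i w) ∅) +
        xi * dd * IV (st i C) (chi ∅ (nz i v)) := by
      rw [← IV_cmul, ← IV_cmul, ← IV_add2]
      rfl
    have e2 : (dd : A) * dd ^ ((st i C).card - 2) = dd ^ ((st i C).card - 1) := by
      rw [← pow_succ']
      congr 1
      omega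
    rw [e1, h1, h3]
    have e3 : (dd * (xx ^ 2 * dd ^ ((st i C).card - 2)) + xi * dd * dd ^ ((st i C).card - 2) : A) =
        (dd * dd ^ ((st i C).card - 2)) * (xx ^ 2 + xi) := by ring
    rw [e3, e2]
    rfl
  unfold oo lc
  rw [pow_zero, one_mul, h4, PowerSeries.coeff_X_pow_mul', if_pos (by omega),
    show (st i C).card - ((st i C).card - 1) = 1 by omega, map_add, co1_xi,
    (co1_pow (xx : A) cc_xx 2).2, co1_xx]
  norm_num

/-- THE COEFFICIENT (1,0) -/
theorem c1_two : I2.c1 (st i C).card (ZS i C) = (st i C).card + Vc i K C - 6 := by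
  classical
  have hS : Sc i (0 : P → ℕ) := fun x _ => rfl
  have hs : Spt C (0 : P → ℕ) := fun x _ => rfl
  obtain ⟨a1, a2, h1, h2, o0, c0⟩ := hS.val (C := C) Q.H Q.hi Q.hi2
  have h0 : I2.c1 (st i C).card (ZS i C) = lc (st i C).card 0 (ZC i C 1) := by
    unfold I2.c1 lc
    rw [coeff_ZS, pow_zero, one_mul]
  -- the two stars
  have j1 : lc (st i C).card 0 (J9 i K psi C w v w' v' (0 : P → ℕ) 0 1 0) = -3 := by
    rw [← oo_val Q.sym, J9_m0R Q]
    unfold oo
    congr 2
    funext S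
    rw [Sc_Fe Q.H Q.hi Q.hi2 hS, WW_iso Q.H Q.hir Q.lw' Q.lv' Q.hb' Q.hb1'
        (tchS Q hS w') (tchS Q hS v') (fun _ _ => rfl) one_ne_zero, mul_one, one_mul]
  have j2 : lc (st i C).card 0 (J9 i K psi C w v w' v' (0 : P → ℕ) 1 0 0) = -3 := by
    rw [← oo_val Q, J9_m0L Q]
    unfold oo
    congr 2
    funext S
    rw [Sc_Fe Q.H Q.hi Q.hi2 hS, WW_iso Q.H Q.hir Q.lw Q.lv Q.hb Q.hb1
        (tchS Q hS w) (tchS Q hS v) (fun _ _ => rfl) one_ne_zero, mul_one, one_mul]
  -- the matched near elements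
  have j3 : lc (st i C).card 0 (J9 i K psi C w v w' v' (0 : P → ℕ) 0 0 1) = Vc i K C := by
    have e0 : J9 i K psi C w v w' v' (0 : P → ℕ) 0 0 1 = JK i K psi C 1 (0 : P → ℕ) := by
      unfold J9 JK
      congr 1
      funext S
      rw [WW0 Q.H Q.hir Q.nw Q.nv, WW0 Q.H Q.hir Q.nw' Q.nv', one_mul, one_mul]
    rw [e0, JK_one Q.H Q.hi Q.hi2 Q.hM Q.hC hs (fun _ _ => rfl)
      (by rw [h1]; exact disjoint_empty_left _) o0, c0, mul_one,
      om_killed (e := (0 : P → ℕ)) Q.H Q.hi Q.hi2 Q.hM Q.hC (fun y _ => rfl)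
        (fun x hx hn => absurd (by rw [RK_N0 (hS.tch Q.H)]; exact hx) hn), h1, h2, union_empty,
      sum_empty, add_zero]
    have : W4.mm i K C (∅ : Finset P) = 0 := by
      unfold W4.mm
      rw [Nat.cast_eq_zero, card_eq_zero, filter_eq_empty_iff]
      rintro x hx ⟨hd, hsub⟩
      have := (dbL_nz hd).2
      rw [subset_empty.1 hsub] at this
      simp at this
    rw [this, sub_zero]
  -- the sites
  have j4 : ∑ e ∈ Co i K psi C 1, lc (st i C).card 0 (J9 i K psi C w v w' v' e 0 0 0) =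
      (st i C).card := by
    rw [Co1_st Q (fun e => lc (st i C).card 0 (J9 i K psi C w v w' v' e 0 0 0))
      (fun e h => by
        show lc (st i C).card 0 (J9 i K psi C w v w' v' e 0 0 0) = 0
        rw [Q.bad h, lc_zero])]
    have : ∀ y ∈ st i C,
        lc (st i C).card 0 (J9 i K psi C w v w' v' (Pi.single y 1 : P → ℕ) 0 0 0) = 1 := by
      intro y hy
      obtain ⟨hyC, hyl⟩ := mem_st.1 hy
      obtain ⟨b1, b2, b3, b4, b5, -⟩ := Q.sing y hyl hyC
      rw [Q.J000 b3 b2 b4, b5]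
    rw [sum_congr rfl this]
    simp
  rw [h0, Q.ZC_split 1, sum_range_succ, sum_range_one, Co_zero Q.H, sum_singleton, Nat.sub_zero,
    Nat.sub_self]
  have e1 : ∀ e : P → ℕ, ∑ p ∈ antidiagonal 1, ∑ t ∈ antidiagonal p.2,
      J9 i K psi C w v w' v' e p.1 t.1 t.2 =
      J9 i K psi C w v w' v' e 0 0 1 + J9 i K psi C w v w' v' e 0 1 0 +
        J9 i K psi C w v w' v' e 1 0 0 := by
    intro e
    rw [an1 (fun p : ℕ × ℕ => ∑ t ∈ antidiagonal p.2, J9 i K psi C w v w' v' e p.1 t.1 t.2),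
      an1 (fun t : ℕ × ℕ => J9 i K psi C w v w' v' e 0 t.1 t.2),
      an0 (fun t : ℕ × ℕ => J9 i K psi C w v w' v' e 1 t.1 t.2)]
  have e2 : ∀ e : P → ℕ, ∑ p ∈ antidiagonal 0, ∑ t ∈ antidiagonal p.2,
      J9 i K psi C w v w' v' e p.1 t.1 t.2 = J9 i K psi C w v w' v' e 0 0 0 := by
    intro e
    rw [an0 (fun p : ℕ × ℕ => ∑ t ∈ antidiagonal p.2, J9 i K psi C w v w' v' e p.1 t.1 t.2),
      an0 (fun t : ℕ × ℕ => J9 i K psi C w v w' v' e 0 t.1 t.2)]
  rw [e1, sum_congr rfl fun e _ => e2 e, lc_add, lc_add, lc_add, lc_sum, j4, j1, j2, j3]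
  ring

end

namespace Two

variable (B : Two r i K psi C w v w' v' x m)
include B

/-- the mixed number of lower doubles -/
lemma MMv : Pa.MM i K C w v w' v' = if m = 5 then 1 else 0 := by
  have hm := B.Q.hm
  have h : lc (st i C).card 2 (J9 i K psi C w v w' v' (0 : P → ℕ) 1 1 1) =
    - Pa.MM i K C w v w' v' := B.Q.L0_111
  have u0 := B.W.uc_le (k := 0) (by omega)
  have um := B.W.uc_le (k := m) (by omega)
  by_cases h5 : m = 5
  · subst h5
    obtain ⟨a1, a2, a3⟩ := num5 B.Q B.row (by omega) (by omega) B.list5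
    rw [if_pos rfl]
    linarith
  · rw [if_neg h5]
    by_cases h6 : m = 6
    · subst h6
      obtain ⟨a1, a2, a3⟩ := num6 B.Q B.row (by omega) (by omega) B.list6
      linarith
    · have := L0_m1 B.Q.toK9c (sep B.Q (by omega)) one_ne_zero one_ne_zero
      linarith

/-- `w32` -/
lemma w3v : I2.w3 (st i C).card (ZS i C) = Pa.dl i C x 2 + Pa.dl i C x (m - 3) - 2 -
    (if m = 5 then 1 else 0) := by
  rw [B.Q.w3v, B.MMv]

end Two

end Pool.Agent.GaussPoset.Win.Si
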