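import Pool.Agent.W_448p_h97.PbU
import Pool.Agent.W_448j6_h22.KbB
import Pool.Agent.W_448six_h74.SjC

/-!
MP_448cb3_co, G2, case B, window `j`: THE LOGARITHMIC FORM of a component with two stars, `w32` free.
helper74.
-/

namespace Pool.Agent.GaussPoset.Win.Si

set_option linter.unusedSectionVars false

open Finset W4 Pa Pb
open Pool.Agent.GaussPoset.Win.SO (PN vp con on mem_PN vp_PD vp_PU)

universe u

variable {P : Type u} [Fintype P] [PartialOrder P] [DecidableEq P] {r i : ℕ}
variable {psi : P → P} {C K : Finset P} {w v w' v' : P} {m : ℕ} {x : ℕ → P}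

/-- the mirror image -/
theorem DLt.mirror (h : DLt r i K C w v w' v' m x) (lw : lev w' = i + 1) (lv : lev v' + 1 = i)
    (n2 : m = 5 → NE i C x (m - 3) = 0) : DLt r i K C w' v' w v m (fun k => x (m - k)) := by
  have hm := h.hm
  refine ⟨prow_mirror h.W (by omega), hm, ?_, ?_, lw, lv, ?_, ?_, ?_, ?_, ?_, ?_⟩
  · intro y hy hl
    rw [h.hg y hy hl]
    ring
  · intro a b hab hb
    show W4.mm i K C {x (m - a), x (m - b)} = (dcv (x (m - a)) (x (m - b)) : ℤ) - _ - _
    rw [pair_comm, h.hmm (m - b) (m - a) (by omega) (by omega), kf_dcv_comm]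
    have e1 : (m - b = 0 ∧ m - a = 1) ↔ (a + 1 = m ∧ b = m) := by omega
    have e2 : (m - b + 1 = m ∧ m - a = m) ↔ (a = 0 ∧ b = 1) := by omega
    simp only [e1, e2]
    ring
  · show uc w' = {x (m - 0), x (m - 1)}
    rw [h.hw', Nat.sub_zero]
  · show dc v' = {x (m - 1), x (m - 2)}
    exact h.hv'
  · show uc w = {x (m - m), x (m - (m - 1))}
    rw [h.hw, show m - m = 0 by omega, show m - (m - 1) = 1 by omega]
  · show dc v = {x (m - (m - 1)), x (m - (m - 2))}
    rw [h.hv, show m - (m - 1) = 1 by omega, show m - (m - 2) = 2 by omega]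
  · intro k l hkl hl
    show dcv (x (m - k)) (x (m - l)) = _
    rw [kf_dcv_comm, h.dn (m - l) (m - k) (by omega) (by omega)]
    by_cases e : l = k + 1
    · rw [if_pos e, if_pos (by omega)]
      unfold dk
      split_ifs <;> omega
    · rw [if_neg e, if_neg (by omega)]
  · intro h5
    rw [NE_mirror (by omega), show m - 1 - 2 = m - 3 by omega]
    exact n2 h5

theorem DLt.num_QS (h : DLt r i K C w v w' v' m x) :
    ∑ p ∈ PN i C, vp i p + ∑ q ∈ M4 i C, vp i q.1 * vp i q.2 = QS (NE i C x) 0 m := by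
  rw [h.W.sum_M4_row h.hd, h.sum_vp]
  unfold QS
  rw [← range_eq_Ico, add_comm]
  congr 1
  refine sum_congr rfl fun k hk => ?_
  congr 1
  refine sum_congr rfl fun l hl => ?_
  rw [mem_range] at hk hl
  have e : (¬ Disjoint (ed x k) (ed x l)) ↔ (k ≤ l + 1 ∧ l ≤ k + 1) := by
    rw [h.W.disj_ed hk hl]
    omega
  simp only [e]

lemma dl_NE (k : ℕ) : Pa.dl i C x k = NE i C x k := by
  rw [NE_eq]
  unfold Pa.dl chi' ed
  rw [sum_filter]
  exact sum_congr rfl fun p _ => by split_ifs <;> ring

/-- the value of one end of a row with two stars -/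
noncomputable def Ew (i : ℕ) (C : Finset P) (x : ℕ → P) (w v : P) : ℤ :=
  2 * (((uc (x 0)).card : ℤ) - 1) * NE i C x 0 - 2 * NE i C x 3 - 8 * NE i C x 2 +
    ((uc (x 0)).card : ℤ) ^ 2 - (uc (x 0)).card + 10 -
    2 * ∑ z ∈ Z4 i C, tz i z * (Nx i w z - Nx i v z) - CH i C x 2

namespace Two

variable (B : Two r i K psi C w v w' v' x m)
include B

/-- six sites: no pendant over the middle pair -/
lemma n5 (h5 : m = 5) : NE i C x 2 = 0 := by
  rw [NE_eq]
  refine sum_eq_zero fun p hp => ?_
  rw [mem_filter] at hp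
  exact absurd hp.2 (B.Q.mid h5 p hp.1)

theorem toT : DLt r i K C w v w' v' m x := by
  have hm := B.Q.hm
  refine ⟨B.W, hm, fun y hy hl => K9_dg B.Q.toK9 hy hl, ?_, B.Q.lw, B.Q.lv, B.Q.uw, B.Q.dv, B.Q.uw',
    B.Q.dv', B.hd, B.n5⟩
  intro a b hab hb
  rw [K9_mm B.Q.toK9 (B.W.mem a (by omega)) (B.W.lev_x a (by omega))
    (B.W.ne (by omega) hb (by omega))]
  have key : ∀ p q : ℕ, p < q → q ≤ m → (({x p, x q} : Finset P) = {x a, x b} ↔
      (a = p ∧ b = q)) := by
    intro p q hpq hq
    constructor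
    · intro h1
      have h2 : x a ∈ ({x p, x q} : Finset P) := by rw [h1]; exact mem_insert_self _ _
      have h3 : x b ∈ ({x p, x q} : Finset P) := by
        rw [h1]; exact mem_insert_of_mem (mem_singleton_self _)
      rw [mem_insert, mem_singleton] at h2 h3
      rcases h2 with h2 | h2
      · have := B.W.inj _ _ (by omega) (by omega) h2
        rcases h3 with h3 | h3
        · have := B.W.inj _ _ (by omega) (by omega) h3
          omega
        · have := B.W.inj _ _ (by omega) (by omega) h3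
          omega
      · have := B.W.inj _ _ (by omega) (by omega) h2
        rcases h3 with h3 | h3
        · have := B.W.inj _ _ (by omega) (by omega) h3
          omega
        · have := B.W.inj _ _ (by omega) (by omega) h3
          omega
    · rintro ⟨rfl, rfl⟩
      rfl
  rw [B.Q.uw, B.Q.uw', pair_comm (x m) (x (m - 1))]
  simp only [key 0 1 (by omega) (by omega), key (m - 1) m (by omega) le_rfl]
  have e1 : (a = m - 1 ∧ b = m) ↔ (a + 1 = m ∧ b = m) := by omega
  simp only [e1]

theorem toT' : DLt r i K C w' v' w v m (fun k => x (m - k)) :=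
  B.toT.mirror B.Q.lw' B.Q.lv' fun h5 => by
    rw [show m - 3 = 2 by omega]
    exact B.n5 h5

/-- the vacuum of a row with six sites -/
lemma vc5 (h5 : m = 5) : Vc i K C = -7 - (uc (x 0)).card - (uc (x m)).card := by
  classical
  subst h5
  have hL := B.list5
  have u0 := B.W.uc_le (k := 0) (by omega)
  have um := B.W.uc_le (k := 5) (by omega)
  obtain ⟨g, hg⟩ : ∃ g : Bool × Finset ℕ → ℤ, g = fun t =>
    if t.2.card = 2 then (if t.1 = true then -3 else 0) else -1 := ⟨_, rfl⟩
  have e1 : Vc i K C = ∑ y ∈ N0 i K C, g (ty i x 5 y) := by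
    unfold Vc
    rw [sum_filter]
    refine sum_congr rfl fun y hy => ?_
    obtain ⟨a1, a2, a3⟩ := mem_N0.1 hy
    have hc : (ty i x 5 y).2.card = (nz i y).card := by
      rw [B.nzI hy, card_image_of_injOn]
      exact injOn_of B.row.inj (fun k hk => mem_range.2 (by have := ty_le k hk; omega))
    rw [hg]
    simp only [hc]
    rcases mem_near.1 a1 with h | h
    · have hn : y ∉ dbU P i := fun hd => by have := (mem_dbU.1 hd).1; omega
      rw [if_pos hn]
      by_cases h2 : (nz i y).card = 2
      · rw [if_pos (mem_dbL.2 ⟨h, by rw [← nz_low h, h2]⟩), if_pos h2,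
          if_pos (show (ty i x 5 y).1 = true from decide_eq_true h)]
      · rw [if_neg (fun hd => h2 (by rw [nz_low h]; exact (mem_dbL.1 hd).2)), if_neg h2]
    · by_cases h2 : (nz i y).card = 2
      · rw [if_neg (fun hd => hd (mem_dbU.2 ⟨h, by rw [← nz_upp h, h2]⟩)), if_pos h2,
          if_neg (show ¬ (ty i x 5 y).1 = true from fun hd => by
            have := of_decide_eq_true hd
            omega)]
      · rw [if_pos (fun hd => h2 (by rw [nz_upp h]; exact (mem_dbU.1 hd).2)), if_neg h2,
          if_neg (fun hd => by have := (mem_dbL.1 hd).1; omega)]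
  have e2 : ∑ y ∈ N0 i K C, g (ty i x 5 y) = (((N0 i K C).val.map (ty i x 5)).map g).sum := by
    rw [Multiset.map_map]
    rfl
  rw [e1, e2, hL, Multiset.map_coe, Multiset.sum_coe]
  unfold TL
  rw [List.map_append, List.map_append, List.sum_append, List.sum_append, List.map_replicate,
    List.map_replicate, List.sum_replicate, List.sum_replicate]
  have g0 : g (false, {0}) = -1 := by rw [hg]; rfl
  have g5 : g (false, {5}) = -1 := by rw [hg]; rfl
  have ge : (List.map g (List.flatMap (fun k => [((true, {k, k + 1}) : Bool × Finset ℕ),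
      (false, {k, k + 1})]) [0, 2, 4])).sum = -9 := by
    rw [hg]
    decide
  rw [g0, g5, ge]
  simp only [nsmul_eq_mul]
  have c1 : (((uc (x 0)).card - 1 : ℕ) : ℤ) = (uc (x 0)).card - 1 := by omega
  have c2 : (((uc (x 5)).card - 1 : ℕ) : ℤ) = (uc (x 5)).card - 1 := by omega
  rw [c1, c2]
  ring

/-- THE FORM, `w32` free -/
theorem Q4_eq : I2.Q4 (st i C).card (ZS i C) =
      fW i K C w v (x 0) (x 1) (x 2) + fW i K C w' v' (x m) (x (m - 1)) (x (m - 2)) -
      ∑ q ∈ M4 i C, vp i q.1 * vp i q.2 + 4 * (NE i C x 2 + NE i C x (m - 3) - 2) +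
      (if m = 5 then 12 else if m = 6 then 2 else 0) := by
  have hm := B.Q.hm
  have e1 : I2.al 2 (st i C).card (ZS i C) = lc (st i C).card 1 (ZC i C 2) := by
    unfold I2.al lc
    rw [coeff_ZS, pow_one]
  have e2 : I2.be 4 (st i C).card (ZS i C) = lc (st i C).card 2 (ZC i C 4) := by
    unfold I2.be lc
    rw [coeff_ZS]
  obtain ⟨n1, n2⟩ := B.sumN
  have hZ := B.hZ
  have h1 : lc (st i C).card 2 (ZLR i K psi C w v w' v' 4) =
      qq i K psi C w v * qq i K psi C w' v' +
        oo i C w' v' * (∑ p ∈ PN i C, vp i p * NN i w v p - 1) +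
        oo i C w v * (∑ p ∈ PN i C, vp i p * NN i w' v' p - 1) +
      (if m = 5 then ((uc (x 0)).card : ℤ) + (uc (x m)).card + 1 else
        if m = 6 then -1 else 0) := by
    rw [n1, n2]
    exact hZ
  have h2 := two_gen B.Q.toK9c h1
  have z4 : (Z4 i C).card = (T4 i C).card := by
    congr 1
    exact Subset.antisymm (fun z hz => B.Q.zz z hz) (T4_subset i C)
  have hB : m = 5 → ((st i C).card : ℤ) = 6 := by
    intro h5
    rw [B.row.st, card_image_of_injOn (injOn_of B.row.inj Subset.rfl), card_range, h5]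
    rfl
  have d1 : dg i K C (x 1) = 2 := by
    rw [B.dgx (by omega), (B.dc_end (k := 1) (by omega) (by omega)).1,
      B.W.uc_inner (k := 1) (by omega) (by omega), if_pos (by omega), if_pos (by omega),
      if_neg (by omega), if_neg (by omega)]
    norm_num
  have d2 : dg i K C (x (m - 1)) = 2 := by
    rw [B.dgx (by omega), (B.dc_end (k := m - 1) (by omega) (by omega)).1,
      B.W.uc_inner (k := m - 1) (by omega) (by omega), if_neg (by omega), if_neg (by omega),
      if_pos (by omega), if_pos (by omega)]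
    norm_num
  unfold I2.Q4
  rw [e1, e2, h2, n1, n2, c1_two B.Q.toK9c, B.w3v, oo_val B.Q.toK9c, oo_val B.Q.toK9c.sym, d1, d2,
    z4, dl_NE, dl_NE]
  by_cases h5 : m = 5
  · rw [if_pos h5, if_pos h5, if_pos h5, B.vc5 h5, hB h5]
    ring
  · rw [if_neg h5, if_neg h5, if_neg h5]
    by_cases h6 : m = 6
    · rw [if_pos h6, if_pos h6]
      ring
    · rw [if_neg h6, if_neg h6]
      ring

/-- THE LOGARITHMIC FORM -/
theorem L_form : Lv i C = QS (NE i C x) 0 m + Ew i C x w v + Ew i C (fun k => x (m - k)) w' v' +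
      (if m = 5 then 12 else if m = 6 then 2 else 0) := by
  have hm := B.Q.hm
  have f1 := B.toT.end_eq
  have f2 := B.toT'.end_eq
  have a1 := K9x_al B.Q
  have q1 := B.toT.num_QS
  have q2 := num_form B.W.H B.W.uc1
  have z4 : (Z4 i C).card = (T4 i C).card := by
    congr 1
    exact Subset.antisymm (fun z hz => B.Q.zz z hz) (T4_subset i C)
  have n3 : NE i C (fun k => x (m - k)) 2 = NE i C x (m - 3) := by
    rw [NE_mirror (by omega), show m - 1 - 2 = m - 3 by omega]
  simp only [show m - 0 = m from rfl] at f2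
  unfold Zs at f1 f2
  unfold Lv Ew
  simp only [show m - 0 = m from rfl]
  rw [B.Q4_eq, a1]
  rw [z4] at f1 f2
  rw [n3] at f2 ⊢
  linear_combination f1 + f2 - 2 * q2 + q1

end Two

end Pool.Agent.GaussPoset.Win.Si
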