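import Pool.Agent.W_448p_h97.PbV
import Pool.Agent.W_448j6_h22.KbD
import Pool.Agent.W_448six_h74.SjD

/-!
MP_448cb3_co, G2, case B, window `j`: ONE END of a component with two stars, the elements over three sites
and the children of the pendants (the arguments of helper97 `PbV` and helper22 `KbC`).  helper74.
-/

namespace Pool.Agent.GaussPoset.Win.Si

set_option linter.unusedSectionVars false

open Finset W4 Pa Pb
open Pool.Agent.GaussPoset.Win.SO (PN vp con on mem_PN vp_PD vp_PU)

universe u

variable {P : Type u} [Fintype P] [PartialOrder P] [DecidableEq P] {r i : ℕ}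
variable {psi : P → P} {C K : Finset P} {w v w' v' : P} {m : ℕ} {x : ℕ → P}

namespace DLt

variable (h : DLt r i K C w v w' v' m x)
include h

/-- `N_k ≥ 0` at the inner edges -/
lemma NE_nonneg {k : ℕ} (h1 : 1 ≤ k) (h2 : k + 2 ≤ m) : 0 ≤ NE i C x k := by
  unfold NE
  rw [h.W.ue_inner h1 h2, card_empty]
  push_cast
  omega

/-- an element over two doubles -/
lemma T_vals {z : P} {k : ℕ} (hk : k + 2 ≤ m) (hs : sit i z = ed x k ∪ ed x (k + 1)) :
    Nx i w z = (if 2 ≤ k then 1 else 0) ∧ Nx i v z = (if 3 ≤ k then 1 else 0) := by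
  have hm := h.hm
  constructor
  · unfold Nx
    have e : Disjoint (nz i w) (sit i z) ↔ 2 ≤ k := by
      rw [hs, h.nw, disjoint_union_right, h.W.disj_ed (by omega) (by omega),
        h.W.disj_ed (by omega) (by omega)]
      omega
    simp only [e]
  · unfold Nx
    have e : Disjoint (nz i v) (sit i z) ↔ 3 ≤ k := by
      rw [hs, h.nv, disjoint_union_right, h.W.disj_ed (by omega) (by omega),
        h.W.disj_ed (by omega) (by omega)]
      omega
    simp only [e]

lemma T_index {k l : ℕ} (hk : k + 2 ≤ m) (hl : l + 2 ≤ m)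
    (hs : ed x k ∪ ed x (k + 1) = ed x l ∪ ed x (l + 1)) : k = l := by
  have key : ∀ k l, k + 2 ≤ m → l + 2 ≤ m → ed x k ∪ ed x (k + 1) = ed x l ∪ ed x (l + 1) →
      l ≤ k ∧ k ≤ l + 2 := by
    intro k l hk hl hs
    have h1 : x k ∈ ed x l ∪ ed x (l + 1) := by
      rw [← hs]
      exact mem_union_left _ ((h.W.mem_ed (by omega) (by omega)).2 (Or.inl rfl))
    rw [mem_union, h.W.mem_ed (by omega) (by omega), h.W.mem_ed (by omega) (by omega)] at h1
    omega
  have h1 := key k l hk hl hs
  have h2 := key l k hl hk hs.symm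
  omega

lemma T4_term {z : P} (hz : z ∈ T4 i C) :
    tz i z * (Nx i w z - Nx i v z) =
      (if lev z < i ∧ sit i z = ed x 2 ∪ ed x 3 then 1 else 0) -
      (if i < lev z ∧ sit i z = ed x 2 ∪ ed x 3 then 1 else 0) := by
  have hm4 : 4 ≤ m := by have := h.hm; omega
  have hlz : i < lev z ∨ lev z < i := by
    rcases mem_Z4.1 (T4_sub hz) with h1 | h1
    · have := (mem_ZL.1 h1).2.1
      omega
    · have := (mem_ZU.1 h1).2.1
      omega
  rcases hlz with hl | hl
  · obtain ⟨k, y, y', hk, -, -, -, -, -, -, hs⟩ := h.W.T_low h.hd hz hl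
    obtain ⟨v1, v2⟩ := h.T_vals hk hs
    have e : sit i z = ed x 2 ∪ ed x 3 ↔ k = 2 := by
      rw [hs]
      constructor
      · intro h1
        exact h.T_index hk (by omega) h1
      · rintro rfl
        rfl
    rw [v1, v2]
    unfold tz
    rw [if_pos hl]
    simp only [e, hl, true_and, show ¬ lev z < i by omega, false_and, if_false]
    split_ifs <;> omega
  · obtain ⟨k, y, y', hk, -, -, -, -, -, -, hs⟩ := h.W.T_upp hz hl
    obtain ⟨v1, v2⟩ := h.T_vals hk hs
    have e : sit i z = ed x 2 ∪ ed x 3 ↔ k = 2 := by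
      rw [hs]
      constructor
      · intro h1
        exact h.T_index hk (by omega) h1
      · rintro rfl
        rfl
    rw [v1, v2]
    unfold tz
    rw [if_neg (by omega)]
    simp only [e, hl, true_and, show ¬ i < lev z by omega, false_and, if_false]
    split_ifs <;> omega

/-- the contribution of the elements over three sites -/
theorem Z_eq (hz : ∀ z ∈ Z4 i C, z ∈ T4 i C) :
    ∑ z ∈ Z4 i C, tz i z * (Nx i w z - Nx i v z) = (TUs i C x).card - ((TLs i C x).card : ℤ) := by
  classical
  have e : Z4 i C = T4 i C := Subset.antisymm (fun z h1 => hz z h1) (T4_subset i C)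
  rw [e, sum_congr rfl fun z hz => h.T4_term hz, sum_sub_distrib]
  unfold TLs TUs
  rw [card_filter, card_filter]
  push_cast
  ring

/-- at most one upper element over `x 2, x 3, x 4` -/
lemma TUs_le : (TUs i C x).card ≤ 1 := by
  classical
  have hm4 : 4 ≤ m := by have := h.hm; omega
  rw [card_le_one]
  intro z hz z' hz'
  unfold TUs at hz hz'
  rw [mem_filter] at hz hz'
  obtain ⟨k, y, y', hk, hzC, hlz, hne, huc, e1, e2, hs⟩ := h.W.T_upp hz.1 hz.2.1
  obtain ⟨l, q, q', hl, hzC', hlz', hne', huc', e1', e2', hs'⟩ := h.W.T_upp hz'.1 hz'.2.1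
  have hk2 : k = 2 := h.T_index hk (by omega) (hs.symm.trans hz.2.2)
  have hl2 : l = 2 := h.T_index hl (by omega) (hs'.symm.trans hz'.2.2)
  subst hk2
  subst hl2
  have g1 : q = y := h.W.up_uniq (by omega) e1' e1
  have g2 : q' = y' := h.W.up_uniq (by omega) e2' e2
  subst g1
  subst g2
  by_contra hzz
  have hlev : lev z < lev z + 1 := Nat.lt_succ_self _
  have hq : q ∈ dc z := by rw [huc]; exact mem_insert_self _ _
  have hq' : q' ∈ dc z := by rw [huc]; exact mem_insert_of_mem (mem_singleton_self _)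
  have hp : q ∈ dc z' := by rw [huc']; exact mem_insert_self _ _
  have hp' : q' ∈ dc z' := by rw [huc']; exact mem_insert_of_mem (mem_singleton_self _)
  have l1 := lev_cov h.W.H (mem_dc.1 hq)
  have l2 := lev_cov h.W.H (mem_dc.1 hq')
  have c1 := h.W.hC.dn hzC (by omega) (mem_dc.1 hq)
  have c2 := h.W.hC.dn hzC (by omega) (mem_dc.1 hq')
  have h5 := h.W.up1 q c1 q' c2 (by omega) (by omega) hne
  have h6 : ({z, z'} : Finset P) ⊆ univ.filter (fun y => q ⋖ y ∧ q' ⋖ y) := by
    intro s hs
    rw [mem_insert, mem_singleton] at hs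
    rw [mem_filter]
    rcases hs with rfl | rfl
    · exact ⟨mem_univ _, mem_dc.1 hq, mem_dc.1 hq'⟩
    · exact ⟨mem_univ _, mem_dc.1 hp, mem_dc.1 hp'⟩
  have h7 := card_le_card h6
  rw [card_pair hzz] at h7
  unfold ucv at h5
  have h8 : (univ.filter (fun y => q ⋖ y ∧ q' ⋖ y)).card ≤ 1 := by convert h5
  omega

lemma dcv2 : dcv (x 2) (x (2 + 1)) = 1 := by
  have hm := h.hm
  rw [h.dn 2 3 (by omega) (by omega), if_pos rfl]
  unfold dk
  rw [if_neg (by omega), if_neg (by omega)]

/-- the children of the pendants over `x 2, x 3` -/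
lemma CH2_le : CH i C x 2 ≤ ∑ a ∈ DE i C x 2, (2 * ((pen a).card : ℤ)) +
    (DE i C x 2).card * ((DE i C x 2).card - 1) := by
  classical
  have H := h.W.H
  have hm := h.hm
  unfold CH
  have e1 : (PN i C).filter (fun z => sit i z = ed x 2) = DE i C x 2 ∪ UE i C x 2 := by
    rw [PN_eq, filter_union]
    rfl
  have e2 : Disjoint (DE i C x 2) (UE i C x 2) := disjoint_filter_filter (DC_UC i C)
  rw [e1, sum_union e2]
  have e3 : ∑ z ∈ UE i C x 2, vp i z * ch i C z ≤ 0 := by
    refine sum_nonpos fun z hz => ?_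
    rw [vp_PU (mem_UE.1 hz).2.1]
    have := h.W.ch_nonneg (C := C) z
    linarith
  have e4 : ∑ z ∈ DE i C x 2, vp i z * ch i C z =
      ∑ a ∈ DE i C x 2, (2 * ((pen a).card : ℤ)) +
        (DE i C x 2).card * ((DE i C x 2).card - 1) := by
    have e5 : ∀ z ∈ DE i C x 2, vp i z * ch i C z =
        2 * ((pen z).card : ℤ) + ((DE i C x 2).card - 1) := by
      intro a ham
      obtain ⟨haC, haP, has⟩ := mem_DE.1 ham
      obtain ⟨-, y, -, -, -, -, -, hor⟩ := PN_dat H (C := C) (mem_PN.2 ⟨haC, Or.inl haP⟩)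
      rcases hor with ⟨-, hla, hly, h4, h5, -, -⟩ | ⟨h3, -⟩
      swap
      · have := lev_PU h3
        have := lev_PD haP
        omega
      have hyC : y ∈ C := h.W.hC.up haC (mem_uc.1 (by rw [h4]; exact mem_singleton_self y))
      have hye : uc y = ed x 2 := by rw [← h5, has]
      have hdcv := h.dcv2
      unfold dcv at hdcv
      obtain ⟨s, hs⟩ := card_eq_one.1 hdcv
      have huniq : ∀ y', uc y' = ed x 2 → y' = s := by
        intro y' hy'
        have : y' ∈ ({s} : Finset P) := by
          rw [← hs, mem_filter]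
          refine ⟨mem_univ _, ?_, ?_⟩
          · rw [← mem_uc, hy']
            exact (h.W.mem_ed (by omega) (by omega)).2 (Or.inl rfl)
          · rw [← mem_uc, hy']
            exact (h.W.mem_ed (by omega) (by omega)).2 (Or.inr rfl)
        exact mem_singleton.1 this
      have hpy : pen y = DE i C x 2 := by
        ext g
        constructor
        · intro hg
          have hgu := uc_pen hg
          have hgl := lev_cov H (mem_pen.1 hg).1
          have hgC := h.W.cl g y hyC hgu
          refine mem_DE.2 ⟨hgC, mem_PD.2 ⟨by omega, by rw [hgu, card_singleton], y,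
            (mem_pen.1 hg).1, ?_⟩, ?_⟩
          · rw [hye]
            exact h.W.card_ed (by omega)
          · rw [SO.sit_PD H (by omega) hgu, hye]
        · intro hg
          obtain ⟨hgC, hgP, hgs⟩ := mem_DE.1 hg
          obtain ⟨-, y', -, -, -, -, -, hor'⟩ := PN_dat H (C := C) (mem_PN.2 ⟨hgC, Or.inl hgP⟩)
          rcases hor' with ⟨-, hlg, hly', g4, g5, -, -⟩ | ⟨g3, -⟩
          swap
          · have := lev_PU g3
            have := lev_PD hgP
            omega
          have hye' : uc y' = ed x 2 := by rw [← g5, hgs]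
          have hyy : y' = y := (huniq y' hye').trans (huniq y hye).symm
          subst hyy
          exact mem_pen.2 ⟨mem_uc.1 (by rw [g4]; exact mem_singleton_self y'),
            by rw [g4, card_singleton]⟩
      rw [vp_PD haP, h.W.ch_PD haP haC h4, hpy]
      ring
    rw [sum_congr rfl e5, sum_add_distrib, sum_const, nsmul_eq_mul]
  rw [e4]
  linarith

lemma CH2_num : ((DE i C x 2).card = 0 ∧ CH i C x 2 ≤ 0) ∨
    ((DE i C x 2).card = 1 ∧ CH i C x 2 ≤ 4) ∨ ((DE i C x 2).card = 2 ∧ CH i C x 2 ≤ 8) := by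
  have hm := h.hm
  have h1 := h.CH2_le
  rw [← mul_sum] at h1
  obtain ⟨h2, h3⟩ := h.W.sum_pen_le (k := 2) (by omega) h.dcv2
  have h4 : (DE i C x 2).card = 0 ∨ (DE i C x 2).card = 1 ∨ (DE i C x 2).card = 2 := by omega
  rcases h4 with h4 | h4 | h4 <;> rw [h4] at h1 h3 <;> norm_num at h1 h3
  · exact Or.inl ⟨h4, by linarith⟩
  · exact Or.inr (Or.inl ⟨h4, by linarith⟩)
  · exact Or.inr (Or.inr ⟨h4, by linarith⟩)

lemma NE_in {k : ℕ} (h1 : 1 ≤ k) (h2 : k + 2 ≤ m) : NE i C x k = ((DE i C x k).card : ℤ) := by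
  unfold NE
  rw [h.W.ue_inner h1 h2, card_empty]
  push_cast
  ring

end DLt

end Pool.Agent.GaussPoset.Win.Si
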