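import Pool.Agent.W_448six_h74.SkA

/-!
MP_448cb3_co, G2, case B, window `j`: THE VALUE of a component with two stars: the formula.  helper74.
-/

namespace Pool.Agent.GaussPoset.Win.Si

set_option linter.unusedSectionVars false

open Finset W4 Pa Pb
open Pool.Agent.GaussPoset.Win.SO (PN vp con on mem_PN vp_PD vp_PU)

universe u

/-! ### numbers -/

lemma QS_sq (a : ℕ → ℤ) {s : ℕ} (n : ℕ) (ha : ∀ k, s ≤ k → k < s + n → 0 ≤ a k) :
    ∑ k ∈ Ico s (s + n), (a k ^ 2 + a k) ≤ QS a s (s + n) := by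
  induction n with
  | zero =>
    rw [add_zero, QS_self, Ico_self, sum_empty]
  | succ n ih =>
    have h1 := ih fun k hk hk' => ha k hk (by omega)
    rw [← add_assoc, sum_Ico_succ_top (by omega), QS_top a (by omega)]
    have h2 : 0 ≤ if s < s + n then 2 * a (s + n - 1) * a (s + n) else 0 := by
      split_ifs with h3
      · have g1 := ha (s + n - 1) (by omega) (by omega)
        have g2 := ha (s + n) (by omega) (by omega)
        positivity
      · exact le_rfl
    linarith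

/-- four bounds for the middle of the row -/
lemma QS_mid (a : ℕ → ℤ) {s t : ℕ} (h : s < t) (ha : ∀ k, s ≤ k → k < t → 0 ≤ a k) :
    ∑ k ∈ Ico s t, a k ≤ 2 * QS a s t ∧
      ∑ k ∈ Ico s t, a k + 4 * a s - 1 ≤ 2 * QS a s t ∧
      ∑ k ∈ Ico s t, a k + 4 * a (t - 1) - 1 ≤ 2 * QS a s t ∧
      ∑ k ∈ Ico s t, a k + 4 * a s + 4 * a (t - 1) - 6 ≤ 2 * QS a s t := by
  obtain ⟨n, rfl⟩ : ∃ n, t = s + n := ⟨t - s, by omega⟩
  have h1 := QS_sq a n ha
  have g0 : ∀ k ∈ Ico s (s + n), (0 : ℤ) ≤ 2 * a k ^ 2 + a k := fun k hk => by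
    have := ha k (mem_Ico.1 hk).1 (mem_Ico.1 hk).2
    positivity
  have e1 : ∑ k ∈ Ico s (s + n), (2 * a k ^ 2 + a k) =
      2 * ∑ k ∈ Ico s (s + n), (a k ^ 2 + a k) - ∑ k ∈ Ico s (s + n), a k := by
    rw [mul_sum, ← sum_sub_distrib]
    exact sum_congr rfl fun k _ => by ring
  have ms : s ∈ Ico s (s + n) := mem_Ico.2 ⟨le_rfl, h⟩
  have mt : s + n - 1 ∈ Ico s (s + n) := mem_Ico.2 ⟨by omega, by omega⟩
  have f0 := sum_nonneg g0
  have f1 := single_le_sum g0 ms
  have f2 := single_le_sum g0 mt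
  have key : ∀ b : ℤ, 4 * b - 1 ≤ 2 * b ^ 2 + b := by
    intro b
    have : 0 ≤ (2 * b - 1) * (b - 1) := by
      rcases le_or_gt b 0 with hb | hb
      · nlinarith
      · have : 1 ≤ b := hb
        nlinarith
    linarith
  refine ⟨by linarith, ?_, ?_, ?_⟩
  · have := key (a s)
    linarith
  · have := key (a (s + n - 1))
    linarith
  · rcases Nat.eq_or_lt_of_le (show 1 ≤ n by omega) with h2 | h2
    · subst h2
      have g2 : 8 * a s - 6 ≤ 2 * a s ^ 2 + a s := by
        have : 0 ≤ (2 * a s - 3) * (a s - 2) := by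
          rcases le_or_gt (a s) 1 with hb | hb
          · nlinarith
          · have : 2 ≤ a s := hb
            nlinarith
        linarith
      rw [Nat.add_sub_cancel]
      linarith
    · have f3 : (2 * a s ^ 2 + a s) + (2 * a (s + n - 1) ^ 2 + a (s + n - 1)) ≤
          ∑ k ∈ Ico s (s + n), (2 * a k ^ 2 + a k) := by
        have hsub : ({s, s + n - 1} : Finset ℕ) ⊆ Ico s (s + n) := by
          intro k hk
          rw [mem_insert, mem_singleton] at hk
          rcases hk with rfl | rfl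
          · exact ms
          · exact mt
        have := sum_le_sum_of_subset_of_nonneg hsub fun k hk _ => g0 k hk
        rwa [sum_pair (by omega)] at this
      have k1 := key (a s)
      have k2 := key (a (s + n - 1))
      linarith

variable {P : Type u} [Fintype P] [PartialOrder P] [DecidableEq P] {r i : ℕ}
variable {psi : P → P} {C K : Finset P} {w v w' v' : P} {m : ℕ} {x : ℕ → P}

/-! ### one end -/

/-- an end without the terms of the first edge -/
noncomputable def Eo (i : ℕ) (C : Finset P) (x : ℕ → P) (w v : P) : ℤ :=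
  10 - 2 * NE i C x 3 - 8 * NE i C x 2 -
    2 * ∑ z ∈ Z4 i C, tz i z * (Nx i w z - Nx i v z) - CH i C x 2

lemma Ew_eq : Ew i C x w v = 2 * (((uc (x 0)).card : ℤ) - 1) * NE i C x 0 +
    ((uc (x 0)).card : ℤ) ^ 2 - (uc (x 0)).card + Eo i C x w v := by
  unfold Ew Eo
  ring

/-- the three cases of an end -/
theorem DLt.Eo_cases (h : DLt r i K C w v w' v' m x) (hz : ∀ z ∈ Z4 i C, z ∈ T4 i C) :
    (NE i C x 2 = 0 ∧ 8 - 2 * NE i C x 3 ≤ Eo i C x w v) ∨
    (NE i C x 2 = 1 ∧ -4 - 2 * NE i C x 3 ≤ Eo i C x w v) ∨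
    (NE i C x 2 = 2 ∧ m ≠ 5 ∧ -16 - 2 * NE i C x 3 ≤ Eo i C x w v) := by
  have hm := h.hm
  have e1 := h.NE_in (k := 2) (by omega) (by omega)
  have e2 := h.Z_eq hz
  have e3 : ((TUs i C x).card : ℤ) ≤ 1 := by exact_mod_cast h.TUs_le
  have e4 : (0 : ℤ) ≤ ((TLs i C x).card : ℤ) := by positivity
  unfold Eo
  rw [e2, e1]
  rcases h.CH2_num with ⟨d, c⟩ | ⟨d, c⟩ | ⟨d, c⟩ <;> rw [d]
  · left
    exact ⟨by norm_num, by push_cast; linarith⟩
  · right; left
    exact ⟨by norm_num, by push_cast; linarith⟩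
  · right; right
    refine ⟨by norm_num, fun h5 => ?_, by push_cast; linarith⟩
    have := h.n2 h5
    rw [e1, d] at this
    norm_num at this

/-! ### the formula -/

/-- the window `j` part of the value, weights `-1, 2, 14, 2` -/
noncomputable def V2 (i : ℕ) (C : Finset P) : ℤ :=
  2 * Lv i C - 3 * I2.al 2 (st i C).card (ZS i C) + 14 * I2.w3 (st i C).card (ZS i C) +
    2 * (I2.w3 (st i C).card (ZS i C) ^ 2 - 2 * I2.w6 (st i C).card (ZS i C))

/-- the terms of a first edge -/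
def E0 (u n : ℤ) : ℤ := 2 * n ^ 2 + 2 * n + 4 * (u - 1) * n + 2 * (u ^ 2 - u) - 3 * n - 3 * (u - 2)

namespace Two

variable (B : Two r i K psi C w v w' v' x m)
include B

lemma N1 : NE i C x 1 = 0 := B.toT.NE1

lemma Nm2 : NE i C x (m - 2) = 0 := by
  have hm := B.Q.hm
  have := B.toT'.NE1
  rwa [NE_mirror (by omega), show m - 1 - 1 = m - 2 by omega] at this

lemma QS_split : QS (NE i C x) 0 m = NE i C x 0 ^ 2 + NE i C x 0 + NE i C x (m - 1) ^ 2 +
    NE i C x (m - 1) + QS (NE i C x) 2 (m - 2) := by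
  have hm := B.Q.hm
  have n1 := B.N1
  have n2 := B.Nm2
  obtain ⟨n, rfl⟩ : ∃ n, m = n + 2 := ⟨m - 2, by omega⟩
  have g1 : n + 2 - 2 = n := by omega
  have g2 : n + 2 - 1 = n + 1 := by omega
  rw [g1] at n2
  rw [g1, g2, QS_bot _ (by omega), QS_bot _ (by omega), QS_top _ (by omega), QS_top _ (by omega),
    if_pos (by omega), if_pos (by omega), if_pos (by omega), if_pos (by omega)]
  simp only [Nat.add_sub_cancel, zero_add]
  rw [n1, n2]
  ring

lemma sum_split : ∑ k ∈ range m, NE i C x k = NE i C x 0 + NE i C x (m - 1) +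
    ∑ k ∈ Ico 2 (m - 2), NE i C x k := by
  have hm := B.Q.hm
  have n1 := B.N1
  have n2 := B.Nm2
  obtain ⟨n, rfl⟩ : ∃ n, m = n + 2 := ⟨m - 2, by omega⟩
  have g1 : n + 2 - 2 = n := by omega
  have g2 : n + 2 - 1 = n + 1 := by omega
  rw [g1] at n2
  rw [g1, g2, range_eq_Ico, sum_eq_sum_Ico_succ_bot (by omega), sum_eq_sum_Ico_succ_bot (by omega),
    sum_Ico_succ_top (by omega), sum_Ico_succ_top (by omega)]
  simp only [zero_add, Nat.reduceAdd]
  rw [n1, n2]
  ring

/-- the coefficient (2,1) -/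
lemma al_eq : I2.al 2 (st i C).card (ZS i C) =
    ∑ k ∈ range m, NE i C x k + (uc (x 0)).card + (uc (x m)).card - 4 := by
  have hm := B.Q.hm
  have T := B.toT
  have T' := B.toT'
  have a1 := K9x_al B.Q
  have g0 := T.dg0
  have g2 := T.dg2
  have m1 := T.mm01
  have m2 := T.mm12
  have g0' := T'.dg0
  have g2' := T'.dg2
  have m1' := T'.mm01
  have m2' := T'.mm12
  simp only [show m - 0 = m from rfl] at g0' m1'
  rw [a1, T.sum_vp, g0, g2, m1, m2, g0', g2', m1', m2']
  ring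

/-- THE FORMULA of the value -/
theorem V2_eq : V2 i C = E0 (uc (x 0)).card (NE i C x 0) + E0 (uc (x m)).card (NE i C x (m - 1)) +
    (2 * QS (NE i C x) 2 (m - 2) - 3 * ∑ k ∈ Ico 2 (m - 2), NE i C x k) +
    2 * Eo i C x w v + 2 * Eo i C (fun k => x (m - k)) w' v' +
    2 * (if m = 5 then 12 else if m = 6 then 2 else 0) +
    14 * (NE i C x 2 + NE i C x (m - 3) - 2 - (if m = 5 then 1 else 0)) +
    2 * ((NE i C x 2 + NE i C x (m - 3) - 2 - (if m = 5 then 1 else 0)) ^ 2 -
      2 * ((if 7 ≤ m then NE i C x 2 * NE i C x (m - 3) else 0) -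
        (if 6 ≤ m then NE i C x (m - 3) else 0) - (if 6 ≤ m then NE i C x 2 else 0) + 1)) := by
  have hm := B.Q.hm
  have e1 := B.w3v
  have e2 := B.Q.w6v
  rw [dl_NE, dl_NE] at e1 e2
  have n0 : NE i C (fun k => x (m - k)) 0 = NE i C x (m - 1) := by
    rw [NE_mirror (by omega)]
    rfl
  unfold V2 E0
  rw [B.L_form, B.al_eq, e1, e2, Ew_eq, Ew_eq, B.QS_split, B.sum_split, n0]
  simp only [show m - 0 = m from rfl]
  ring

end Two

end Pool.Agent.GaussPoset.Win.Si
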