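import Pool.Agent.W_448st0_h96.SzD
import Pool.Agent.W_448six_h74.SkH

/-!
MP_448cb3_co, G2, case B: THE LEAF `HSixE` OF STEP 0 at the level eight.  helper74.
-/

namespace Pool.Agent.GaussPoset.EK

set_option linter.unusedSectionVars false

open Finset Win St Polynomial Wd Win.W4

universe u

variable {P : Type u} [Fintype P] [PartialOrder P] [DecidableEq P] {r i j : ℕ}

variable {m : ℕ} {x : ℕ → P} {c : ℕ → ℤ} {β : ℤ} {t : Tops P}

variable {K : Finset P} {psi : P → P}

lemma Ue_UU (i : ℕ) (t : Tops P) : Ue i t = UU w8 i t := rfl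

/-- THE LEAF OF THE ROWS WITH TWO STARS at the level eight -/
theorem hsixe : HSixE P := by
  intro r i K psi Y V t m x c β lo hi e h8 h R hY B C S hp
  have hn := h.nj
  have hi1 : 1 ≤ i := by omega
  have hm := hp.1
  obtain ⟨g0, g1⟩ := CB.six_ends8 h (by omega) (by omega) B hp
  obtain ⟨w, v, w', v', T⟩ := Si.NJ_two hn (by omega) R B hp
  have h1 := (NJ.pay_zero hn hi1 R hY B (Or.inr hp.2.1) fun q hq hn => by
    rw [T.pen_zero hq] at hn
    exact absurd hn (by simp)).2
  rw [h1, Ue_UU]
  have := six_eight hn hi1 B hp g0 g1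
  linarith

end Pool.Agent.GaussPoset.EK
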