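import Pool.Agent.W_448six_h74.SkH

/-!
MP_448cb3_co, G2, case B: THE VALUE OF A ROW WITH TWO STARS at the level eight, the weights
`<-1, 7, 1, 2, 1 | 1, 1, 7, 1>`.  helper74.
-/

namespace Pool.Agent.GaussPoset.Win.Si

set_option linter.unusedSectionVars false

open Finset W4 Pa Pb
open Pool.Agent.GaussPoset.Win.SO (PN vp con on mem_PN vp_PD vp_PU)

universe u

variable {P : Type u} [Fintype P] [PartialOrder P] [DecidableEq P] {r i j : ℕ}
variable {psi : P → P} {C K : Finset P} {w v w' v' : P} {m : ℕ} {x : ℕ → P}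

/-- the window `j` part of the value, weights `1, 1, 7, 1` -/
noncomputable def T39 (i : ℕ) (C : Finset P) : ℤ :=
  Lv i C + 7 * I2.w3 (st i C).card (ZS i C) +
    (I2.w3 (st i C).card (ZS i C) ^ 2 - 2 * I2.w6 (st i C).card (ZS i C))

namespace Two

variable (B : Two r i K psi C w v w' v' x m)
include B

/-- THE FORMULA -/
theorem T3_eq : T39 i C = E1 (uc (x 0)).card (NE i C x 0) +
    E1 (uc (x m)).card (NE i C x (m - 1)) + QS (NE i C x) 2 (m - 2) + Eo i C x w v +
    Eo i C (fun k => x (m - k)) w' v' + (if m = 5 then 12 else if m = 6 then 2 else 0) +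
    7 * (NE i C x 2 + NE i C x (m - 3) - 2 - (if m = 5 then 1 else 0)) +
    ((NE i C x 2 + NE i C x (m - 3) - 2 - (if m = 5 then 1 else 0)) ^ 2 -
      2 * ((if 7 ≤ m then NE i C x 2 * NE i C x (m - 3) else 0) -
        (if 6 ≤ m then NE i C x (m - 3) else 0) - (if 6 ≤ m then NE i C x 2 else 0) + 1)) := by
  have hm := B.Q.hm
  have e1 := B.w3v
  have e2 := B.Q.w6v
  rw [dl_NE, dl_NE] at e1 e2
  have n0 : NE i C (fun k => x (m - k)) 0 = NE i C x (m - 1) := by
    rw [NE_mirror (by omega)]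
    rfl
  unfold T39 E1
  rw [B.L_form, e1, e2, Ew_eq, Ew_eq, B.QS_split, n0]
  simp only [show m - 0 = m from rfl]
  ring

/-- both ends closed -/
theorem T3_closed (hn : (uc (x 0)).card = 2) (hn' : (uc (x m)).card = 2) :
    (m = 5 → 18 ≤ T39 i C) ∧
    (m = 6 → 6 ≤ T39 i C + 2 * ∑ k ∈ range m, NE i C x k) ∧
    (7 ≤ m → 4 ≤ T39 i C + 2 * ∑ k ∈ range m, NE i C x k) := by
  have hm := B.Q.hm
  have u0 : 0 ≤ NE i C x 0 := by
    unfold NE
    rw [B.W.ue_zero (by omega) hn, card_empty]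
    push_cast
    omega
  have u1 : 0 ≤ NE i C x (m - 1) := by
    unfold NE
    rw [B.W.ue_last (by omega) hn', card_empty]
    push_cast
    omega
  have q0 := mul_nonneg u0 u0
  have q1 := mul_nonneg u1 u1
  obtain ⟨b, h1, h2⟩ := B.toT.Eo_cs fun z hz => B.Q.zz z hz
  obtain ⟨b', h1', h2'⟩ := B.Eo_cs'
  have e := B.T3_eq
  have s1 := B.sum_split
  unfold E1 at e
  rw [hn, hn'] at e
  push_cast at e
  refine ⟨fun h => ?_, fun h => ?_, fun h => ?_⟩
  · have n2 := B.n5 (by omega)
    have n1 := B.N1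
    have n3 := B.Nm2
    subst h
    simp only [show 5 - 2 = 3 from rfl, show 5 - 3 = 2 from rfl, show 5 - 4 = 1 from rfl,
      show 5 - 1 = 4 from rfl] at e h1' h2' n3 u1 q1
    rw [QS_one, n2] at e
    norm_num at e
    rw [n2] at h1 h1'
    rw [n3] at h2
    rw [n1] at h2'
    have hb : b = 8 := by
      rcases h1 with h | h | h
      · exact h.2
      · omega
      · omega
    have hb' : b' = 8 := by
      rcases h1' with h | h | h
      · exact h.2
      · omega
      · omega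
    linarith
  · subst h
    simp only [show 6 - 2 = 4 from rfl, show 6 - 3 = 3 from rfl, show 6 - 4 = 2 from rfl,
      show 6 - 1 = 5 from rfl] at e h1' h2' s1 u1 q1 ⊢
    rw [QS_pair] at e
    norm_num at e
    rw [s1, sum_two, e]
    generalize NE i C x 2 = p at *
    generalize NE i C x 3 = q at *
    rcases h1 with ⟨rfl, rfl⟩ | ⟨rfl, rfl⟩ | ⟨rfl, rfl⟩ <;>
      rcases h1' with ⟨rfl, rfl⟩ | ⟨rfl, rfl⟩ | ⟨rfl, rfl⟩ <;> linarith
  · obtain ⟨l1, l2⟩ := B.long h
    obtain ⟨c1, c2, c3, c4⟩ := QS_mid' (NE i C x) (s := 3) (t := m - 3) (by omega)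
      fun k hk hk' => B.NE_pos (by omega) (by omega)
    have p3 := B.NE_pos (k := 3) (by omega) (by omega)
    have p4 := B.NE_pos (k := m - 4) (by omega) (by omega)
    have p5 : 0 ≤ ∑ k ∈ Ico 3 (m - 3), NE i C x k := sum_nonneg fun k hk => by
      rw [mem_Ico] at hk
      exact B.NE_pos (by omega) (by omega)
    rw [show m - 3 - 1 = m - 4 by omega] at c3 c4
    rw [l1, if_neg (by omega), if_neg (by omega), if_neg (by omega), if_pos (by omega),
      if_pos (by omega), if_pos (by omega)] at e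
    rw [s1, l2, e]
    generalize NE i C x 2 = p at *
    generalize NE i C x (m - 3) = q at *
    generalize NE i C x 3 = n at *
    generalize NE i C x (m - 4) = n' at *
    generalize QS (NE i C x) 3 (m - 3) = Q at *
    generalize ∑ k ∈ Ico 3 (m - 3), NE i C x k = S at *
    rcases h1 with ⟨rfl, rfl⟩ | ⟨rfl, rfl⟩ | ⟨rfl, rfl⟩ <;>
      rcases h1' with ⟨rfl, rfl⟩ | ⟨rfl, rfl⟩ | ⟨rfl, rfl⟩ <;> linarith

end Two

end Pool.Agent.GaussPoset.Win.Si

namespace Pool.Agent.GaussPoset.EK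

set_option linter.unusedSectionVars false

open Finset Win St Polynomial Wd Win.W4
open Pool.Agent.GaussPoset.Win.SO (PN vp mem_PN chc CQ)
open Pool.Agent.GaussPoset.Win.Si (DLt T39)
open Pool.Agent.GaussPoset.Win.Pn (Wt own shr A3 B5 C6 C8 C10 F2 F3 F4 F6)

universe u

variable {P : Type u} [Fintype P] [PartialOrder P] [DecidableEq P] {r i j : ℕ}

variable {m : ℕ} {x : ℕ → P} {c : ℕ → ℤ} {β : ℤ} {t : Tops P}

/-- the weights of step 0 at the level eight, with `w32 - F6` added -/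
def w9 : Wt := ⟨-1, 7, 1, 2, 1, 1, 1, 7, 1⟩

lemma own2_w9 (j : ℕ) (t : Tops P) :
    own2 w9 j t = T39 j (cext (j + 1) (topOf : P → Tops P) t) := by
  have e2 : F2 j t + F4 j t = Lv j (cext (j + 1) (topOf : P → Tops P) t) := rfl
  have e3 : F3 j t = I2.w3 (st j (cext (j + 1) (topOf : P → Tops P) t)).card
      (ZS j (cext (j + 1) (topOf : P → Tops P) t)) := rfl
  have e4 : F6 j t = I2.w3 (st j (cext (j + 1) (topOf : P → Tops P) t)).card
      (ZS j (cext (j + 1) (topOf : P → Tops P) t)) ^ 2 -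
      2 * I2.w6 (st j (cext (j + 1) (topOf : P → Tops P) t)).card
      (ZS j (cext (j + 1) (topOf : P → Tops P) t)) := rfl
  unfold own2 w9 T39
  rw [← e2, ← e4, ← e3]
  ring

section row

variable (h : NJ P r (i + 1)) (hi1 : 1 ≤ i) (B : RowB P (i + 1) t m x c β) (hp : Pat6 m c β)

include h B hp

lemma UU_w9 : UU w9 i t =
    2 * (own1 w9 i t + T39 (i + 1) (cext (i + 1 + 1) (topOf : P → Tops P) t)) := by
  unfold UU
  rw [NJ.shr6 h rfl B hp w9, own_eq, own2_w9]
  ring

include hi1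

/-- the level eight, both ends closed, weights `w9` -/
theorem six_nine (h0 : (uc (x 0)).card = 2) (h1 : (uc (x m)).card = 2) :
    16 ≤ UU w9 i t ∧ (m ≤ 6 → 20 ≤ UU w9 i t) := by
  obtain ⟨K, psi, R⟩ := exists_red P (i + 1)
  obtain ⟨w, v, w', v', T⟩ := Si.NJ_two h (by omega) R B hp
  have h2 := NJ.own6_two h rfl hi1 B hp w9 rfl rfl h0 h1
  have h3 := six_sum_two h hi1 B hp h0 h1
  have h4 : (0 : ℤ) ≤ ∑ w ∈ CQ i (SS i t), ((chc i (SS i t) w).card : ℤ) :=
    sum_nonneg fun _ _ => by positivity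
  have h6 : (0 : ℤ) ≤ ∑ k ∈ Ed x m,
      ((DE (i + 1) (cext (i + 1 + 1) (topOf : P → Tops P) t) x k).card : ℤ) :=
    sum_nonneg fun _ _ => by positivity
  obtain ⟨g5, g6, g7⟩ := T.T3_closed h0 h1
  rw [UU_w9 h B hp]
  have hm := hp.1
  rcases Nat.lt_or_ge m 7 with hm7 | hm7
  · have key : 20 ≤ 2 * (own1 w9 i t +
        T39 (i + 1) (cext (i + 1 + 1) (topOf : P → Tops P) t)) := by
      rcases Nat.lt_or_ge m 6 with hm6 | hm6
      · have g := g5 (by omega)
        rw [if_pos (by omega)] at h2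
        linarith
      · have g := g6 (by omega)
        rw [if_neg (by omega)] at h2
        linarith
    exact ⟨by linarith, fun _ => key⟩
  · have g := g7 hm7
    rw [if_neg (by omega)] at h2
    exact ⟨by linarith, fun _ => by omega⟩

omit hp hi1 in
/-- both ends closed: the length -/
theorem six_len (hj : 2 ≤ i + 1) (hm : 1 ≤ m) (h0 : (uc (x 0)).card = 2)
    (h1 : (uc (x m)).card = 2) : m + 2 ≤ i + 1 := by
  obtain ⟨lo, hi, e, C⟩ := Cp.comp_exists h.g.H t.2 h.g.hr h.g.good
  obtain ⟨l1, hor⟩ := B.orient h hj C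
  have hh : ∀ k, k ≤ i + 1 → hi k ≤ k := by
    intro k
    induction k with
    | zero => exact fun _ => C.hi_zero.le
    | succ k ih =>
      intro hk
      have := ih (by omega)
      have := C.hi_step k (by omega)
      omega
  have c0 := C.single_up h.g.H h.g.good t.2 (k := i) (s := lo (i + 1)) (by omega) le_rfl (by omega)
  have c1 := C.single_up h.g.H h.g.good t.2 (k := i) (s := hi (i + 1)) (by omega) (by omega) le_rfl
  have s0 := C.lo_step i (by omega)
  have s1 := C.hi_step i (by omega)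
  have hi' := hh i (by omega)
  have e0 : (uc (e (i + 1) (lo (i + 1)))).card ≠ 1 ∧ (uc (e (i + 1) (hi (i + 1)))).card ≠ 1 := by
    rcases hor with hor | hor
    · have a0 := hor 0 (by omega)
      have am := hor m le_rfl
      rw [add_zero] at a0
      rw [← l1] at am
      rw [← a0, ← am]
      omega
    · have a0 := hor 0 (by omega)
      have am := hor m le_rfl
      rw [Nat.sub_zero] at a0
      rw [show hi (i + 1) - m = lo (i + 1) by omega] at am
      rw [← a0, ← am]
      omega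
  have f0 : lo (i + 1) ≠ lo i := fun q => e0.1 (c0.2 (Or.inl q))
  have f1 : hi (i + 1) ≠ hi i + 1 := fun q => e0.2 (c1.2 (Or.inr q))
  omega

end row

/-- THE LEVEL EIGHT, weights `<-1, 7, 1, 2, 1 | 1, 1, 7, 1>`: at least twenty -/
theorem CB.six_w9 (h : CB P r (i + 1)) (h8 : i + 1 = 8) (B : RowB P (i + 1) t m x c β)
    (hp : Pat6 m c β) : 20 ≤ UU w9 i t := by
  have hn := h.nj
  have hm := hp.1
  obtain ⟨g0, g1⟩ := CB.six_ends8 h (by omega) (by omega) B hp
  have := six_len hn B (by omega) (by omega) g0 g1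
  exact (six_nine hn (by omega) B hp g0 g1).2 (by omega)

end Pool.Agent.GaussPoset.EK
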