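import Pool.Agent.W_448cl_h64.CmH
import Pool.Agent.W_448st0_h96.SzD

/-!
MP_448cb3_co, G2, case B, step 0 at the level 13: a row with the pattern [DL], the doubled end
closed, weights `5 W1 + 4 TT`.  helper74 (from helper64's `sum13`).
-/

namespace Pool.Agent.GaussPoset.EK

set_option linter.unusedSectionVars false

open Finset Win St Polynomial Wd Win.W4

universe u

variable {P : Type u} [Fintype P] [PartialOrder P] [DecidableEq P] {r i j : ℕ}

variable {m : ℕ} {x : ℕ → P} {c : ℕ → ℤ} {β : ℤ} {t : Tops P}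

variable {K : Finset P} {psi : P → P} {Y V : P → P}

/-- the pattern [DL] does not have two stars -/
lemma IsDL.not_six (hm : 3 ≤ m) (hD : IsDL m c β) : ¬ Pat6 m c β := fun hp => by
  have h1 := hp.2.2.2.2.1
  rw [hD.2.2.2 (m - 2) (by have := hp.1; omega) (by omega)] at h1
  norm_num at h1

/-- a component with the pattern [DL] is small -/
lemma RowB.dl_small (h : NJ P r j) (B : RowB P j t m x c β) (hm : 3 ≤ m) (hD : IsDL m c β) :
    Small j (topOf : P → Tops P) t :=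
  (B.small h.g.H h.split).resolve_right (hD.not_six hm)

/-- [DL] WITH A CLOSED DOUBLED END at an odd level, weights `5 W1 + 4 TT` -/
theorem CB.closed13 (h : CB P r (i + 1)) (hi1 : 1 ≤ i) (ho : (i + 1) % 2 = 1)
    (R : Red P (i + 1) K psi) (hY : YW (i + 1) Y V) (B : RowB P (i + 1) t m x c β)
    {lo hi : ℕ → ℕ} {e : ℕ → ℕ → P} (C : Cp.Comp (i + 1) (t : P) lo hi e)
    (S : Shape (i + 1) lo hi) (hm : 3 ≤ m) (hD : IsDL m c β) (hu : (uc (x 0)).card = 2) :
    0 ≤ 5 * Ut i t + 8 * TT (i + 1) t - 16 * (PA (i + 1) K Y V t + PC (i + 1) K Y V t) ∨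
      (-40 ≤ 5 * Ut i t + 8 * TT (i + 1) t - 16 * (PA (i + 1) K Y V t + PC (i + 1) K Y V t) ∧
        LightJ i K t) := by
  obtain ⟨p1, p2⟩ := NJ.pay_dl h.nj hi1 R hY B hm hD
  have hs := B.dl_small h.nj hm hD
  rw [p1, p2, NJ.Ut_small h.nj hi1 R hs, NJ.TT_small h.nj (by omega) R hs]
  obtain ⟨hb, c0, c1, c2⟩ := hD
  subst hb
  have F : ClDL P r i t m x c lo hi e := ⟨h.nj, by omega, B, C, hm, hu, c0, c1, c2⟩
  have hQ : Qt i t = Qc i t := rfl
  have hT : W4.Tv (i + 1) (cext (i + 1 + 1) (topOf : P → Tops P) t) =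
    W4.Tv (i + 1) (Cx i t) := rfl
  rw [hQ, hT]
  rcases F.sum13 R S ho with h1 | ⟨h1, h2⟩
  · left
    linarith
  · right
    exact ⟨by linarith, h2⟩

/-- THE LEAF `HClosedT` (helper16's `NtB`) of step 0 at the level 13 -/
theorem closed_thirteen (r i : ℕ) (K : Finset P) (psi : P → P) (t : Tops P) (m : ℕ) (x : ℕ → P)
    (c : ℕ → ℤ) (β : ℤ) (lo hi : ℕ → ℕ) (e : ℕ → ℕ → P) (h13 : i + 1 = 13)
    (h : CB P r (i + 1)) (R : Red P (i + 1) K psi) (B : RowB P (i + 1) t m x c β)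
    (C : Cp.Comp (i + 1) (t : P) lo hi e) (S : Shape (i + 1) lo hi) (hm : 3 ≤ m)
    (hD : IsDL m c β) (hu : (uc (x 0)).card = 2) :
    0 ≤ 5 * Ut i t + 8 * TT (i + 1) t ∨
      (-56 ≤ 5 * Ut i t + 8 * TT (i + 1) t ∧ LightJ i K t) := by
  obtain ⟨Y, V, hY⟩ := exists_YW P (i + 1)
  obtain ⟨p1, p2⟩ := NJ.pay_dl h.nj (by omega) R hY B hm hD
  have h1 := CB.closed13 h (by omega) (by omega) R hY B C S hm hD hu
  rw [p1, p2] at h1
  rcases h1 with h1 | ⟨h1, h2⟩
  · left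
    linarith
  · right
    exact ⟨by linarith, h2⟩

end Pool.Agent.GaussPoset.EK
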